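import Pool.Agent.Lib.MP_cb7904_an.H16Minor

/-!
The second moment of a random minor in terms of the Fourier coefficients.
-/

namespace Pool.Agent.Lib.MP_cb7904_an.H16

open Finset
open scoped BigOperators

lemma emb_sum_le {α : Type*} [Fintype α] [DecidableEq α] (m : ℕ) {b : α → ℝ} (hb : ∀ r, 0 ≤ b r) :
    ∑ r : Fin m ↪ α, ∏ i, b (r i) ≤ m.factorial * ∏ r, (1 + b r) := by
  rw [prod_one_add, mul_sum, ← sum_fiberwise_of_maps_to (t := powerset univ)
    (g := fun r : Fin m ↪ α => univ.map r) fun _ _ => mem_powerset.mpr (subset_univ _)]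
  refine sum_le_sum fun S _ => ?_
  rw [sum_congr rfl fun r hr => (prod_map univ r b).symm.trans (by rw [(mem_filter.mp hr).2]),
    sum_const, nsmul_eq_mul]
  refine mul_le_mul_of_nonneg_right (Nat.cast_le.mpr ?_) (prod_nonneg fun _ _ => hb _)
  rcases (univ.filter fun r : Fin m ↪ α => univ.map r = S).eq_empty_or_nonempty with h | ⟨r, hr⟩
  · simp [h]
  have h1 : Fintype.card (Fin m ↪ S) = m.factorial := by
    rw [Fintype.card_embedding_eq, Fintype.card_coe, ← (mem_filter.mp hr).2, card_map, card_univ,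
      Fintype.card_fin, Nat.descFactorial_self]
  rw [← Fintype.card_coe, ← h1]
  refine Fintype.card_le_of_injective (fun r => r.1.codRestrict (S : Set α) fun i =>
    (mem_filter.mp r.2).2.subset (mem_map_of_mem _ (mem_univ i))) fun r r' h =>
    Subtype.ext (DFunLike.ext _ _ fun i => ?_)
  exact congrArg Subtype.val (DFunLike.congr_fun h i)

variable {p : ℕ} [Fact p.Prime] {m : ℕ}

/-- The standard additive character. -/
noncomputable abbrev ψ : AddChar (ZMod p) ℂ := ZMod.stdAddChar

lemma char_sum (s : Finset (Fin m)) (a : Fin m → ZMod p) : ψ (∑ i ∈ s, a i) = ∏ i ∈ s, ψ (a i) := by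
  induction s using Finset.induction_on with
  | empty => simp
  | insert i s hi ih => rw [sum_insert hi, prod_insert hi, AddChar.map_add_eq_mul, ih]

lemma ex_char (d : Fin m → ZMod p) :
    𝔼 x : Fin m → ZMod p, ψ (∑ i, d i * x i) = if d = 0 then 1 else 0 := by
  split_ifs with h
  · simp [h]
  obtain ⟨i, hi⟩ := Function.ne_iff.mp h
  rw [ex_hom (fun x : Fin m → ZMod p => ∑ i, d i * x i)
    (fun _ _ => by simp only [Pi.add_apply, mul_add, sum_add_distrib])
    (fun t => ⟨Pi.single i (t / d i), by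
      simp only [Pi.single_apply, mul_ite, mul_zero, sum_ite_eq', mem_univ, if_true]
      exact mul_div_cancel₀ _ hi⟩) ψ, Fintype.expect_eq_sum_div_card]
  have := AddChar.sum_mulShift (1 : ZMod p) (ZMod.isPrimitive_stdAddChar p)
  simp only [mul_one, one_ne_zero, if_false, Nat.cast_zero] at this
  rw [this, zero_div]

lemma parseval {T : Type*} [Fintype T] {ρ : T → Fin m → ZMod p} (hρ : Function.Injective ρ)
    (A : T → ℂ) : 𝔼 x : Fin m → ZMod p, ‖∑ t, A t * ψ (∑ i, ρ t i * x i)‖ ^ 2 = ∑ t, ‖A t‖ ^ 2 := by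
  classical
  apply Complex.ofReal_injective
  have h : ∀ (t s : T) (x : Fin m → ZMod p), A t * ψ (∑ i, ρ t i * x i)
      * (starRingEnd ℂ (A s) * starRingEnd ℂ (ψ (∑ i, ρ s i * x i)))
      = A t * starRingEnd ℂ (A s) * ψ (∑ i, (ρ t - ρ s) i * x i) := fun t s x => by
    simp only [Pi.sub_apply, sub_mul, sum_sub_distrib]
    rw [sub_eq_add_neg, AddChar.map_add_eq_mul, AddChar.map_neg_eq_conj]
    ring
  simp only [Complex.ofReal_expect, Complex.ofReal_sum, Complex.ofReal_pow, ← Complex.mul_conj',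
    map_sum, map_mul, sum_mul_sum, h, expect_sum_comm, ← mul_expect, ex_char, sub_eq_zero,
    hρ.eq_iff, mul_ite, mul_one, mul_zero, sum_ite_eq, mem_univ, if_true]

theorem dsq_le {F : ZMod p → ℤ} {c : ZMod p → ℂ} (hF : ∀ x, (F x : ℂ) = ∑ r, c r * ψ (r * x)) :
    𝔼 z : (Fin m → ZMod p) × (Fin m → ZMod p), dsq F z.1 z.2
      = m.factorial * ∑ r : Fin m ↪ ZMod p, ∏ i, ‖c (r i)‖ ^ 2 := by
  classical
  set D : (Fin m → ZMod p) → (Fin m → ZMod p) → ℂ := fun r x =>
    ∑ σ : Equiv.Perm (Fin m), ((Equiv.Perm.sign σ : ℤ) : ℂ) * ψ (∑ i, r (σ.symm i) * x i) with hD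
  have h0 : ∀ (r x : Fin m → ZMod p) (σ : Equiv.Perm (Fin m)),
      ψ (∑ i, r (σ.symm i) * x i) = ∏ i, ψ (r i * x (σ i)) := fun r x σ => by
    rw [← Equiv.sum_comp σ, char_sum]; simp
  have h1 : ∀ x y, dsq F x y = ‖∑ r : Fin m → ZMod p, (∏ i, c (r i)) * D r x
      * ψ (∑ i, r i * y i)‖ ^ 2 := fun x y => by
    rw [dsq, ← sq_abs, ← Complex.norm_intCast, Int.cast_det, Matrix.det_apply']
    simp only [Matrix.map_apply, Matrix.of_apply, hF, prod_univ_sum, Fintype.piFinset_univ, hD,
      mul_sum, sum_mul, h0, char_sum]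
    rw [sum_comm]
    simp only [mul_add, AddChar.map_add_eq_mul, prod_mul_distrib]
    congr! 4
    ring
  have h2 : ∀ r : Fin m → ZMod p, 𝔼 x, ‖D r x‖ ^ 2
      = if Function.Injective r then (m.factorial : ℝ) else 0 := fun r => by
    split_ifs with h
    · rw [parseval (ρ := fun (σ : Equiv.Perm (Fin m)) i => r (σ.symm i)) fun σ τ h' =>
        Equiv.symm_bijective.injective (Equiv.ext fun i => h (congrFun h' i))]
      have : ∀ σ : Equiv.Perm (Fin m), ‖((Equiv.Perm.sign σ : ℤ) : ℂ)‖ ^ 2 = 1 := fun σ => by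
        rcases Int.units_eq_one_or (Equiv.Perm.sign σ) with h | h <;> simp [h]
      simp only [this, sum_const, card_univ, Fintype.card_perm, Fintype.card_fin, nsmul_one]
    obtain ⟨i, j, h3, h4⟩ := Function.not_injective_iff.mp h
    refine expect_eq_zero fun x _ => ?_
    have := Matrix.det_zero_of_column_eq (M := Matrix.of fun i j => ψ (r j * x i)) h4
      fun k => by simp [h3]
    simp only [Matrix.det_apply', Matrix.of_apply, ← h0] at this
    simp only [hD, this, norm_zero, ne_eq, OfNat.ofNat_ne_zero, not_false_eq_true, zero_pow]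
  rw [← univ_product_univ, expect_product' _ _ fun x y => dsq F x y]
  simp only [h1, parseval Function.injective_id (ρ := fun r => r), expect_sum_comm, norm_mul,
    mul_pow, ← mul_expect, h2, mul_ite, mul_zero, norm_prod, ← prod_pow]
  rw [← sum_filter, mul_sum, sum_subtype _ (p := fun r => Function.Injective r) (by simp)]
  exact (Fintype.sum_equiv (Equiv.subtypeInjectiveEquivEmbedding _ _) _ _ fun r => mul_comm _ _)

end Pool.Agent.Lib.MP_cb7904_an.H16
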