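import Pool.Agent.Lib.MP_cb7904_an.H16Det

/-!
Two-sided logarithmic bounds for the sum of the absolute values of the Fourier coefficients.
-/

namespace Pool.Agent.Lib.MP_cb7904_an.H16

open Finset
open scoped BigOperators

lemma log_step {u : ℝ} (hu : 0 ≤ u) :
    Real.log (1 + (u ^ 2) ^ 2) ≤ 24 * u ^ 2 * (2 * u / (1 + 2 * u) - u / (1 + u)) := by
  have h : 2 * u / (1 + 2 * u) - u / (1 + u) = u / ((1 + u) * (1 + 2 * u)) := by
    field_simp; ring
  rw [h, ← mul_div_assoc, le_div_iff₀ (by positivity)]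
  rcases le_total u 1 with h1 | h1
  · have h2 := Real.log_le_sub_one_of_pos (show 0 < 1 + (u ^ 2) ^ 2 by positivity)
    have h3 := mul_le_mul (by linarith : Real.log (1 + (u ^ 2) ^ 2) ≤ (u ^ 2) ^ 2)
      (show (1 + u) * (1 + 2 * u) ≤ 6 by nlinarith) (by positivity) (by positivity)
    nlinarith [mul_le_mul_of_nonneg_left h1 (pow_nonneg hu 3), pow_nonneg hu 3]
  · have h2 : Real.log (1 + (u ^ 2) ^ 2) ≤ 4 * u := by
      have a1 := Real.log_le_log (show 0 < 1 + (u ^ 2) ^ 2 by positivity)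
        (show 1 + (u ^ 2) ^ 2 ≤ (1 + u) ^ 4 by nlinarith [pow_nonneg hu 2, pow_nonneg hu 3])
      have a2 := Real.log_le_sub_one_of_pos (show 0 < 1 + u by positivity)
      rw [Real.log_pow] at a1
      push_cast at a1
      linarith
    have h3 := mul_le_mul h2 (show (1 + u) * (1 + 2 * u) ≤ 6 * u ^ 2 by nlinarith)
      (by positivity) (by positivity)
    linarith

lemma log_sum {a : ℝ} (ha : 0 ≤ a) (J : ℕ) :
    ∑ k ∈ range J, Real.log (1 + (4 ^ k * a) ^ 2) / 4 ^ k ≤ 24 * a := by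
  obtain ⟨u, hu, rfl⟩ : ∃ u, 0 ≤ u ∧ a = u ^ 2 := ⟨√a, Real.sqrt_nonneg a, (Real.sq_sqrt ha).symm⟩
  refine le_trans (sum_le_sum (g := fun k => 24 * u ^ 2 * (2 ^ (k + 1) * u / (1 + 2 ^ (k + 1) * u)
    - 2 ^ k * u / (1 + 2 ^ k * u))) fun k _ => ?_) ?_
  · have h := log_step (u := 2 ^ k * u) (by positivity)
    rw [div_le_iff₀ (by positivity), show (4 : ℝ) ^ k = (2 ^ k) ^ 2 by
      rw [← pow_mul, mul_comm, pow_mul]; norm_num, ← mul_pow, pow_succ' 2 k, mul_assoc 2]
    linarith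
  rw [← mul_sum, sum_range_sub fun k => 2 ^ k * u / (1 + 2 ^ k * u)]
  refine mul_le_of_le_one_right (by positivity) ?_
  have h1 : 2 ^ J * u / (1 + 2 ^ J * u) ≤ 1 := (div_le_one (by positivity)).mpr (by linarith)
  have h2 : 0 ≤ 2 ^ 0 * u / (1 + 2 ^ 0 * u) := by positivity
  linarith

variable {p : ℕ} [hp : Fact p.Prime]

lemma sum_zmod {M : Type*} [AddCommMonoid M] (g : ℕ → M) :
    ∑ x : ZMod p, g x.val = ∑ k ∈ range p, g k :=
  sum_nbij' ZMod.val (fun k => (k : ZMod p)) (fun x _ => mem_range.mpr x.val_lt)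
    (fun _ _ => mem_univ _) (fun x _ => ZMod.natCast_zmod_val x)
    (fun _ h => ZMod.val_cast_of_lt (mem_range.mp h)) fun _ _ => rfl

lemma char_ne_one {r : ZMod p} (hr : r ≠ 0) : ψ r ≠ 1 := fun h =>
  hr (ZMod.injective_stdAddChar (h.trans (AddChar.map_zero_eq_one _).symm))

lemma char_mul (r : ZMod p) (k : ℕ) : ψ (r * (k : ZMod p)) = ψ r ^ k := by
  rw [← AddChar.map_nsmul_eq_pow, nsmul_eq_mul, mul_comm]

lemma eq_of_sum {a : ZMod p → ℚ} {r : ZMod p} (hr : r ≠ 0) (h : ∑ y, a y * ψ (r * y) = 0)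
    (y : ZMod p) : a y = a 0 := by
  have h1 : IsPrimitiveRoot (ψ r) p := by
    have := IsPrimitiveRoot.orderOf (ψ r)
    rwa [orderOf_eq_prime (p := p) (by rw [← char_mul]; simp) (char_ne_one hr)] at this
  have h2 := (h1.sum_eq_zero_iff_forall_eq hp.out fun i => a (i : ℕ)).mp (by
    rw [Fin.sum_univ_eq_sum_range fun k => (a k : ℂ) * ψ r ^ k, ← sum_zmod, ← h]
    simp only [← char_mul, ZMod.natCast_zmod_val]) ⟨y.val, y.val_lt⟩ ⟨0, hp.out.pos⟩
  simpa using h2

lemma const_of_rel {g w : ZMod p → ℚ} (h0 : w ≠ 0) (h1 : w 0 = 0)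
    (h : ∀ x, ∑ y, w y * g (x + y) = 0) (z : ZMod p) : g z = g 0 := by
  refine eq_of_sum (neg_ne_zero.mpr one_ne_zero) ((mul_eq_zero.mp ?_).resolve_left fun h2 =>
    h0 (funext fun y => (eq_of_sum one_ne_zero h2 y).trans h1)) z
  have h2 : ∀ y, ∑ z, (g z : ℂ) * ψ (-1 * z) = ∑ x, g (x + y) * ψ (-1 * (x + y)) := fun y =>
    (Equiv.sum_comp (Equiv.addRight y) _).symm
  have h3 : ∀ x y, (w y : ℂ) * ψ (1 * y) * (g (x + y) * ψ (-1 * (x + y)))
      = ψ (-x) * ((w y * g (x + y) : ℚ) : ℂ) := fun x y => by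
    rw [show -x = 1 * y + -1 * (x + y) by ring, AddChar.map_add_eq_mul]; push_cast; ring
  rw [sum_mul, sum_congr rfl fun y _ => by rw [h2 y, mul_sum], sum_comm]
  simp only [h3, ← mul_sum, ← Rat.cast_sum, h, Rat.cast_zero, mul_zero, sum_const_zero]

/-- The Fourier coefficients of the indicator of `A`. -/
noncomputable def co (A : Finset (ZMod p)) (r : ZMod p) : ℂ := (1 / p : ℂ) * ∑ x ∈ A, ψ (-(r * x))

lemma inversion (A : Finset (ZMod p)) (y : ZMod p) :
    ((if y ∈ A then 1 else 0 : ℤ) : ℂ) = ∑ r, co A r * ψ (r * y) := by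
  have hc : (p : ℂ) ≠ 0 := Nat.cast_ne_zero.mpr hp.out.ne_zero
  simp only [co, mul_assoc, sum_mul, ← mul_sum, ← AddChar.map_add_eq_mul]
  rw [sum_comm]
  have b3 : ∀ x, ∑ r : ZMod p, ψ (-(r * x) + r * y) = if y = x then (p : ℂ) else 0 := fun x => by
    have := AddChar.sum_mulShift (y - x) (ZMod.isPrimitive_stdAddChar p)
    simp only [sub_eq_zero, ZMod.card, Nat.cast_ite, Nat.cast_zero] at this
    rw [← this]
    exact sum_congr rfl fun r _ => by congr 1; ring
  simp only [b3, sum_ite_eq]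
  split_ifs <;> simp [hc]

lemma del_ge {A : Finset (ZMod p)} (hA : A.card = (p - 1) / 2) {K : ℕ} (h0 : 0 < K)
    (hK : 2 * (K + 1) ≤ p) (h5 : 5 ≤ p) :
    1 / 30 ≤ del (fun x => ((if x ∈ A then 1 else 0 : ℤ) : ℚ)) (Fin K) := by
  by_contra hc
  rw [not_le] at hc
  have : Nonempty (Fin K) := ⟨⟨0, h0⟩⟩
  have hp0 : (5 : ℝ) ≤ p := by exact_mod_cast h5
  have hK' : 2 * (K + 1 : ℝ) ≤ p := by exact_mod_cast hK
  have hcard : 2 * (A.card : ℝ) + 1 = p := by
    have := hp.out.eq_two_or_odd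
    exact_mod_cast (by omega : 2 * A.card + 1 = p)
  obtain ⟨g, w, h1, h2, h3, h4⟩ := self_correct (hc.trans (by norm_num)) (by
    rw [ZMod.card, Fintype.card_fin]; nlinarith)
  have h6 : ∀ B : Finset (ZMod p), pr (· ∈ B) = B.card / p := fun B => by
    simp [pr, Fintype.expect_eq_sum_div_card, sum_ind]
  simp only [const_of_rel h1 h2 h3] at h4
  by_cases h7 : g 0 = 1
  · have := (pr_mono (E := (· ∈ Aᶜ)) fun z hz => by simp [h7, mem_compl.mp hz]).trans h4
    rw [h6, div_le_iff₀ (by linarith), card_compl, ZMod.card, Nat.cast_sub (by omega)] at this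
    nlinarith
  · have := (pr_mono (E := (· ∈ A)) fun z hz => by simpa [hz] using Ne.symm h7).trans h4
    rw [h6, div_le_iff₀ (by linarith)] at this
    nlinarith

lemma scale {A : Finset (ZMod p)} (hA : A.card = (p - 1) / 2) {m : ℕ} (h0 : 16 ≤ m)
    (hm : 120 * m ≤ p) : (m : ℝ) / 2 ≤ ∑ r, Real.log (1 + (m * (170 * ‖co A r‖)) ^ 2) := by
  obtain ⟨K, hK⟩ : ∃ K, 60 * m = K + 1 := ⟨60 * m - 1, by omega⟩
  have hK' : (K : ℝ) + 1 = 60 * m := by exact_mod_cast hK.symm
  have hm0 : (16 : ℝ) ≤ m := by exact_mod_cast h0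
  have hf : (0 : ℝ) < m.factorial := by positivity
  have h1 := del_ge hA (K := K) (by omega) (by omega) (by omega)
  have h2 := del_le (F := fun x => if x ∈ A then 1 else 0) K m
  have h3 := emb_sum_le m (b := fun r => (m * (170 * ‖co A r‖)) ^ 2) fun _ => sq_nonneg _
  rw [← Real.log_prod fun _ _ => by positivity, Real.le_log_iff_exp_le (by positivity)]
  set P := ∏ r, (1 + (m * (170 * ‖co A r‖)) ^ 2)
  simp only [← mul_assoc, mul_pow _ ‖_‖, prod_mul_distrib, prod_const, card_univ, Fintype.card_fin,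
    ← mul_sum] at h3
  rw [dsq_le (inversion A), hK'] at h2
  set T := ∑ r : Fin m ↪ ZMod p, ∏ i, ‖co A (r i)‖ ^ 2
  have hT : 0 ≤ T := by positivity
  have h4 : 4 ^ m * (60 * m * (2 * K) : ℝ) ^ m ≤ ((m * 170) ^ 2) ^ m := by
    rw [← mul_pow]
    exact pow_le_pow_left₀ (by positivity) (by nlinarith) _
  have h5 : (m.factorial : ℝ) ≤ 60 * ((60 * m * (2 * K)) ^ m * T) := by
    refine le_of_mul_le_mul_left ?_ (show 0 < (m.factorial : ℝ) * m by positivity)
    refine le_trans ?_ (h2.trans (le_of_eq (by ring)))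
    rw [sq, mul_right_comm]
    exact mul_le_mul_of_nonneg_left (by nlinarith) (by positivity)
  have h6 : 4 ^ m ≤ 60 * P := by
    refine le_of_mul_le_mul_left ?_ hf
    nlinarith [mul_le_mul_of_nonneg_left h5 (show (0 : ℝ) ≤ 4 ^ m by positivity),
      mul_le_mul_of_nonneg_right h4 hT]
  have e1 := Real.exp_one_lt_d9
  have h7 : Real.exp (m / 2) ≤ 2 ^ m := by
    rw [div_eq_mul_inv, Real.exp_nat_mul]
    refine pow_le_pow_left₀ (Real.exp_pos _).le (abs_le_of_sq_le_sq' ?_ (by norm_num)).2 _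
    rw [← Real.exp_nat_mul]; norm_num; linarith
  have h8 : (2 : ℝ) ^ 16 ≤ 2 ^ m := pow_le_pow_right₀ (by norm_num) h0
  rw [show (4 : ℝ) = 2 * 2 by norm_num, mul_pow] at h6
  nlinarith

theorem lower {A : Finset (ZMod p)} (hA : A.card = (p - 1) / 2) {J : ℕ} (hJ : 120 * 4 ^ (J + 1) ≤ p) :
    (J : ℝ) ≤ 8160 * ∑ r, ‖co A r‖ := by
  have h1 := sum_le_sum fun r (_ : r ∈ univ) => log_sum (a := 170 * ‖co A r‖) (by positivity) (J + 2)
  rw [sum_comm, sum_range_succ', sum_range_succ'] at h1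
  have h0 : ∀ k : ℕ, 0 ≤ ∑ r, Real.log (1 + (4 ^ k * (170 * ‖co A r‖)) ^ 2) / 4 ^ k := fun k =>
    sum_nonneg fun r _ => div_nonneg (Real.log_nonneg (le_add_of_nonneg_right (sq_nonneg _)))
      (by positivity)
  have h2 := sum_le_sum fun k (hk : k ∈ range J) => show (1 / 2 : ℝ) ≤
      ∑ r, Real.log (1 + (4 ^ (k + 1 + 1) * (170 * ‖co A r‖)) ^ 2) / 4 ^ (k + 1 + 1) by
    have := scale hA (m := 4 ^ (k + 1 + 1)) (Nat.pow_le_pow_right (n := 4) (by norm_num)
      (by omega : 2 ≤ _)) (le_trans (Nat.mul_le_mul_left _ (Nat.pow_le_pow_right (by norm_num)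
      (by have := mem_range.mp hk; omega))) hJ)
    push_cast at this
    rw [← sum_div, le_div_iff₀ (by positivity)]
    linarith
  simp only [sum_const, card_range, nsmul_eq_mul, ← mul_sum] at h1 h2
  linarith [h0 0, h0 (0 + 1)]

theorem upper : ∃ A : Finset (ZMod p), A.card = (p - 1) / 2 ∧ ∑ r, ‖co A r‖ ≤ 2 + Real.log p := by
  have hp0 : (0 : ℝ) < p := by exact_mod_cast hp.out.pos
  have hi : Set.InjOn (fun k : ℕ => (k : ZMod p)) (range ((p - 1) / 2)) := fun a ha b hb h => by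
    simp only [coe_range, Set.mem_Iio] at ha hb
    rw [← ZMod.val_cast_of_lt (show a < p by omega), ← ZMod.val_cast_of_lt (show b < p by omega)]
    exact congrArg ZMod.val h
  refine ⟨(range ((p - 1) / 2)).image fun k : ℕ => (k : ZMod p), by
    rw [card_image_of_injOn hi, card_range], ?_⟩
  have h1 : ∀ r : ZMod p, ‖co ((range ((p - 1) / 2)).image fun k : ℕ => (k : ZMod p)) r‖
      ≤ (if r.val = 0 then 1 else 0) + ((r.val : ℝ)⁻¹ + ((p - 1 - r.val : ℕ) + 1 : ℝ)⁻¹) / 2 := by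
    intro r
    have hr := r.val_lt
    rw [co, sum_image hi, norm_mul, norm_div, norm_one, Complex.norm_natCast, one_div,
      inv_mul_le_iff₀ hp0]
    split_ifs with h
    · refine (norm_sum_le _ _).trans ?_
      simp only [AddChar.norm_apply, sum_const, card_range, nsmul_one]
      exact le_trans (Nat.cast_le.mpr (by omega)) (le_mul_of_one_le_right hp0.le
        (le_add_of_nonneg_right (by positivity)))
    have h2 : (0 : ℝ) < r.val := by exact_mod_cast Nat.pos_of_ne_zero h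
    have h3 : (r.val : ℝ) < p := by exact_mod_cast hr
    have h4 : ((p - 1 - r.val : ℕ) + 1 : ℝ) = p - r.val := by
      rw [← Nat.cast_sub hr.le]; exact_mod_cast (by omega)
    have h5 : -r ≠ 0 := neg_ne_zero.mpr fun h' => h (by rw [h', ZMod.val_zero])
    simp only [← neg_mul, char_mul]
    rw [geom_sum_eq (char_ne_one h5), norm_div, h4, zero_add]
    obtain ⟨t, ht⟩ : ∃ t : ℝ, t = r.val / p := ⟨_, rfl⟩
    have t0 : 0 < t := by rw [ht]; positivity
    have t1 : t < 1 := by rw [ht, div_lt_one hp0]; exact h3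
    have h6 : ‖ψ (-r) - 1‖ = ‖2 * Real.sin (-(2 * (Real.pi * t)) / 2)‖ := by
      have := ZMod.stdAddChar_coe (N := p) (-(r.val : ℕ))
      push_cast at this
      rw [ZMod.natCast_zmod_val] at this
      rw [this, ← Complex.norm_exp_I_mul_ofReal_sub_one, ht]
      congr 3
      push_cast; ring
    have h7 : ∀ s : ℝ, 0 ≤ s → s ≤ 1 / 2 → 2 * s ≤ Real.sin (Real.pi * s) := fun s a b => by
      have := Real.mul_le_sin (x := Real.pi * s) (by positivity) (by nlinarith [Real.pi_pos])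
      rwa [← mul_assoc, div_mul_cancel₀ _ Real.pi_ne_zero] at this
    have h8 : 2 * t * (1 - t) ≤ Real.sin (Real.pi * t) := by
      rcases le_total t (1 / 2) with a | a
      · nlinarith [h7 t t0.le a]
      · have := h7 (1 - t) (by linarith) (by linarith)
        rw [mul_one_sub Real.pi, Real.sin_pi_sub] at this
        nlinarith
    have h9 : 0 < t * (1 - t) := mul_pos t0 (by linarith)
    rw [neg_div, mul_div_cancel_left₀ _ two_ne_zero, Real.sin_neg, Real.norm_eq_abs, mul_neg,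
      abs_neg, abs_of_pos (by linarith)] at h6
    refine (div_le_div₀ (c := 2) (d := 4 * (t * (1 - t))) (by norm_num) ((norm_sub_le _ _).trans ?_)
      (by linarith) (by linarith)).trans (le_of_eq ?_)
    · rw [norm_pow, AddChar.norm_apply]; norm_num
    · have : (p : ℝ) - r.val ≠ 0 := by linarith
      rw [ht]; field_simp; ring
  refine (sum_le_sum fun r _ => h1 r).trans ?_
  rw [sum_zmod fun k => (if k = 0 then 1 else 0) + ((k : ℝ)⁻¹ + ((p - 1 - k : ℕ) + 1 : ℝ)⁻¹) / 2,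
    sum_add_distrib, ← sum_div, sum_add_distrib, sum_range_reflect fun k : ℕ => ((k : ℝ) + 1)⁻¹]
  have h2 := harmonic_le_one_add_log p
  simp only [harmonic, Rat.cast_sum, Rat.cast_inv, Nat.cast_add, Nat.cast_one, Rat.cast_add,
    Rat.cast_natCast, Rat.cast_one] at h2
  have h3 := sum_range_succ' (fun k : ℕ => (k : ℝ)⁻¹) p
  rw [sum_range_succ] at h3
  simp only [Nat.cast_add, Nat.cast_one, Nat.cast_zero, inv_zero] at h3
  rw [sum_ite_eq', if_pos (mem_range.mpr hp.out.pos)]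
  linarith [inv_pos.mpr hp0]

end Pool.Agent.Lib.MP_cb7904_an.H16
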