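import Pool.Agent.Lib.MP_cb7904_an.H16Rank

/-!
If fresh rows often leave the span of the sampled rows, random minors have a large second moment.
-/

namespace Pool.Agent.Lib.MP_cb7904_an.H16

open Finset
open scoped BigOperators

variable {G : Type*} [AddCommGroup G] {F : G → ℤ} {m : ℕ}

/-- The square of a minor of the matrix `F (x + y)`. -/
def dsq (F : G → ℤ) (x y : Fin m → G) : ℝ := ((Matrix.of fun i j => F (x i + y j)).det : ℝ) ^ 2

lemma dsq_nonneg (x y : Fin m → G) : 0 ≤ dsq F x y := sq_nonneg _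

lemma dsq_perm (x y : Fin m → G) (σ τ : Equiv.Perm (Fin m)) :
    dsq F (x ∘ σ) (y ∘ τ) = dsq F x y := by
  have h : (Matrix.of fun i j => F ((x ∘ σ) i + (y ∘ τ) j))
      = ((Matrix.of fun i j => F (x i + y j)).submatrix σ id).submatrix id τ := rfl
  have h2 : ∀ σ : Equiv.Perm (Fin m), (((Equiv.Perm.sign σ : ℤˣ) : ℤ) : ℝ) ^ 2 = 1 := fun σ => by
    rcases Int.units_eq_one_or (Equiv.Perm.sign σ) with h | h <;> simp [h]
  rw [dsq, dsq, h, Matrix.det_permute', Matrix.det_permute]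
  simp only [Int.cast_id, Int.cast_mul, mul_pow, h2, one_mul]

lemma exists_minor {κ : Type} [Fintype κ] (x : Fin m → G) (Y : κ → G)
    (h : LinearIndependent ℚ (Matrix.of fun i j => (F (x i + Y j) : ℚ)).row) :
    ∃ b : Fin m → κ, Function.Injective b ∧ 1 ≤ dsq F x (Y ∘ b) := by
  set A := Matrix.of fun i j => (F (x i + Y j) : ℚ) with hA
  obtain ⟨κ', a, ha, h1, h2⟩ := exists_linearIndependent' ℚ A.col
  have := Fintype.ofInjective a ha
  have h3 := linearIndependent_iff_card_eq_finrank_span.mp h2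
  rw [Set.finrank, h1, ← Matrix.rank_eq_finrank_span_cols, h.rank_matrix] at h3
  let e := (Fintype.equivOfCardEq h3).symm
  refine ⟨a ∘ e, ha.comp e.injective, ?_⟩
  have h4 : IsUnit (A.submatrix id (a ∘ e)) :=
    Matrix.linearIndependent_cols_iff_isUnit.mp (h2.comp e e.injective)
  have h5 := ((Matrix.isUnit_iff_isUnit_det _).mp h4).ne_zero
  have h6 : (Matrix.of fun i j => F (x i + (Y ∘ a ∘ e) j)).det ≠ 0 := fun h => h5 (by
    have := Int.cast_det (R := ℚ) (Matrix.of fun i j => F (x i + (Y ∘ a ∘ e) j))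
    rw [h, Int.cast_zero] at this
    exact this.symm)
  rw [dsq]
  exact_mod_cast (one_le_sq_iff_one_le_abs _).mpr (Int.one_le_abs h6)

/-- Row `i` takes part in no linear relation. -/
def Co {ι κ : Type*} [Fintype ι] (F : G → ℤ) (Z : ι → G) (Y : κ → G) (i : ι) : Prop :=
  ∀ l : ι → ℚ, (∀ j, ∑ t, l t * F (Z t + Y j) = 0) → l i = 0

lemma many_minors {ι κ : Type} [Fintype ι] [DecidableEq ι] [Fintype κ] [DecidableEq κ]
    (Z : ι → G) (Y : κ → G) [DecidablePred (Co F Z Y)] (h : m ≤ Fintype.card {i // Co F Z Y i}) :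
    (m.factorial : ℝ) ^ 2 ≤ ∑ z : (Fin m ↪ ι) × (Fin m ↪ κ), dsq F (Z ∘ z.1) (Y ∘ z.2) := by
  obtain ⟨a⟩ := Function.Embedding.nonempty_of_card_le (α := Fin m) (β := {i // Co F Z Y i})
    (by simpa using h)
  let a' : Fin m ↪ ι := a.trans (Function.Embedding.subtype _)
  obtain ⟨b, hb, h1⟩ := exists_minor (F := F) (Z ∘ a') Y (Fintype.linearIndependent_iff.mpr
    fun g hg k => by
      have := (a k).2 (fun t => ∑ k, if a' k = t then g k else 0) fun j => by
        simp only [sum_mul, ite_mul, zero_mul]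
        rw [sum_comm]
        simpa using congrFun hg j
      simpa [show (a k).1 = a' k from rfl] using this)
  let e : Equiv.Perm (Fin m) × Equiv.Perm (Fin m) ↪ (Fin m ↪ ι) × (Fin m ↪ κ) :=
    ⟨fun s => (s.1.toEmbedding.trans a', s.2.toEmbedding.trans ⟨b, hb⟩), fun s t h => by
      simp only [Prod.mk.injEq, DFunLike.ext_iff] at h
      exact Prod.ext (Equiv.ext fun k => a'.injective (h.1 k)) (Equiv.ext fun k => hb (h.2 k))⟩
  refine le_trans ?_ (sum_le_univ_sum_of_nonneg (s := univ.map e) fun _ => dsq_nonneg _ _)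
  rw [sum_map]
  refine le_trans (le_of_eq ?_) (sum_le_sum fun s _ =>
    h1.trans (dsq_perm (Z ∘ a') (Y ∘ b) s.1 s.2).ge)
  simp [Fintype.card_perm, sq]

variable [Fintype G]

lemma del_le_co {K : ℕ} (i : Fin (K + 1)) : del (fun x => (F x : ℚ)) (Fin K) ≤
    pr fun z : (Fin (K + 1) → G) × (Fin K ⊕ Fin K → G) => Co F z.1 z.2 i := by
  rw [del, ← pr_hom (fun z : (Fin (K + 1) → G) × (Fin K ⊕ Fin K → G) =>
    ((fun k => z.1 (i.succAbove k) - z.1 i, fun j => z.2 (.inl j) + z.1 i,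
      fun j => z.2 (.inr j) + z.1 i) : (Fin K → G) × (Fin K → G) × (Fin K → G)))
    (fun a b => by ext <;> simp <;> abel)
    fun W => ⟨(Fin.insertNth i 0 W.1, Sum.elim W.2.1 W.2.2), by ext <;> simp⟩]
  refine pr_mono fun z h l hl => by_contra fun h0 => h ⟨fun k => -l (i.succAbove k) / l i, ?_⟩
  refine (rep_congr (x := z.1 i) (X := fun k => z.1 (i.succAbove k)) (Y := z.2) (z.1 i)
    (sub_self _).symm (fun _ => rfl) (by rintro (j | j) <;> rfl) _).mpr fun j => ?_
  have := hl j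
  rw [Fin.sum_univ_succAbove _ i] at this
  simp only [div_mul_eq_mul_div, ← sum_div, neg_mul, sum_neg_distrib]
  rw [eq_div_iff h0]
  linarith

theorem del_le (K m : ℕ) : (m.factorial : ℝ) ^ 2 * ((K + 1) * del (fun x => (F x : ℚ)) (Fin K) - m)
    ≤ (K + 1) * (((K + 1) * (2 * K)) ^ m * 𝔼 z : (Fin m → G) × (Fin m → G), dsq F z.1 z.2) := by
  classical
  set D := 𝔼 z : (Fin m → G) × (Fin m → G), dsq F z.1 z.2 with hD
  have h1 := sum_le_sum fun i (_ : i ∈ univ) => del_le_co (F := F) (K := K) i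
  simp only [pr, sum_const, card_univ, Fintype.card_fin, nsmul_eq_mul] at h1
  have h2 : ∀ z : (Fin (K + 1) → G) × (Fin K ⊕ Fin K → G),
      (m.factorial : ℝ) ^ 2 * (∑ i, ind (Co F z.1 z.2 i) - m) ≤ (K + 1) *
        ∑ s : (Fin m ↪ Fin (K + 1)) × (Fin m ↪ Fin K ⊕ Fin K), dsq F (z.1 ∘ s.1) (z.2 ∘ s.2) := by
    intro z
    rw [sum_ind]
    rcases le_total m (Fintype.card {i // Co F z.1 z.2 i}) with h | h
    · rw [mul_comm]
      refine mul_le_mul ?_ (many_minors z.1 z.2 h) (by positivity) (by positivity)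
      have : (Fintype.card {i // Co F z.1 z.2 i} : ℝ) ≤ (K + 1 : ℕ) := by
        exact_mod_cast (Fintype.card_subtype_le _).trans (Fintype.card_fin _).le
      push_cast at this
      linarith [(m.cast_nonneg : (0 : ℝ) ≤ m)]
    · exact (mul_nonpos_of_nonneg_of_nonpos (by positivity) (sub_nonpos.mpr (by exact_mod_cast h))).trans
        (mul_nonneg (by positivity) (sum_nonneg fun _ _ => dsq_nonneg _ _))
  have h3 := expect_le_expect fun z (_ : z ∈ univ) => h2 z
  rw [← mul_expect, ← mul_expect, expect_sub_distrib, Fintype.expect_const, expect_sum_comm,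
    expect_sum_comm] at h3
  have h4 : ∀ s : (Fin m ↪ Fin (K + 1)) × (Fin m ↪ Fin K ⊕ Fin K),
      𝔼 z : (Fin (K + 1) → G) × (Fin K ⊕ Fin K → G), dsq F (z.1 ∘ s.1) (z.2 ∘ s.2) = D := fun s =>
    ex_hom (fun z : (Fin (K + 1) → G) × (Fin K ⊕ Fin K → G) => (z.1 ∘ s.1, z.2 ∘ s.2))
      (fun _ _ => rfl) (fun W => ⟨(Function.extend s.1 W.1 0, Function.extend s.2 W.2 0),
        Prod.ext (Function.extend_comp s.1.injective _ _) (Function.extend_comp s.2.injective _ _)⟩)
      fun z => dsq F z.1 z.2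
  rw [sum_congr rfl fun s _ => h4 s] at h3
  simp only [sum_const, card_univ, Fintype.card_prod, Fintype.card_embedding_eq,
    Fintype.card_fin, Fintype.card_sum, nsmul_eq_mul] at h3
  have h5 : (((K + 1).descFactorial m * (K + K).descFactorial m : ℕ) : ℝ)
      ≤ ((K + 1) * (2 * K)) ^ m := by
    rw [mul_pow, two_mul]
    exact_mod_cast Nat.mul_le_mul (Nat.descFactorial_le_pow _ _) (Nat.descFactorial_le_pow _ _)
  push_cast at h1
  refine le_trans (mul_le_mul_of_nonneg_left (by linarith) (by positivity)) (h3.trans ?_)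
  exact mul_le_mul_of_nonneg_left (mul_le_mul_of_nonneg_right h5
    (expect_nonneg fun _ _ => dsq_nonneg _ _)) (by positivity)

end Pool.Agent.Lib.MP_cb7904_an.H16
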