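import Mathlib

/-!
Uniform probability on finite types.
-/

namespace Pool.Agent.Lib.MP_cb7904_an.H16

open Finset
open scoped BigOperators

open Classical in
/-- The indicator of a proposition. -/
noncomputable def ind (P : Prop) : ℝ := if P then 1 else 0

/-- The probability of an event under the uniform distribution. -/
noncomputable def pr {Ω : Type*} [Fintype Ω] (E : Ω → Prop) : ℝ := 𝔼 ω, ind (E ω)

lemma ind_pos {P : Prop} (h : P) : ind P = 1 := if_pos h
lemma ind_neg {P : Prop} (h : ¬P) : ind P = 0 := if_neg h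
lemma ind_nonneg (P : Prop) : 0 ≤ ind P := by unfold ind; split_ifs <;> norm_num
lemma ind_le_one (P : Prop) : ind P ≤ 1 := by unfold ind; split_ifs <;> norm_num

lemma ind_le {P : Prop} {a : ℝ} (h0 : 0 ≤ a) (h : P → 1 ≤ a) : ind P ≤ a := by
  by_cases hP : P
  · rw [ind_pos hP]; exact h hP
  · rwa [ind_neg hP]

lemma sum_ind {α : Type*} [Fintype α] (P : α → Prop) [DecidablePred P] :
    ∑ a, ind (P a) = Fintype.card {a // P a} := by
  rw [Fintype.card_subtype, card_filter]
  push_cast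
  exact sum_congr rfl fun a _ => by unfold ind; congr

variable {Ω Ω' : Type*} [Fintype Ω] [Fintype Ω'] {E F H : Ω → Prop}

lemma pr_nonneg (E : Ω → Prop) : 0 ≤ pr E := expect_nonneg fun _ _ => ind_nonneg _

lemma pr_mono (h : ∀ ω, E ω → F ω) : pr E ≤ pr F :=
  expect_le_expect fun ω _ => ind_le (ind_nonneg _) fun a => (ind_pos (h ω a)).ge

lemma pr_le_add (h : ∀ ω, E ω → F ω ∨ H ω) : pr E ≤ pr F + pr H := by
  rw [pr, pr, pr, ← expect_add_distrib]
  refine expect_le_expect fun ω _ => ind_le (add_nonneg (ind_nonneg _) (ind_nonneg _)) fun a => ?_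
  rcases h ω a with b | b <;> rw [ind_pos b] <;> linarith [ind_nonneg (F ω), ind_nonneg (H ω)]

lemma pr_true [Nonempty Ω] : pr (fun _ : Ω => True) = 1 := by
  simp only [pr, ind_pos trivial, Fintype.expect_const]

lemma pr_false (h : ∀ ω, ¬E ω) : pr E = 0 := by
  simp only [pr, ind_neg (h _), expect_const_zero]

lemma pr_prod (E : Ω → Ω' → Prop) : pr (fun z : Ω × Ω' => E z.1 z.2) = 𝔼 ω, pr (E ω) := by
  rw [pr, ← univ_product_univ, expect_product' _ _ fun a b => ind (E a b)]; rfl

lemma markov {g : Ω → ℝ} (h0 : ∀ ω, 0 ≤ g ω) : pr (fun ω => 1 / 5 < g ω) ≤ 5 * 𝔼 ω, g ω := by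
  rw [mul_expect]
  exact expect_le_expect fun ω _ => ind_le (by linarith [h0 ω]) fun a => by linarith

lemma ex_shift {A M : Type*} [Fintype A] [AddGroup A] [AddCommMonoid M] [Module ℚ≥0 M] (c : A)
    (g : A → M) : 𝔼 a, g (a + c) = 𝔼 a, g a :=
  Fintype.expect_equiv (Equiv.addRight c) _ _ fun _ => rfl

lemma ex_hom {A B M : Type*} [Fintype A] [Fintype B] [AddCommGroup A] [AddCommGroup B]
    [AddCommMonoid M] [Module ℚ≥0 M] (φ : A → B) (h : ∀ a b, φ (a + b) = φ a + φ b)
    (hs : Function.Surjective φ) (g : B → M) : 𝔼 a, g (φ a) = 𝔼 b, g b := by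
  choose s hs using hs
  calc _ = 𝔼 b : B, 𝔼 a, g (φ (a + s b)) := by
        simp only [ex_shift _ fun a => g (φ a), Fintype.expect_const]
    _ = 𝔼 a, 𝔼 b, g (b + φ a) := by
        rw [expect_comm]; simp only [h, hs, add_comm]
    _ = _ := by simp only [ex_shift, Fintype.expect_const]

lemma pr_hom {A B : Type*} [Fintype A] [Fintype B] [AddCommGroup A] [AddCommGroup B]
    (φ : A → B) (h : ∀ a b, φ (a + b) = φ a + φ b) (hs : Function.Surjective φ) (E : B → Prop) :
    pr (fun a => E (φ a)) = pr E := ex_hom φ h hs fun b => ind (E b)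

lemma pr_shift {A : Type*} [Fintype A] [AddGroup A] (c : A) (E : A → Prop) :
    pr (fun a => E (a + c)) = pr E := ex_shift c fun b => ind (E b)

end Pool.Agent.Lib.MP_cb7904_an.H16
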