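import Pool.Agent.Lib.MP_cb7904_an.H16Prob

/-!
Self-correction: if a fresh row of the matrix `f (x + y)` usually lies in the span of a few random
rows, then `f` is close to a function `g` whose translates satisfy a nontrivial linear relation.
-/

namespace Pool.Agent.Lib.MP_cb7904_an.H16

open Finset
open scoped BigOperators

variable {G : Type*} [AddCommGroup G] {ι κ : Type*} [Fintype ι] {f : G → ℚ}

/-- On the columns `Y`, the row `x` is the combination `l` of the rows `X`. -/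
def Rep (f : G → ℚ) (x : G) (X : ι → G) (Y : κ → G) (l : ι → ℚ) : Prop :=
  ∀ j, f (x + Y j) = ∑ i, l i * f (X i + Y j)

/-- On the columns `Y`, the row `x` lies in the span of the rows `X`. -/
def Sp (f : G → ℚ) (x : G) (X : ι → G) (Y : κ → G) : Prop := ∃ l, Rep f x X Y l

/-- The sample `W` predicts the value `v` for the entry `(x, y)`. -/
def Pred (f : G → ℚ) (x y : G) (W : (ι → G) × (ι → G)) (v : ℚ) : Prop :=
  Sp f y W.2 W.1 ∧ ∃ l, Rep f x W.1 W.2 l ∧ ∑ i, l i * f (W.1 i + y) = v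

lemma Rep.swap [Fintype κ] {x y : G} {X : ι → G} {Y : κ → G} {l : ι → ℚ} {m : κ → ℚ}
    (hl : Rep f x X Y l) (hm : Rep f y Y X m) :
    ∑ i, l i * f (X i + y) = ∑ j, m j * f (x + Y j) := by
  simp only [add_comm _ y, hm _, hl _, mul_sum]
  rw [sum_comm]
  exact sum_congr rfl fun j _ => sum_congr rfl fun i _ => by rw [add_comm (Y j)]; ring

lemma Pred.unique {x y : G} {W : (ι → G) × (ι → G)} {v v' : ℚ} (h : Pred f x y W v)
    (h' : Pred f x y W v') : v = v' := by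
  obtain ⟨⟨m, hm⟩, l, hl, rfl⟩ := h
  obtain ⟨-, l', hl', rfl⟩ := h'
  rw [hl.swap hm, hl'.swap hm]

lemma Rep.pred {x y : G} {X Y : ι → G} {W : (ι → G) × (ι → G)} {l : ι → ℚ} (hl : Rep f x X Y l)
    (h1 : Sp f x W.1 (Sum.elim Y W.2)) (h2 : Sp f y Y (Sum.elim X W.1)) (h3 : Sp f y W.2 W.1) :
    Pred f x y W (∑ i, l i * f (X i + y)) := by
  obtain ⟨l', h1⟩ := h1
  obtain ⟨m, h2⟩ := h2
  refine ⟨h3, l', fun j => h1 (.inr j), ?_⟩
  rw [hl.swap fun j => h2 (.inl j),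
    Rep.swap (x := x) (X := W.1) (Y := Y) (fun j => h1 (.inl j)) fun j => h2 (.inr j)]

lemma rep_congr {x x' : G} {X X' : ι → G} {Y Y' : κ → G} (c : G) (h0 : x' = x - c)
    (h1 : ∀ i, X' i = X i - c) (h2 : ∀ j, Y' j = Y j + c) (l : ι → ℚ) :
    Rep f x' X' Y' l ↔ Rep f x X Y l := by
  simp only [Rep, h0, h1, h2, sub_add_add_cancel]

variable [Fintype G] [DecidableEq ι]

/-- The probability that a fixed row is not in the span of random rows. -/
noncomputable def del (f : G → ℚ) (ι : Type*) [Fintype ι] [DecidableEq ι] : ℝ :=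
  pr fun z : (ι → G) × (ι → G) × (ι → G) => ¬Sp f 0 z.1 (Sum.elim z.2.1 z.2.2)

lemma del_eq (x : G) :
    pr (fun z : (ι → G) × (ι → G) × (ι → G) => ¬Sp f x z.1 (Sum.elim z.2.1 z.2.2)) = del f ι := by
  refine Eq.trans ?_ (pr_shift ((fun _ => -x, fun _ => x, fun _ => x)) _)
  refine congrArg pr (funext fun z => propext (not_congr (exists_congr fun l =>
    (rep_congr x (sub_self x).symm (fun i => (sub_eq_add_neg _ _).symm) ?_ l).symm)))
  rintro (j | j) <;> rfl

lemma sp_le (x : G) : pr (fun W : (ι → G) × (ι → G) => ¬Sp f x W.1 W.2) ≤ del f ι := by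
  rw [← del_eq x, ← pr_hom (fun z : (ι → G) × (ι → G) × (ι → G) => (z.1, z.2.1)) (fun _ _ => rfl)
    fun W => ⟨(W.1, W.2, 0), rfl⟩]
  exact pr_mono fun z h ⟨l, hl⟩ => h ⟨l, fun j => hl (.inl j)⟩

/-- `v` is the majority prediction at `z`. -/
def Maj (f : G → ℚ) (ι : Type*) [Fintype ι] [DecidableEq ι] (z : G) (v : ℚ) : Prop :=
  pr (fun W : (ι → G) × (ι → G) => ¬Pred f 0 z W v) < 1 / 2

lemma Maj.unique {z : G} {v v' : ℚ} (h : Maj f ι z v) (h' : Maj f ι z v') : v = v' := by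
  by_contra hc
  have := pr_le_add (E := fun _ : (ι → G) × (ι → G) => True) (F := fun W => ¬Pred f 0 z W v)
    (H := fun W => ¬Pred f 0 z W v') fun W _ => by
      by_contra h1
      rw [not_or, not_not, not_not] at h1
      exact hc (h1.1.unique h1.2)
  rw [pr_true] at this
  unfold Maj at h h'
  linarith

/-- A bad row. -/
def BadR (f : G → ℚ) (x : G) (V : (ι → G) × (ι → G)) : Prop :=
  ¬Sp f x V.1 V.2 ∨ 1 / 5 < pr fun W : (ι → G) × (ι → G) => ¬Sp f x W.1 (Sum.elim V.2 W.2)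

/-- A bad column. -/
def BadC (f : G → ℚ) (y : G) (V : (ι → G) × (ι → G)) : Prop :=
  1 / 5 < pr fun W : (ι → G) × (ι → G) => ¬Sp f y V.2 (Sum.elim V.1 W.1)

lemma badR_le (x : G) : pr (BadR (ι := ι) f x) ≤ 6 * del f ι := by
  have h1 := markov (g := fun V : (ι → G) × (ι → G) =>
    pr fun W : (ι → G) × (ι → G) => ¬Sp f x W.1 (Sum.elim V.2 W.2)) fun _ => pr_nonneg _
  rw [← pr_prod, pr_hom (fun z : ((ι → G) × (ι → G)) × (ι → G) × (ι → G) => (z.2.1, z.1.2, z.2.2))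
    (fun _ _ => rfl) (fun z => ⟨((0, z.2.1), z.1, z.2.2), rfl⟩)
    (fun z => ¬Sp f x z.1 (Sum.elim z.2.1 z.2.2)), del_eq] at h1
  linarith [sp_le (f := f) (ι := ι) x, pr_le_add (E := BadR (ι := ι) f x) fun _ h => h]

lemma badC_le (y : G) : pr (BadC (ι := ι) f y) ≤ 5 * del f ι := by
  have h1 := markov (g := fun V : (ι → G) × (ι → G) =>
    pr fun W : (ι → G) × (ι → G) => ¬Sp f y V.2 (Sum.elim V.1 W.1)) fun _ => pr_nonneg _
  rwa [← pr_prod, pr_hom (fun z : ((ι → G) × (ι → G)) × (ι → G) × (ι → G) => (z.1.2, z.1.1, z.2.1))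
    (fun _ _ => rfl) (fun z => ⟨((z.2.1, z.1), z.2.2, 0), rfl⟩)
    (fun z => ¬Sp f y z.1 (Sum.elim z.2.1 z.2.2)), del_eq] at h1

lemma good_maj (hd : del f ι < 1 / 10) {x y : G} {V : (ι → G) × (ι → G)} {l : ι → ℚ}
    (hl : Rep f x V.1 V.2 l) (hx : ¬BadR f x V) (hy : ¬BadC f y V) :
    Maj f ι (x + y) (∑ i, l i * f (V.1 i + y)) := by
  set v := ∑ i, l i * f (V.1 i + y)
  have h1 : pr (fun W : (ι → G) × (ι → G) => ¬Pred f 0 (x + y) W v)
      ≤ pr fun W : (ι → G) × (ι → G) => ¬Pred f x y W v := by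
    rw [← pr_shift ((fun _ => -x, fun _ => x) : (ι → G) × (ι → G))]
    refine pr_mono fun W h ⟨⟨m, h2⟩, l', h3, h4⟩ => h ⟨⟨m, ?_⟩, l', ?_, ?_⟩
    · exact (rep_congr (-x) (by abel) (fun i => (sub_neg_eq_add _ _).symm) (fun _ => rfl) m).mpr h2
    · exact (rep_congr x (sub_self x).symm (fun i => (sub_eq_add_neg _ _).symm) (fun _ => rfl)
        l').mpr h3
    · rw [← h4]
      exact sum_congr rfl fun i _ => by
        rw [show (W + ((fun _ => -x, fun _ => x) : (ι → G) × (ι → G))).1 i = W.1 i + -x from rfl,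
          add_assoc, neg_add_cancel_left]
  have h2 := pr_le_add (E := fun W : (ι → G) × (ι → G) => ¬Pred f x y W v)
    (F := fun W => ¬Sp f x W.1 (Sum.elim V.2 W.2))
    (H := fun W => ¬Sp f y V.2 (Sum.elim V.1 W.1) ∨ ¬Sp f y W.2 W.1) fun W h => by
      by_contra h1
      simp only [not_or, not_not] at h1
      exact h (hl.pred h1.1 h1.2.1 h1.2.2)
  have h3 := pr_le_add (E := fun W : (ι → G) × (ι → G) =>
    ¬Sp f y V.2 (Sum.elim V.1 W.1) ∨ ¬Sp f y W.2 W.1) fun _ h => h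
  have h4 := sp_le (f := f) (ι := ι) y
  rw [← pr_hom (fun z : (ι → G) × (ι → G) => (z.2, z.1)) (fun _ _ => rfl)
    fun W => ⟨(W.2, W.1), rfl⟩] at h4
  rw [BadR, not_or, not_lt] at hx
  rw [BadC, not_lt] at hy
  unfold Maj
  linarith [hx.2]

theorem self_correct [Nonempty ι] (hd : del f ι < 1 / 10)
    (hK : Fintype.card ι + 1 + 11 * del f ι * Fintype.card G < Fintype.card G) :
    ∃ g w : G → ℚ, w ≠ 0 ∧ w 0 = 0 ∧ (∀ x, ∑ y, w y * g (x + y) = 0) ∧
      pr (fun z => f z ≠ g z) ≤ 12 * del f ι := by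
  classical
  obtain ⟨g, hg⟩ : ∃ g : G → ℚ, ∀ z v, Maj f ι z v → g z = v :=
    ⟨fun z => if h : ∃ v, Maj f ι z v then h.choose else 0, fun z v h => by
      simp only [dif_pos (⟨v, h⟩ : ∃ v, Maj f ι z v)]
      exact (Exists.choose_spec (⟨v, h⟩ : ∃ v, Maj f ι z v)).unique h⟩
  obtain ⟨V, -, hV⟩ := exists_le_of_expect_le (s := (univ : Finset ((ι → G) × (ι → G))))
    (f := fun V => ∑ x, ind (BadR f x V) + ∑ y, ind (BadC f y V))
    (a := 11 * del f ι * Fintype.card G) univ_nonempty (by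
      rw [expect_add_distrib, expect_sum_comm, expect_sum_comm]
      have h1 := sum_le_sum fun x (_ : x ∈ univ) => badR_le (f := f) (ι := ι) x
      have h2 := sum_le_sum fun x (_ : x ∈ univ) => badC_le (f := f) (ι := ι) x
      simp only [sum_const, card_univ, nsmul_eq_mul, pr] at h1 h2
      linarith)
  rw [sum_ind, sum_ind] at hV
  let M : Matrix ((ι ⊕ Unit) ⊕ {x // BadR f x V} ⊕ {y // BadC f y V}) G ℚ := Matrix.of
    (Sum.elim (Sum.elim (fun i y => f (V.1 i + y)) fun _ y => if y = 0 then 1 else 0)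
      (Sum.elim (fun x y => g (x + y)) fun c y => if y = c then 1 else 0))
  obtain ⟨w, hw, hw0⟩ := (Submodule.ne_bot_iff _).mp (M.mulVecLin.ker_ne_bot_of_finrank_lt (by
    simp only [Module.finrank_fintype_fun_eq_card, Fintype.card_sum, Fintype.card_unit]
    exact_mod_cast (by push_cast; linarith : ((Fintype.card ι + 1 + (Fintype.card {x // BadR f x V}
      + Fintype.card {y // BadC f y V}) : ℕ) : ℝ) < Fintype.card G)))
  replace hw : ∀ t, ∑ y, M t y * w y = 0 := fun t => congrFun (LinearMap.mem_ker.mp hw) t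
  refine ⟨g, w, hw0, by simpa [M] using hw (.inl (.inr ())), fun x => ?_, ?_⟩
  · by_cases hx : BadR f x V
    · simpa [M, mul_comm] using hw (.inr (.inl ⟨x, hx⟩))
    obtain ⟨l, hl⟩ := not_not.mp (not_or.mp hx).1
    have h1 : ∀ y, w y * g (x + y) = ∑ i, l i * (f (V.1 i + y) * w y) := fun y => by
      by_cases hy : BadC f y V
      · have : w y = 0 := by simpa [M] using hw (.inr (.inr ⟨y, hy⟩))
        simp [this]
      · rw [hg _ _ (good_maj hd hl hx hy), mul_sum]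
        exact sum_congr rfl fun i _ => by ring
    simp only [h1]
    rw [sum_comm]
    refine sum_eq_zero fun i _ => ?_
    rw [← mul_sum, show ∑ y, f (V.1 i + y) * w y = 0 from hw (.inl (.inl i)), mul_zero]
  obtain ⟨j⟩ := ‹Nonempty ι›
  rw [← pr_hom (fun z : (ι → G) × (ι → G) × (ι → G) => z.1 j) (fun _ _ => rfl)
    fun z => ⟨(fun _ => z, 0), rfl⟩]
  have h1 := pr_le_add (E := fun z : (ι → G) × (ι → G) × (ι → G) => f (z.1 j) ≠ g (z.1 j))
    (F := fun z => ¬Sp f 0 z.2.1 (Sum.elim z.2.2 z.1))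
    (H := fun z => BadR f 0 z.2 ∨ BadC f (z.1 j) z.2) fun z h => by
      by_contra h1
      simp only [not_or, not_not] at h1
      obtain ⟨⟨l, hl⟩, h2, h3⟩ := h1
      have := hg _ _ (good_maj hd (fun j => hl (.inl j)) h2 h3)
      rw [zero_add] at this
      exact h (by simpa [this] using hl (.inr j))
  have h2 := pr_le_add (E := fun z : (ι → G) × (ι → G) × (ι → G) =>
    BadR f 0 z.2 ∨ BadC f (z.1 j) z.2) fun _ h => h
  rw [pr_hom (fun z : (ι → G) × (ι → G) × (ι → G) => (z.2.1, z.2.2, z.1)) (fun _ _ => rfl)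
    (fun z => ⟨(z.2.2, z.1, z.2.1), rfl⟩) (fun z => ¬Sp f 0 z.1 (Sum.elim z.2.1 z.2.2)),
    del_eq] at h1
  rw [pr_hom (fun z : (ι → G) × (ι → G) × (ι → G) => z.2) (fun _ _ => rfl)
    (fun z => ⟨(0, z), rfl⟩) (BadR f 0), pr_prod fun (a : ι → G) V => BadC f (a j) V] at h2
  have h3 := expect_le (s := (univ : Finset (ι → G))) univ_nonempty
    fun a _ => badC_le (f := f) (ι := ι) (a j)
  linarith [badR_le (f := f) (ι := ι) 0]

end Pool.Agent.Lib.MP_cb7904_an.H16
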