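import Pool.Agent.Lib.MP_cb7904_an.H16Main

/-!
The logarithmic lower bound for every integer-valued function on the residues modulo a prime: the
test column of the self-correction argument may be chosen as a function of the fresh sample.
-/

namespace Pool.Agent.Lib.MP_cb7904_an.H16

open Finset
open scoped BigOperators

section
variable {G : Type*} [AddCommGroup G] {ι : Type*} [Fintype ι] {f : G → ℚ}
variable [Fintype G] [DecidableEq ι]

theorem self_correct_all [Nonempty ι] (hd : del f ι < 1 / 10)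
    (hK : Fintype.card ι + 1 + 11 * del f ι * Fintype.card G < Fintype.card G) :
    ∃ g w : G → ℚ, w ≠ 0 ∧ w 0 = 0 ∧ (∀ x, ∑ y, w y * g (x + y) = 0) ∧
      pr (fun a : ι → G => ∃ j, f (a j) ≠ g (a j)) ≤ 12 * del f ι := by
  classical
  obtain ⟨g, hg⟩ : ∃ g : G → ℚ, ∀ z v, Maj f ι z v → g z = v :=
    ⟨fun z => if h : ∃ v, Maj f ι z v then h.choose else 0, fun z v h => by
      simp only [dif_pos (⟨v, h⟩ : ∃ v, Maj f ι z v)]
      exact (Exists.choose_spec (⟨v, h⟩ : ∃ v, Maj f ι z v)).unique h⟩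
  obtain ⟨V, -, hV⟩ := exists_le_of_expect_le (s := (univ : Finset ((ι → G) × (ι → G))))
    (f := fun V => ∑ x, ind (BadR f x V) + ∑ y, ind (BadC f y V))
    (a := 11 * del f ι * Fintype.card G) univ_nonempty (by
      rw [expect_add_distrib, expect_sum_comm, expect_sum_comm]
      have h1 := sum_le_sum fun x (_ : x ∈ univ) => badR_le (f := f) (ι := ι) x
      have h2 := sum_le_sum fun x (_ : x ∈ univ) => badC_le (f := f) (ι := ι) x
      simp only [sum_const, card_univ, nsmul_eq_mul, pr] at h1 h2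
      linarith)
  rw [sum_ind, sum_ind] at hV
  let M : Matrix ((ι ⊕ Unit) ⊕ {x // BadR f x V} ⊕ {y // BadC f y V}) G ℚ := Matrix.of
    (Sum.elim (Sum.elim (fun i y => f (V.1 i + y)) fun _ y => if y = 0 then 1 else 0)
      (Sum.elim (fun x y => g (x + y)) fun c y => if y = c then 1 else 0))
  obtain ⟨w, hw, hw0⟩ := (Submodule.ne_bot_iff _).mp (M.mulVecLin.ker_ne_bot_of_finrank_lt (by
    simp only [Module.finrank_fintype_fun_eq_card, Fintype.card_sum, Fintype.card_unit]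
    exact_mod_cast (by push_cast; linarith : ((Fintype.card ι + 1 + (Fintype.card {x // BadR f x V}
      + Fintype.card {y // BadC f y V}) : ℕ) : ℝ) < Fintype.card G)))
  replace hw : ∀ t, ∑ y, M t y * w y = 0 := fun t => congrFun (LinearMap.mem_ker.mp hw) t
  refine ⟨g, w, hw0, by simpa [M] using hw (.inl (.inr ())), fun x => ?_, ?_⟩
  · by_cases hx : BadR f x V
    · simpa [M, mul_comm] using hw (.inr (.inl ⟨x, hx⟩))
    obtain ⟨l, hl⟩ := not_not.mp (not_or.mp hx).1
    have h1 : ∀ y, w y * g (x + y) = ∑ i, l i * (f (V.1 i + y) * w y) := fun y => by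
      by_cases hy : BadC f y V
      · have : w y = 0 := by simpa [M] using hw (.inr (.inr ⟨y, hy⟩))
        simp [this]
      · rw [hg _ _ (good_maj hd hl hx hy), mul_sum]
        exact sum_congr rfl fun i _ => by ring
    simp only [h1]
    rw [sum_comm]
    refine sum_eq_zero fun i _ => ?_
    rw [← mul_sum, show ∑ y, f (V.1 i + y) * w y = 0 from hw (.inl (.inl i)), mul_zero]
  obtain ⟨j₀⟩ := ‹Nonempty ι›
  obtain ⟨s, hs⟩ : ∃ s : (ι → G) → ι, ∀ a : ι → G,
      (∃ j, f (a j) ≠ g (a j)) → f (a (s a)) ≠ g (a (s a)) :=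
    ⟨fun a => if h : ∃ j, f (a j) ≠ g (a j) then h.choose else j₀, fun a h => by
      simp only [dif_pos h]
      exact h.choose_spec⟩
  rw [← pr_hom (fun z : (ι → G) × (ι → G) × (ι → G) => z.1) (fun _ _ => rfl)
    fun z => ⟨(z, 0), rfl⟩]
  have h1 := pr_le_add (E := fun z : (ι → G) × (ι → G) × (ι → G) => ∃ j, f (z.1 j) ≠ g (z.1 j))
    (F := fun z => ¬Sp f 0 z.2.1 (Sum.elim z.2.2 z.1))
    (H := fun z => BadR f 0 z.2 ∨ BadC f (z.1 (s z.1)) z.2) fun z h => by
      by_contra h1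
      simp only [not_or, not_not] at h1
      obtain ⟨⟨l, hl⟩, h2, h3⟩ := h1
      have := hg _ _ (good_maj hd (fun j => hl (.inl j)) h2 h3)
      rw [zero_add] at this
      exact hs z.1 h (by simpa [this] using hl (.inr (s z.1)))
  have h2 := pr_le_add (E := fun z : (ι → G) × (ι → G) × (ι → G) =>
    BadR f 0 z.2 ∨ BadC f (z.1 (s z.1)) z.2) fun _ h => h
  rw [pr_hom (fun z : (ι → G) × (ι → G) × (ι → G) => (z.2.1, z.2.2, z.1)) (fun _ _ => rfl)
    (fun z => ⟨(z.2.2, z.1, z.2.1), rfl⟩) (fun z => ¬Sp f 0 z.1 (Sum.elim z.2.1 z.2.2)),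
    del_eq] at h1
  rw [pr_hom (fun z : (ι → G) × (ι → G) × (ι → G) => z.2) (fun _ _ => rfl)
    (fun z => ⟨(0, z), rfl⟩) (BadR f 0), pr_prod fun (a : ι → G) V => BadC f (a (s a)) V] at h2
  have h3 := expect_le (s := (univ : Finset (ι → G))) univ_nonempty
    fun a _ => badC_le (f := f) (ι := ι) (a (s a))
  linarith [badR_le (f := f) (ι := ι) 0]

omit [AddCommGroup G] in
lemma pr_all [Nonempty G] (B : Finset G) :
    pr (fun a : ι → G => ∀ j, a j ∈ B) = ((B.card : ℝ) / Fintype.card G) ^ Fintype.card ι := by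
  classical
  rw [pr, Fintype.expect_eq_sum_div_card, sum_ind, Fintype.card_subtype, div_pow]
  have : (univ.filter fun a : ι → G => ∀ j, a j ∈ B) = Fintype.piFinset fun _ => B := by
    ext a; simp
  rw [this, Fintype.card_piFinset]
  simp

end

variable {p : ℕ} [hp : Fact p.Prime]

/-- The Fourier coefficients of an integer-valued function. -/
noncomputable def cz (F : ZMod p → ℤ) (r : ZMod p) : ℂ :=
  (1 / p : ℂ) * ∑ x, (F x : ℂ) * ψ (-(r * x))

lemma inversion_cz (F : ZMod p → ℤ) (y : ZMod p) : (F y : ℂ) = ∑ r, cz F r * ψ (r * y) := by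
  have hc : (p : ℂ) ≠ 0 := Nat.cast_ne_zero.mpr hp.out.ne_zero
  simp only [cz, mul_assoc, sum_mul, ← mul_sum, ← AddChar.map_add_eq_mul]
  rw [sum_comm]
  have b3 : ∀ x, ∑ r : ZMod p, ψ (-(r * x) + r * y) = if y = x then (p : ℂ) else 0 := fun x => by
    have := AddChar.sum_mulShift (y - x) (ZMod.isPrimitive_stdAddChar p)
    simp only [sub_eq_zero, ZMod.card, Nat.cast_ite, Nat.cast_zero] at this
    rw [← this]
    exact sum_congr rfl fun r _ => by congr 1; ring
  simp only [← mul_sum, b3, mul_ite, mul_zero, sum_ite_eq, mem_univ, if_true]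
  field_simp

lemma del_ge_all {F : ZMod p → ℤ} {n : ℕ} (hF : ∀ k : ℤ, n ≤ (univ.filter fun x => F x ≠ k).card)
    {K : ℕ} (hn : p ≤ n * K) (hK : 2 * (K + 1) ≤ p) :
    1 / 30 ≤ del (fun x => (F x : ℚ)) (Fin K) := by
  by_contra hc
  rw [not_le] at hc
  have hp1 := hp.out.pos
  have h0 : 0 < K := Nat.pos_of_ne_zero fun h => by subst h; omega
  have : Nonempty (Fin K) := ⟨⟨0, h0⟩⟩
  have hp0 : (0 : ℝ) < p := by exact_mod_cast hp1
  have hK' : 2 * (K + 1 : ℝ) ≤ p := by exact_mod_cast hK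
  obtain ⟨g, w, h1, h2, h3, h4⟩ := self_correct_all (hc.trans (by norm_num)) (by
    rw [ZMod.card, Fintype.card_fin]; nlinarith)
  simp only [const_of_rel h1 h2 h3] at h4
  set B := univ.filter fun x : ZMod p => (F x : ℚ) = g 0 with hB
  have h5 : B.card + n ≤ p := by
    rcases B.eq_empty_or_nonempty with h | ⟨x, hx⟩
    · have := (hF 0).trans (card_le_univ _)
      rw [ZMod.card] at this
      simpa [h] using this
    · have h6 := card_filter_add_card_filter_not (s := (univ : Finset (ZMod p)))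
        fun y => F y = F x
      rw [card_univ, ZMod.card] at h6
      have h7 : B = univ.filter fun y => F y = F x := by
        ext y
        simp only [hB, mem_filter, mem_univ, true_and] at hx ⊢
        rw [← hx, Int.cast_inj]
      have := hF (F x)
      rw [h7]
      simp only [ne_eq] at this
      omega
  have h6 := pr_le_add (E := fun _ : Fin K → ZMod p => True)
    (F := fun a => ∃ j, (F (a j) : ℚ) ≠ g 0) (H := fun a => ∀ j, a j ∈ B) fun a _ => by
      by_contra h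
      simp only [not_or, not_exists, not_not, not_forall] at h
      obtain ⟨j, hj⟩ := h.2
      exact hj (by simp [hB, h.1 j])
  rw [pr_true, pr_all, ZMod.card, Fintype.card_fin] at h6
  obtain ⟨t, ht⟩ : ∃ t : ℝ, t = n / p := ⟨_, rfl⟩
  have t0 : 0 ≤ t := by rw [ht]; positivity
  have t1 : (B.card : ℝ) / p ≤ 1 - t := by
    rw [ht, le_sub_iff_add_le, ← add_div, div_le_one hp0]
    exact_mod_cast h5
  have t2 : 1 ≤ K * t := by
    rw [ht, ← mul_div_assoc, le_div_iff₀ hp0, one_mul, mul_comm]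
    exact_mod_cast hn
  have t3 : (0 : ℝ) ≤ B.card / p := by positivity
  have t4 := one_add_mul_le_pow (show -2 ≤ t by linarith) K
  have t5 : ((B.card : ℝ) / p) ^ K * (1 + t) ^ K ≤ 1 := by
    rw [← mul_pow]
    exact pow_le_one₀ (by positivity) (by nlinarith)
  nlinarith [pow_nonneg t3 K]

lemma scale_all {F : ZMod p → ℤ} {n : ℕ} (hF : ∀ k : ℤ, n ≤ (univ.filter fun x => F x ≠ k).card)
    {m : ℕ} (h0 : 16 ≤ m) (hn : p ≤ n * m) (hm : 120 * m ≤ p) :
    (m : ℝ) / 2 ≤ ∑ r, Real.log (1 + (m * (170 * ‖cz F r‖)) ^ 2) := by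
  obtain ⟨K, hK⟩ : ∃ K, 60 * m = K + 1 := ⟨60 * m - 1, by omega⟩
  have hK' : (K : ℝ) + 1 = 60 * m := by exact_mod_cast hK.symm
  have hm0 : (16 : ℝ) ≤ m := by exact_mod_cast h0
  have hf : (0 : ℝ) < m.factorial := by positivity
  have h1 := del_ge_all hF (K := K) (hn.trans (Nat.mul_le_mul_left _ (by omega))) (by omega)
  have h2 := del_le (F := F) K m
  have h3 := emb_sum_le m (b := fun r => (m * (170 * ‖cz F r‖)) ^ 2) fun _ => sq_nonneg _
  rw [← Real.log_prod fun _ _ => by positivity, Real.le_log_iff_exp_le (by positivity)]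
  set P := ∏ r, (1 + (m * (170 * ‖cz F r‖)) ^ 2)
  simp only [← mul_assoc, mul_pow _ ‖_‖, prod_mul_distrib, prod_const, card_univ, Fintype.card_fin,
    ← mul_sum] at h3
  rw [dsq_le (inversion_cz F), hK'] at h2
  set T := ∑ r : Fin m ↪ ZMod p, ∏ i, ‖cz F (r i)‖ ^ 2
  have hT : 0 ≤ T := by positivity
  have h4 : 4 ^ m * (60 * m * (2 * K) : ℝ) ^ m ≤ ((m * 170) ^ 2) ^ m := by
    rw [← mul_pow]
    exact pow_le_pow_left₀ (by positivity) (by nlinarith) _
  have h5 : (m.factorial : ℝ) ≤ 60 * ((60 * m * (2 * K)) ^ m * T) := by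
    refine le_of_mul_le_mul_left ?_ (show 0 < (m.factorial : ℝ) * m by positivity)
    refine le_trans ?_ (h2.trans (le_of_eq (by ring)))
    rw [sq, mul_right_comm]
    exact mul_le_mul_of_nonneg_left (by nlinarith) (by positivity)
  have h6 : 4 ^ m ≤ 60 * P := by
    refine le_of_mul_le_mul_left ?_ hf
    nlinarith [mul_le_mul_of_nonneg_left h5 (show (0 : ℝ) ≤ 4 ^ m by positivity),
      mul_le_mul_of_nonneg_right h4 hT]
  have e1 := Real.exp_one_lt_d9
  have h7 : Real.exp (m / 2) ≤ 2 ^ m := by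
    rw [div_eq_mul_inv, Real.exp_nat_mul]
    refine pow_le_pow_left₀ (Real.exp_pos _).le (abs_le_of_sq_le_sq' ?_ (by norm_num)).2 _
    rw [← Real.exp_nat_mul]; norm_num; linarith
  have h8 : (2 : ℝ) ^ 16 ≤ 2 ^ m := pow_le_pow_right₀ (by norm_num) h0
  rw [show (4 : ℝ) = 2 * 2 by norm_num, mul_pow] at h6
  nlinarith

lemma one_le_norm {F : ZMod p → ℤ} {y : ZMod p} (h : F y ≠ 0) : 1 ≤ ∑ r, ‖cz F r‖ := by
  have h1 : (1 : ℝ) ≤ ‖(F y : ℂ)‖ := by
    rw [Complex.norm_intCast]; exact_mod_cast Int.one_le_abs h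
  rw [inversion_cz F y] at h1
  refine h1.trans ((norm_sum_le _ _).trans (le_of_eq ?_))
  simp only [norm_mul, AddChar.norm_apply, mul_one]

theorem lower_all {F : ZMod p → ℤ} {n : ℕ}
    (hF : ∀ k : ℤ, n ≤ (univ.filter fun x => F x ≠ k).card) :
    Real.log (n + 1) ≤ 16332 * ∑ r, ‖cz F r‖ := by
  rcases Nat.eq_zero_or_pos n with rfl | hn
  · simp only [Nat.cast_zero, zero_add, Real.log_one]; positivity
  obtain ⟨y, hy⟩ := card_pos.mp (hn.trans_le (hF 0))
  have hW := one_le_norm (mem_filter.mp hy).2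
  have hnp : n ≤ p := by simpa [ZMod.card] using (hF 0).trans (card_le_univ _)
  obtain ⟨L, hL⟩ : ∃ L, L = Nat.log 4 n := ⟨_, rfl⟩
  have l1 : 4 ^ L ≤ n := hL ▸ Nat.pow_log_le_self 4 hn.ne'
  have l2 : n < 4 ^ (L + 1) := hL ▸ Nat.lt_pow_succ_log_self (by norm_num) n
  have l3 : Real.log (n + 1) ≤ 2 * (L + 1) := by
    have a1 : (n : ℝ) + 1 ≤ 4 ^ (L + 1) := by exact_mod_cast l2
    have a2 := Real.log_le_log (by positivity) a1
    have a3 : Real.log 4 ≤ 2 := by
      rw [show (4 : ℝ) = 2 ^ 2 by norm_num, Real.log_pow]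
      push_cast
      linarith [Real.log_two_lt_d9]
    rw [Real.log_pow] at a2
    push_cast at a2
    nlinarith [(L.cast_nonneg : (0 : ℝ) ≤ L)]
  suffices h : (L : ℝ) - 5 ≤ 8160 * ∑ r, ‖cz F r‖ by linarith
  rcases le_or_gt L 5 with h5 | h5
  · have : (L : ℝ) ≤ 5 := by exact_mod_cast h5
    linarith
  obtain ⟨N, rfl⟩ : ∃ N, L = N + 5 := ⟨L - 5, by omega⟩
  have l4 : 4 ^ 5 ≤ 4 ^ (N + 5) := Nat.pow_le_pow_right (by norm_num) (by omega)
  obtain ⟨J, hJ⟩ : ∃ J, J = Nat.log 4 (p / 120) := ⟨_, rfl⟩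
  have j1 : 4 ^ J ≤ p / 120 := hJ ▸ Nat.pow_log_le_self 4 (by omega)
  have j2 : p / 120 < 4 ^ (J + 1) := hJ ▸ Nat.lt_pow_succ_log_self (by norm_num) _
  have j3 : p < 4 ^ (J + 5) := by
    rw [pow_succ] at j2
    rw [pow_add]
    omega
  have j4 : N < J := by
    have := (Nat.pow_lt_pow_iff_right (show 1 < 4 by norm_num)).mp (l1.trans_lt (hnp.trans_lt j3))
    omega
  obtain ⟨D, rfl⟩ : ∃ D, J = D + 1 + N := ⟨J - 1 - N, by omega⟩
  have h1 := sum_le_sum fun r (_ : r ∈ univ) =>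
    log_sum (a := 170 * ‖cz F r‖) (by positivity) (D + 2 + N)
  rw [sum_comm, sum_range_add] at h1
  have h0 : 0 ≤ ∑ k ∈ range (D + 2), ∑ r, Real.log (1 + (4 ^ k * (170 * ‖cz F r‖)) ^ 2) / 4 ^ k :=
    sum_nonneg fun k _ => sum_nonneg fun r _ => div_nonneg
      (Real.log_nonneg (le_add_of_nonneg_right (sq_nonneg _))) (by positivity)
  have h2 := sum_le_sum fun k (hk : k ∈ range N) => show (1 / 2 : ℝ) ≤
      ∑ r, Real.log (1 + (4 ^ (D + 2 + k) * (170 * ‖cz F r‖)) ^ 2) / 4 ^ (D + 2 + k) by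
    have hk' := mem_range.mp hk
    have := scale_all hF (m := 4 ^ (D + 2 + k)) (Nat.pow_le_pow_right (n := 4) (by norm_num)
      (by omega : 2 ≤ _)) (j3.le.trans ((Nat.pow_le_pow_right (by norm_num)
        (show _ ≤ N + 5 + (D + 2 + k) by omega)).trans (by
          rw [pow_add]; exact Nat.mul_le_mul_right _ l1))) (by
        have := Nat.pow_le_pow_right (show 0 < 4 by norm_num) (show D + 2 + k ≤ D + 1 + N by omega)
        omega)
    push_cast at this
    rw [← sum_div, le_div_iff₀ (by positivity)]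
    linarith
  simp only [sum_const, card_range, nsmul_eq_mul, ← mul_sum] at h1 h2
  push_cast
  linarith

end Pool.Agent.Lib.MP_cb7904_an.H16
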