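import Pool.Agent.Lib.MP_cb7904_an.H16Main

/-!
The upper bound for an interval of arbitrary length.
-/

namespace Pool.Agent.Lib.MP_cb7904_an.H16

open Finset
open scoped BigOperators

variable {p : ℕ} [hp : Fact p.Prime]

lemma geom_bound {r : ZMod p} (h : r.val ≠ 0) (n : ℕ) :
    ‖∑ k ∈ range n, ψ (-(r * (k : ZMod p)))‖ ≤ p * (((r.val : ℝ)⁻¹ + ((p : ℝ) - r.val)⁻¹) / 2) := by
  have hp0 : (0 : ℝ) < p := by exact_mod_cast hp.out.pos
  have hr := r.val_lt
  have h2 : (0 : ℝ) < r.val := by exact_mod_cast Nat.pos_of_ne_zero h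
  have h3 : (r.val : ℝ) < p := by exact_mod_cast hr
  have h5 : -r ≠ 0 := neg_ne_zero.mpr fun h' => h (by rw [h', ZMod.val_zero])
  simp only [← neg_mul, char_mul]
  rw [geom_sum_eq (char_ne_one h5), norm_div]
  obtain ⟨t, ht⟩ : ∃ t : ℝ, t = r.val / p := ⟨_, rfl⟩
  have t0 : 0 < t := by rw [ht]; positivity
  have t1 : t < 1 := by rw [ht, div_lt_one hp0]; exact h3
  have h6 : ‖ψ (-r) - 1‖ = ‖2 * Real.sin (-(2 * (Real.pi * t)) / 2)‖ := by
    have := ZMod.stdAddChar_coe (N := p) (-(r.val : ℕ))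
    push_cast at this
    rw [ZMod.natCast_zmod_val] at this
    rw [this, ← Complex.norm_exp_I_mul_ofReal_sub_one, ht]
    congr 3
    push_cast; ring
  have h7 : ∀ s : ℝ, 0 ≤ s → s ≤ 1 / 2 → 2 * s ≤ Real.sin (Real.pi * s) := fun s a b => by
    have := Real.mul_le_sin (x := Real.pi * s) (by positivity) (by nlinarith [Real.pi_pos])
    rwa [← mul_assoc, div_mul_cancel₀ _ Real.pi_ne_zero] at this
  have h8 : 2 * t * (1 - t) ≤ Real.sin (Real.pi * t) := by
    rcases le_total t (1 / 2) with a | a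
    · nlinarith [h7 t t0.le a]
    · have := h7 (1 - t) (by linarith) (by linarith)
      rw [mul_one_sub Real.pi, Real.sin_pi_sub] at this
      nlinarith
  have h9 : 0 < t * (1 - t) := mul_pos t0 (by linarith)
  rw [neg_div, mul_div_cancel_left₀ _ two_ne_zero, Real.sin_neg, Real.norm_eq_abs, mul_neg,
    abs_neg, abs_of_pos (by linarith)] at h6
  refine (div_le_div₀ (c := 2) (d := 4 * (t * (1 - t))) (by norm_num) ((norm_sub_le _ _).trans ?_)
    (by linarith) (by linarith)).trans (le_of_eq ?_)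
  · rw [norm_pow, AddChar.norm_apply]; norm_num
  · have : (p : ℝ) - r.val ≠ 0 := by linarith
    rw [ht]; field_simp; ring

lemma min_bound {a s T : ℝ} (hs : 0 < s) (hT : 0 < T) (h1 : a ≤ T⁻¹) (h2 : a ≤ s⁻¹) :
    a ≤ 2 / (s + T) := by
  rw [le_div_iff₀ (by positivity)]
  have b1 : a * T ≤ 1 := by rwa [← one_div, le_div_iff₀ hT] at h1
  have b2 : a * s ≤ 1 := by rwa [← one_div, le_div_iff₀ hs] at h2
  linarith

lemma sum_inv_le {T : ℝ} (hT : 2 ≤ T) (N : ℕ) :
    ∑ k ∈ range N, 1 / ((k : ℝ) + T) ≤ Real.log (N + T - 1) - Real.log (T - 1) := by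
  induction N with
  | zero => simp
  | succ N ih =>
    rw [sum_range_succ]
    have h0 : (0 : ℝ) ≤ N := N.cast_nonneg
    have h1 := Real.log_le_sub_one_of_pos (show 0 < (N + T - 1) / (N + T) from
      div_pos (by linarith) (by linarith))
    rw [Real.log_div (by linarith) (by linarith), sub_div, div_self (by linarith)] at h1
    push_cast
    rw [show (N : ℝ) + 1 + T - 1 = N + T by ring]
    linarith

theorem upper_all {n : ℕ} (hn : 2 * n ≤ p) :
    ∃ A : Finset (ZMod p), A.card = n ∧ ∑ r, ‖co A r‖ ≤ 8 * Real.log (n + 1) := by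
  rcases Nat.eq_zero_or_pos n with rfl | h0
  · exact ⟨∅, rfl, by simp [co]⟩
  have hp0 : (0 : ℝ) < p := by exact_mod_cast hp.out.pos
  have hn0 : (1 : ℝ) ≤ n := by exact_mod_cast h0
  have hn2 : 2 * (n : ℝ) ≤ p := by exact_mod_cast hn
  have hi : Set.InjOn (fun k : ℕ => (k : ZMod p)) (range n) := fun a ha b hb h => by
    simp only [coe_range, Set.mem_Iio] at ha hb
    rw [← ZMod.val_cast_of_lt (show a < p by omega), ← ZMod.val_cast_of_lt (show b < p by omega)]
    exact congrArg ZMod.val h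
  refine ⟨(range n).image fun k : ℕ => (k : ZMod p), by
    rw [card_image_of_injOn hi, card_range], ?_⟩
  obtain ⟨T, hT⟩ : ∃ T : ℝ, T = p / n := ⟨_, rfl⟩
  have T2 : 2 ≤ T := by rw [hT, le_div_iff₀ (by linarith)]; exact hn2
  have Tn : T * n = p := by rw [hT]; field_simp
  have h1 : ∀ r : ZMod p, ‖co ((range n).image fun k : ℕ => (k : ZMod p)) r‖
      ≤ 2 * (1 / ((r.val : ℝ) + T)) + 2 * (1 / (((p - 1 - r.val : ℕ) : ℝ) + T)) := by
    intro r
    have hr := r.val_lt
    have h3 : (r.val : ℝ) < p := by exact_mod_cast hr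
    have h4 : ((p - 1 - r.val : ℕ) : ℝ) = p - r.val - 1 := by
      rw [eq_sub_iff_add_eq, ← Nat.cast_sub hr.le]; exact_mod_cast (by omega)
    have h5 : (0 : ℝ) ≤ (p - 1 - r.val : ℕ) := Nat.cast_nonneg _
    have h6 : (0 : ℝ) ≤ r.val := Nat.cast_nonneg _
    set a := ‖co ((range n).image fun k : ℕ => (k : ZMod p)) r‖ with ha
    rw [co, sum_image hi, norm_mul, norm_div, norm_one, Complex.norm_natCast, one_div] at ha
    have a1 : a ≤ T⁻¹ := by
      rw [ha, hT, inv_div, div_eq_inv_mul]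
      refine mul_le_mul_of_nonneg_left ((norm_sum_le _ _).trans ?_) (by positivity)
      simp only [AddChar.norm_apply, sum_const, card_range, nsmul_one, le_refl]
    have p1 : 0 < 1 / ((r.val : ℝ) + T) := by positivity
    have p2 : 0 < 1 / (((p - 1 - r.val : ℕ) : ℝ) + T) := by positivity
    by_cases h : r.val = 0
    · have : T⁻¹ = 1 / ((r.val : ℝ) + T) := by simp [h]
      linarith
    have h2 : (0 : ℝ) < r.val := by exact_mod_cast Nat.pos_of_ne_zero h
    have a2 : a ≤ ((r.val : ℝ)⁻¹ + ((p : ℝ) - r.val)⁻¹) / 2 := by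
      rw [ha, inv_mul_le_iff₀ hp0]; exact geom_bound h n
    rcases le_total (r.val : ℝ) (p - r.val) with c | c
    · have := min_bound h2 (by linarith) a1 (by linarith [inv_anti₀ h2 c])
      rw [div_eq_mul_one_div] at this
      linarith
    · have c0 : (0 : ℝ) < p - r.val := by linarith
      have := min_bound c0 (by linarith) a1 (by linarith [inv_anti₀ c0 c])
      rw [div_eq_mul_one_div] at this
      have c1 := one_div_le_one_div_of_le (show 0 < ((p - 1 - r.val : ℕ) : ℝ) + T by positivity)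
        (show _ ≤ p - r.val + T by linarith)
      linarith
  refine (sum_le_sum fun r _ => h1 r).trans ?_
  rw [sum_zmod fun k => 2 * (1 / ((k : ℝ) + T)) + 2 * (1 / (((p - 1 - k : ℕ) : ℝ) + T)),
    sum_add_distrib, ← mul_sum, ← mul_sum, sum_range_reflect fun k : ℕ => 1 / ((k : ℝ) + T)]
  have h2 := sum_inv_le T2 p
  have h3 : Real.log (p + T - 1) ≤ Real.log (((n + 1) ^ 2) * (T - 1)) :=
    Real.log_le_log (by linarith) (by
      have b1 := mul_nonneg (sub_nonneg.mpr T2) (sq_nonneg (n : ℝ))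
      have b2 := mul_nonneg (sub_nonneg.mpr T2) (sub_nonneg.mpr hn0)
      nlinarith)
  rw [Real.log_mul (by positivity) (by linarith), Real.log_pow] at h3
  push_cast at h3
  linarith

end Pool.Agent.Lib.MP_cb7904_an.H16
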