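import Mathlib

/-!
Ferromagnetic Gibbs weights on `ZMod p`: Ginibre's inequality and exponential tilts.
-/

namespace Pool.Agent.Lib.MP_cb7904_an

open Finset

variable {p : ℕ} [Fact p.Prime]

/-- The standard character. -/
noncomputable def ch (t : ZMod p) : ℂ := ZMod.stdAddChar t
/-- Its real part. -/
noncomputable def cc (t : ZMod p) : ℝ := (ch t).re
/-- Its imaginary part. -/
noncomputable def ss (t : ZMod p) : ℝ := (ch t).im

lemma ch_add (a b : ZMod p) : ch (a + b) = ch a * ch b := AddChar.map_add_eq_mul _ _ _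
lemma ch_neg (a : ZMod p) : ch (-a) = (starRingEnd ℂ) (ch a) := AddChar.map_neg_eq_conj _ _
lemma norm_ch (a : ZMod p) : ‖ch a‖ = 1 := AddChar.norm_apply _ _
lemma ch_zero : ch (0 : ZMod p) = 1 := AddChar.map_zero_eq_one _
lemma cc_zero : cc (0 : ZMod p) = 1 := by simp [cc, ch_zero]
lemma cc_add (a b : ZMod p) : cc (a + b) = cc a * cc b - ss a * ss b := by simp [cc, ss, ch_add]
lemma ss_add (a b : ZMod p) : ss (a + b) = ss a * cc b + cc a * ss b := by
  simp [cc, ss, ch_add, add_comm]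
lemma cc_neg (a : ZMod p) : cc (-a) = cc a := by simp [cc, ch_neg]
lemma ss_neg (a : ZMod p) : ss (-a) = -ss a := by simp [ss, ch_neg]
lemma cc_sub (a b : ZMod p) : cc (a - b) = cc a * cc b + ss a * ss b := by
  rw [sub_eq_add_neg, cc_add, cc_neg, ss_neg]; ring
lemma ss_sub (a b : ZMod p) : ss (a - b) = ss a * cc b - cc a * ss b := by
  rw [sub_eq_add_neg, ss_add, cc_neg, ss_neg]; ring
lemma cc_sq (a : ZMod p) : cc a ^ 2 + ss a ^ 2 = 1 := by
  have h := Complex.sq_norm (ch a)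
  rw [norm_ch, Complex.normSq_apply] at h
  rw [cc, ss]; linarith
lemma cc_le (a : ZMod p) : cc a ≤ 1 := by nlinarith [cc_sq a, sq_nonneg (ss a)]
lemma le_cc (a : ZMod p) : -1 ≤ cc a := by nlinarith [cc_sq a, sq_nonneg (ss a)]
lemma ss_sq_le (a : ZMod p) : ss a ^ 2 ≤ 2 * (1 - cc a) := by
  nlinarith [cc_sq a, sq_nonneg (1 - cc a)]

lemma sum_uv (h2 : (2 : ZMod p) ≠ 0) (F : ZMod p → ZMod p → ℝ) :
    ∑ u, ∑ v, F (u + v) (u - v) = ∑ x, ∑ y, F x y := by
  rw [← Fintype.sum_prod_type', ← Fintype.sum_prod_type']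
  refine Fintype.sum_bijective (fun z : ZMod p × ZMod p => (z.1 + z.2, z.1 - z.2))
    (Finite.injective_iff_bijective.mp fun a b h => ?_) _ _ fun _ => rfl
  simp only [Prod.mk.injEq] at h
  refine Prod.ext (mul_left_cancel₀ h2 ?_) (mul_left_cancel₀ h2 ?_)
  · linear_combination h.1 + h.2
  · linear_combination h.1 - h.2

/-- The class of ferromagnetic weights. -/
structure Gib (ν : ZMod p → ℝ) : Prop where
  nn : ∀ h, 0 ≤ ν h
  tot : ∑ h, ν h = 1
  ev : ∀ h, ν (-h) = ν h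
  mx : ∀ h, ν h ≤ ν 0
  ps : ∀ φ : ZMod p → ℝ, 0 ≤ ∑ u, ∑ v, φ u * φ v * (ν (u + v) * ν (u - v))

/-- Fourier coefficient of an even weight. -/
noncomputable def hat (ν : ZMod p → ℝ) (γ : ZMod p) : ℝ := ∑ h, ν h * cc (γ * h)
/-- Correlation of two sines. -/
noncomputable def dd (ν : ZMod p → ℝ) (γ η : ZMod p) : ℝ := ∑ h, ν h * (ss (γ * h) * ss (η * h))
/-- Covariance of two cosines. -/
noncomputable def cov (ν : ZMod p → ℝ) (γ η : ZMod p) : ℝ :=
  ∑ h, ν h * (cc (γ * h) * cc (η * h)) - hat ν γ * hat ν η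

namespace Gib

variable {ν : ZMod p → ℝ}

lemma pos (hν : Gib ν) : 0 < ν 0 := by
  by_contra h
  have := sum_nonpos (s := univ) fun x _ => (hν.mx x).trans (not_lt.mp h)
  linarith [hν.tot]

lemma avg_le (hν : Gib ν) {f : ZMod p → ℝ} {B : ℝ} (h : ∀ x, f x ≤ B) : ∑ x, ν x * f x ≤ B := by
  calc _ ≤ ∑ x, ν x * B := sum_le_sum fun x _ => mul_le_mul_of_nonneg_left (h x) (hν.nn x)
    _ = B := by rw [← sum_mul, hν.tot, one_mul]

lemma hat_le (hν : Gib ν) (γ : ZMod p) : hat ν γ ≤ 1 := hν.avg_le fun _ => cc_le _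

lemma hat_zero (hν : Gib ν) : hat ν 0 = 1 := by simp [hat, cc_zero, hν.tot]

lemma sum_one_sub (hν : Gib ν) (γ : ZMod p) : ∑ h, ν h * (1 - cc (γ * h)) = 1 - hat ν γ := by
  simp [mul_sub, hat, hν.tot]

lemma sum_ss (hν : Gib ν) (γ : ZMod p) : ∑ h, ν h * ss (γ * h) = 0 := by
  have := Equiv.sum_comp (Equiv.neg (ZMod p)) fun h => ν h * ss (γ * h)
  simp only [Equiv.neg_apply, hν.ev, mul_neg, ss_neg, sum_neg_distrib] at this
  linarith

lemma pair (hν : Gib ν) (f g : ZMod p → ℝ) :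
    ∑ x, ∑ y, ν x * ν y * ((f x + f y) * (g x + g y))
      = 2 * ∑ x, ν x * (f x * g x) + 2 * ((∑ x, ν x * f x) * ∑ x, ν x * g x) := by
  have h1 : ∀ x y, ν x * ν y * ((f x + f y) * (g x + g y)) = ν x * (f x * g x) * ν y
      + ν x * (ν y * (f y * g y)) + (ν x * f x * (ν y * g y) + ν x * g x * (ν y * f y)) :=
    fun x y => by ring
  simp only [h1, sum_add_distrib, ← mul_sum, ← sum_mul, hν.tot]
  ring

lemma hat_nn (h2 : (2 : ZMod p) ≠ 0) (hν : Gib ν) (γ : ZMod p) : 0 ≤ hat ν γ := by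
  have h := hν.ps fun u => cc (γ * u)
  have h1 := sum_uv h2 fun x y => ν x * ν y * ((cc (γ * x) + cc (γ * y)) * (1 + 1))
  rw [hν.pair (fun x => cc (γ * x)) fun _ => 1] at h1
  have h3 : ∀ u v, ν (u + v) * ν (u - v) * ((cc (γ * (u + v)) + cc (γ * (u - v))) * (1 + 1))
      = 4 * (cc (γ * u) * cc (γ * v) * (ν (u + v) * ν (u - v))) := fun u v => by
    rw [mul_add γ, mul_sub γ, cc_add, cc_sub]; ring
  simp only [h3, ← mul_sum, mul_one, hν.tot] at h1
  rw [hat]; linarith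

lemma ginibre (h2 : (2 : ZMod p) ≠ 0) (hν : Gib ν) (γ η : ZMod p) :
    dd ν γ η ^ 2 ≤ 2 * cov ν γ η := by
  set D := dd ν γ η / 2 with hD
  have h := hν.ps fun u => ss (γ * u) * ss (η * u) - D * (cc (γ * u) * cc (η * u))
  have h1 := sum_uv h2 fun x y => ν x * ν y *
    ((cc (γ * x) - cc (γ * y)) * (cc (η * x) - cc (η * y)) / 4
      - D / 2 * ((ss (γ * x) + ss (γ * y)) * (ss (η * x) + ss (η * y))) / 2
      - D / 2 * ((ss (γ * x) - ss (γ * y)) * (ss (η * x) - ss (η * y))) / 2 + D ^ 2)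
  have h3 : ∀ x y, ν x * ν y *
    ((cc (γ * x) - cc (γ * y)) * (cc (η * x) - cc (η * y)) / 4
      - D / 2 * ((ss (γ * x) + ss (γ * y)) * (ss (η * x) + ss (η * y))) / 2
      - D / 2 * ((ss (γ * x) - ss (γ * y)) * (ss (η * x) - ss (η * y))) / 2 + D ^ 2)
      = (ν x * (cc (γ * x) * cc (η * x)) * ν y + ν x * (ν y * (cc (γ * y) * cc (η * y)))
        - ν x * cc (γ * x) * (ν y * cc (η * y)) - ν x * cc (η * x) * (ν y * cc (γ * y))) / 4
        - D / 2 * (ν x * (ss (γ * x) * ss (η * x)) * ν y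
          + ν x * (ν y * (ss (γ * y) * ss (η * y)))) + D ^ 2 * (ν x * ν y) :=
    fun x y => by ring
  simp only [h3, sum_add_distrib, sum_sub_distrib, ← mul_sum, ← sum_mul, ← sum_div, hν.tot] at h1
  have h4 := h.trans (sum_le_sum fun u _ => sum_le_sum fun v _ => show _ ≤ ν (u + v) * ν (u - v) *
    ((cc (γ * (u + v)) - cc (γ * (u - v))) * (cc (η * (u + v)) - cc (η * (u - v))) / 4
      - D / 2 * ((ss (γ * (u + v)) + ss (γ * (u - v))) * (ss (η * (u + v)) + ss (η * (u - v)))) / 2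
      - D / 2 * ((ss (γ * (u + v)) - ss (γ * (u - v))) * (ss (η * (u + v)) - ss (η * (u - v)))) / 2
      + D ^ 2) from by
    rw [mul_comm]
    refine mul_le_mul_of_nonneg_left ?_ (mul_nonneg (hν.nn _) (hν.nn _))
    simp only [mul_add, mul_sub, cc_add, cc_sub, ss_add, ss_sub]
    have h5 : cc (γ * u) * cc (η * u) * (cc (γ * v) * cc (η * v)) ≤ 1 := by
      have a1 := abs_le.mpr ⟨le_cc (γ * u), cc_le _⟩
      have a2 := abs_le.mpr ⟨le_cc (η * u), cc_le _⟩
      have a3 := abs_le.mpr ⟨le_cc (γ * v), cc_le _⟩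
      have a4 := abs_le.mpr ⟨le_cc (η * v), cc_le _⟩
      refine (le_abs_self _).trans ?_
      rw [abs_mul, abs_mul, abs_mul]
      exact mul_le_one₀ (mul_le_one₀ a1 (abs_nonneg _) a2) (by positivity)
        (mul_le_one₀ a3 (abs_nonneg _) a4)
    nlinarith [mul_le_mul_of_nonneg_left h5 (sq_nonneg D)])
  simp only [h3, sum_add_distrib, sum_sub_distrib, ← mul_sum, ← sum_div] at h4
  rw [h1] at h4
  have h5 : dd ν γ η = 2 * D := by rw [hD]; ring
  rw [cov, hat, hat, h5]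
  rw [dd] at h5
  rw [h5] at h4
  linarith

lemma cov_nn (h2 : (2 : ZMod p) ≠ 0) (hν : Gib ν) (γ η : ZMod p) : 0 ≤ cov ν γ η := by
  nlinarith [hν.ginibre h2 γ η, sq_nonneg (dd ν γ η)]

end Gib

/-- Partition function of a tilt. -/
noncomputable def zz (ν : ZMod p → ℝ) (η : ZMod p) (t : ℝ) : ℝ :=
  ∑ h, ν h * Real.exp (t * (cc (η * h) - 1))

/-- Exponential tilt in the direction `η`. -/
noncomputable def tl (ν : ZMod p → ℝ) (η : ZMod p) (t : ℝ) (h : ZMod p) : ℝ :=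
  ν h * Real.exp (t * (cc (η * h) - 1)) / zz ν η t

namespace Gib

variable {ν : ZMod p → ℝ}

lemma zz_pos (hν : Gib ν) (η : ZMod p) (t : ℝ) : 0 < zz ν η t :=
  sum_pos' (fun h _ => mul_nonneg (hν.nn h) (Real.exp_pos _).le)
    ⟨0, mem_univ _, mul_pos hν.pos (Real.exp_pos _)⟩

lemma tl_zero (hν : Gib ν) (η : ZMod p) : tl ν η 0 = ν := by
  funext h; simp [tl, zz, hν.tot]

lemma tilt (hν : Gib ν) (η : ZMod p) {t : ℝ} (ht : 0 ≤ t) : Gib (tl ν η t) := by
  have hz := hν.zz_pos η t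
  refine ⟨fun h => div_nonneg (mul_nonneg (hν.nn h) (Real.exp_pos _).le) hz.le, ?_,
    fun h => by simp [tl, hν.ev, cc_neg], fun h => ?_, fun φ => ?_⟩
  · simp only [tl]; rw [← sum_div]; exact div_self hz.ne'
  · refine div_le_div_of_nonneg_right (mul_le_mul (hν.mx h) ?_ (Real.exp_pos _).le hν.pos.le) hz.le
    rw [mul_zero, cc_zero, Real.exp_le_exp]
    exact mul_le_mul_of_nonneg_left (by linarith [cc_le (η * h)]) ht
  · set a := Real.exp (-2 * t) / zz ν η t ^ 2 with ha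
    have h1 : ∀ u v, HasSum (fun k : ℕ => a * (2 * t) ^ k / k.factorial *
        (φ u * cc (η * u) ^ k * (φ v * cc (η * v) ^ k) * (ν (u + v) * ν (u - v))))
        (φ u * φ v * (tl ν η t (u + v) * tl ν η t (u - v))) := by
      intro u v
      have h3 := (NormedSpace.expSeries_div_hasSum_exp (2 * t * (cc (η * u) * cc (η * v)))).mul_left
        (a * (φ u * φ v * (ν (u + v) * ν (u - v))))
      rw [← Real.exp_eq_exp_ℝ] at h3
      convert h3 using 1
      · rfl
      · funext k; rw [mul_pow, mul_pow, mul_pow]; ring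
      · have h4 : Real.exp (t * (cc (η * (u + v)) - 1)) * Real.exp (t * (cc (η * (u - v)) - 1))
            = Real.exp (-2 * t) * Real.exp (2 * t * (cc (η * u) * cc (η * v))) := by
          rw [← Real.exp_add, ← Real.exp_add, mul_add η, mul_sub η, cc_add, cc_sub]
          congr 1; ring
        rw [tl, tl, ha, div_mul_div_comm, mul_mul_mul_comm (ν (u + v)), h4]
        ring
    refine (hasSum_sum fun u _ => hasSum_sum fun v _ => h1 u v).nonneg fun k => ?_
    simp only [← mul_sum]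
    exact mul_nonneg (by positivity) (hν.ps fun u => φ u * cc (η * u) ^ k)

lemma deriv_tl (hν : Gib ν) (η : ZMod p) (f : ZMod p → ℝ) (t : ℝ) :
    HasDerivAt (fun t => ∑ h, tl ν η t h * f h)
      (∑ h, tl ν η t h * (f h * cc (η * h)) - (∑ h, tl ν η t h * f h) * hat (tl ν η t) η) t := by
  have hz := hν.zz_pos η t
  have h1 : ∀ g : ZMod p → ℝ, HasDerivAt
      (fun t => ∑ h, ν h * Real.exp (t * (cc (η * h) - 1)) * g h)
      (∑ h, ν h * (Real.exp (t * (cc (η * h) - 1)) * (cc (η * h) - 1)) * g h) t := fun g =>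
    HasDerivAt.fun_sum fun h _ =>
      (((hasDerivAt_mul_const (cc (η * h) - 1)).exp).const_mul (ν h)).mul_const (g h)
  have h2 := h1 fun _ => 1
  simp only [mul_one] at h2
  have h3 := (h1 f).div h2 hz.ne'
  convert h3 using 1
  · rfl
  · rfl
  · funext t
    simp only [tl, Pi.div_apply, zz, sum_div]
    exact sum_congr rfl fun h _ => by ring
  · have e1 : ∀ g : ZMod p → ℝ, ∑ h, tl ν η t h * g h
        = (∑ h, ν h * Real.exp (t * (cc (η * h) - 1)) * g h) / zz ν η t := fun g => by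
      rw [sum_div]; exact sum_congr rfl fun h _ => by rw [tl]; ring
    have e2 : ∀ g : ZMod p → ℝ,
        ∑ h, ν h * (Real.exp (t * (cc (η * h) - 1)) * (cc (η * h) - 1)) * g h
        = ∑ h, ν h * Real.exp (t * (cc (η * h) - 1)) * (g h * cc (η * h))
          - ∑ h, ν h * Real.exp (t * (cc (η * h) - 1)) * g h := fun g => by
      rw [← sum_sub_distrib]; exact sum_congr rfl fun h _ => by ring
    have e3 := e2 fun _ => 1
    simp only [mul_one, one_mul] at e3
    rw [hat, e1, e1, e1, e2, e3]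
    change _ = (_ * zz ν η t - _ * (_ - zz ν η t)) / zz ν η t ^ 2
    field_simp
    ring

lemma deriv_hat (hν : Gib ν) (η γ : ZMod p) (t : ℝ) :
    HasDerivAt (fun t => hat (tl ν η t) γ) (cov (tl ν η t) γ η) t :=
  hν.deriv_tl η (fun h => cc (γ * h)) t

lemma hat_mono (h2 : (2 : ZMod p) ≠ 0) (hν : Gib ν) (η γ : ZMod p) {t : ℝ} (ht : 0 ≤ t) :
    hat ν γ ≤ hat (tl ν η t) γ := by
  have := monotoneOn_of_hasDerivWithinAt_nonneg (convex_Ici (0 : ℝ))
    (f := fun t => hat (tl ν η t) γ) (f' := fun t => cov (tl ν η t) γ η)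
    (fun t _ => (hν.deriv_hat η γ t).continuousAt.continuousWithinAt)
    (fun t _ => (hν.deriv_hat η γ t).hasDerivWithinAt)
    (fun t ht => (hν.tilt η (interior_subset ht)).cov_nn h2 γ η) Set.self_mem_Ici ht ht
  simpa [hν.tl_zero] using this

lemma cos_pow (h2 : (2 : ZMod p) ≠ 0) (hν : Gib ν) (β : ZMod p) (N : ℕ) :
    1 / (2 * N + 1 : ℝ) ≤ ∑ h, ν h * cc (β * h) ^ (2 * N) := by
  have h1 : ∀ y : ZMod p, 4 ^ N * cc y ^ (2 * N) = ∑ j ∈ range (2 * N + 1),
      cc (((j : ZMod p) - ((2 * N - j : ℕ) : ZMod p)) * y) * (2 * N).choose j := by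
    intro y
    have h3 := add_pow (ch y) (ch (-y)) (2 * N)
    rw [ch_neg, Complex.add_conj, ← ch_neg, ← Complex.ofReal_pow] at h3
    have h4 := congrArg Complex.re h3
    rw [Complex.ofReal_re, Complex.re_sum, mul_pow, pow_mul] at h4
    norm_num at h4
    rw [cc, h4]
    refine sum_congr rfl fun j _ => ?_
    rw [cc, sub_mul (j : ZMod p), sub_eq_add_neg ((j : ZMod p) * y), ch_add, ← mul_neg,
      ← nsmul_eq_mul, ← nsmul_eq_mul]
    simp only [ch, AddChar.map_nsmul_eq_pow, Complex.mul_re]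
  have h3 : ((2 * N).choose N : ℝ) ≤ 4 ^ N * ∑ h, ν h * cc (β * h) ^ (2 * N) := by
    have h4 : 4 ^ N * ∑ h, ν h * cc (β * h) ^ (2 * N) = ∑ j ∈ range (2 * N + 1),
        hat ν (((j : ZMod p) - ((2 * N - j : ℕ) : ZMod p)) * β) * (2 * N).choose j := by
      simp only [hat, sum_mul]
      rw [sum_comm, mul_sum]
      refine sum_congr rfl fun h _ => ?_
      rw [mul_left_comm, h1, mul_sum]
      exact sum_congr rfl fun j _ => by rw [mul_assoc, mul_assoc]
    rw [h4]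
    refine le_trans (le_of_eq ?_) (single_le_sum (a := N) (fun j _ =>
      mul_nonneg (hν.hat_nn h2 _) (Nat.cast_nonneg _)) (mem_range.mpr (by omega)))
    rw [show 2 * N - N = N by omega, sub_self, zero_mul, hν.hat_zero, one_mul]
  have h4 : (4 : ℝ) ^ N ≤ (2 * N + 1) * (2 * N).choose N := by
    exact_mod_cast Nat.four_pow_le_two_mul_add_one_mul_central_binom N
  rw [div_le_iff₀ (by positivity)]
  refine le_of_mul_le_mul_left ?_ (by positivity : (0 : ℝ) < 4 ^ N)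
  nlinarith [mul_le_mul_of_nonneg_left h3 (by positivity : (0 : ℝ) ≤ 2 * N + 1)]

lemma zz_ge (h2 : (2 : ZMod p) ≠ 0) (hν : Gib ν) (η : ZMod p) (W : ℕ) :
    1 / (4 * W + 1 : ℝ) ≤ zz ν η W := by
  have h1 := hν.cos_pow h2 (η / 2) (2 * W)
  push_cast at h1
  rw [← mul_assoc, show (2 * 2 : ℝ) = 4 by norm_num] at h1
  refine h1.trans (sum_le_sum fun h _ => mul_le_mul_of_nonneg_left ?_ (hν.nn h))
  have h3 : cc (η * h) = 2 * cc (η / 2 * h) ^ 2 - 1 := by
    rw [show η * h = η / 2 * h + η / 2 * h by field_simp; ring, cc_add]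
    nlinarith [cc_sq (η / 2 * h)]
  rw [pow_mul, show (W : ℝ) * (cc (η * h) - 1) = (2 * W : ℕ) * (cc (η / 2 * h) ^ 2 - 1) by
    rw [h3]; push_cast; ring, Real.exp_nat_mul]
  exact pow_le_pow_left₀ (sq_nonneg _) (by linarith [Real.add_one_le_exp (cc (η / 2 * h) ^ 2 - 1)]) _

lemma tilt_small (hν : Gib ν) (η : ZMod p) {t : ℝ} (ht : 0 ≤ t) :
    t * (1 - hat (tl ν η t) η) ≤ -Real.log (zz ν η t) := by
  have hz := hν.zz_pos η t
  have hg := hν.tilt η ht
  set a := t * (1 - hat (tl ν η t) η) with ha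
  have h1 : ∑ h, tl ν η t h * (t * (1 - cc (η * h)) - a + 1) = 1 := by
    simp only [mul_add, mul_sub (tl ν η t _), sum_add_distrib, sum_sub_distrib, mul_left_comm _ t,
      ← mul_sum, ← sum_mul, hg.tot]
    rw [ha, hat]; ring
  have h3 : ∑ h, tl ν η t h * Real.exp (t * (1 - cc (η * h)) - a) = Real.exp (-a) / zz ν η t := by
    rw [show Real.exp (-a) = ∑ h, ν h * Real.exp (-a) by rw [← sum_mul, hν.tot, one_mul], sum_div]
    refine sum_congr rfl fun h _ => ?_
    rw [tl, div_mul_eq_mul_div, mul_assoc, ← Real.exp_add]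
    congr 3; ring
  have h4 : 1 ≤ Real.exp (-a) / zz ν η t := by
    rw [← h1, ← h3]
    exact sum_le_sum fun h _ => mul_le_mul_of_nonneg_left (Real.add_one_le_exp _) (hg.nn h)
  rw [one_le_div hz, ← Real.log_le_iff_le_exp hz] at h4
  linarith

lemma tilts (h2 : (2 : ZMod p) ≠ 0) (hν : Gib ν) (W : ℕ) (l : List (ZMod p)) :
    ∃ μ, Gib μ ∧ (∀ γ, hat ν γ ≤ hat μ γ) ∧
      (∀ η ∈ l, W * (1 - hat μ η) ≤ Real.log (4 * W + 1)) ∧
      Real.log (μ 0) - Real.log (ν 0) ≤ l.length * Real.log (4 * W + 1) := by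
  induction l with
  | nil => exact ⟨ν, hν, fun _ => le_rfl, by simp, by simp⟩
  | cons η l ih =>
    obtain ⟨μ, hμ, h3, h4, h5⟩ := ih
    have hW : (0 : ℝ) ≤ W := Nat.cast_nonneg _
    have h6 : -Real.log (zz μ η W) ≤ Real.log (4 * W + 1) := by
      have := Real.log_le_log (by positivity) (hμ.zz_ge h2 η W)
      rw [one_div, Real.log_inv] at this
      linarith
    refine ⟨tl μ η W, hμ.tilt η hW, fun γ => (h3 γ).trans (hμ.hat_mono h2 η γ hW), ?_, ?_⟩
    · intro ξ hξ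
      rcases List.mem_cons.mp hξ with rfl | hξ
      · exact (hμ.tilt_small ξ hW).trans h6
      · exact (mul_le_mul_of_nonneg_left (by linarith [hμ.hat_mono h2 η ξ hW]) hW).trans (h4 ξ hξ)
    · rw [tl, mul_zero, cc_zero, sub_self, mul_zero, Real.exp_zero, mul_one,
        Real.log_div hμ.pos.ne' (hμ.zz_pos η W).ne', List.length_cons]
      push_cast
      linarith

end Gib

end Pool.Agent.Lib.MP_cb7904_an
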