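import Mathlib

/-!
A Bernstein type bound for the linear coefficient of a polynomial that is bounded on a
symmetric interval and has bounded coefficients.
-/

namespace Pool.Agent.Lib.MP_cb7904_an

open Polynomial Finset

lemma markov_neg {P : ℝ[X]} {n : ℕ} (hP : P.degree ≤ n) {B y : ℝ} (hB : 0 < B)
    (h : ∀ t ∈ Set.Icc y (y + 1 / 8), |P.eval t| ≤ B) :
    -(derivative P).eval y ≤ 16 * B * n ^ 2 := by
  set q : ℝ[X] := C (y + 1 / 16) - C (1 / 16) * X with hq
  set R : ℝ[X] := C B⁻¹ * P.comp q with hR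
  have hqd : q.natDegree ≤ 1 := by rw [hq]; compute_degree
  have hRd : R.degree ≤ n := by
    refine degree_le_of_natDegree_le ((natDegree_C_mul_le _ _).trans (natDegree_comp_le.trans ?_))
    have := natDegree_le_of_degree_le hP
    calc P.natDegree * q.natDegree ≤ n * 1 := Nat.mul_le_mul this hqd
      _ = n := mul_one _
  have h1 := Chebyshev.eval_iterate_derivative_le_of_forall_abs_le_one (k := 1) (x := 1) le_rfl hRd
    (by
      intro x hx
      rw [hR, eval_mul, eval_C, eval_comp, abs_mul, abs_of_pos (inv_pos.mpr hB),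
        inv_mul_le_iff₀ hB, mul_one]
      refine h _ ?_
      simp only [hq, eval_sub, eval_C, eval_mul, eval_X]
      constructor <;> linarith [hx.1, hx.2])
  simp only [Function.iterate_one, Chebyshev.derivative_T_eval_one] at h1
  rw [hR, derivative_C_mul, derivative_comp, eval_mul, eval_C, eval_mul, eval_comp] at h1
  have h2 : q.eval 1 = y := by simp [hq]
  have h3 : (derivative q).eval 1 = -(1 / 16) := by simp [hq]
  rw [h2, h3] at h1
  simp only [Int.cast_natCast] at h1
  rw [inv_mul_le_iff₀ hB] at h1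
  linarith

lemma markov_abs {P : ℝ[X]} {n : ℕ} (hP : P.degree ≤ n) {B y : ℝ} (hB : 0 < B)
    (h : ∀ t ∈ Set.Icc y (y + 1 / 8), |P.eval t| ≤ B) :
    |(derivative P).eval y| ≤ 16 * B * n ^ 2 := by
  have h1 := markov_neg hP hB h
  have h2 := markov_neg (P := -P) (by rwa [degree_neg]) hB (by simpa using h)
  rw [derivative_neg, eval_neg, neg_neg] at h2
  exact abs_le.mpr ⟨by linarith, h2⟩

lemma schur {Q : ℝ[X]} {n : ℕ} (hn : 1 ≤ n) (hQ : Q.degree ≤ n) {B : ℝ} (hB : 0 ≤ B)
    (h : ∀ t ∈ Set.Icc (0 : ℝ) (1 / 2), |t * Q.eval (t ^ 2)| ≤ B) :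
    |Q.eval 0| ≤ 12 * n * B := by
  have hn' : (1 : ℝ) ≤ n := by exact_mod_cast hn
  obtain ⟨z, hz, hK⟩ := (isCompact_Icc (a := (0 : ℝ)) (b := 1 / 4)).exists_isMaxOn
    ⟨0, by norm_num⟩ (Q.continuous.abs.continuousOn)
  have hK' : ∀ y ∈ Set.Icc (0 : ℝ) (1 / 4), |Q.eval y| ≤ |Q.eval z| := fun y hy => hK hy
  refine (hK' 0 (by norm_num)).trans ?_
  set y0 : ℝ := 1 / (36 * n ^ 2) with hy0
  have hy1 : y0 ≤ 1 / 36 := one_div_le_one_div_of_le (by norm_num) (by nlinarith)
  have big : ∀ y, y0 ≤ y → y ≤ 1 / 4 → |Q.eval y| ≤ 6 * n * B := by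
    intro y h1 h2
    have hy : 0 ≤ y := le_trans (by positivity) h1
    have h3 := h (√y) ⟨Real.sqrt_nonneg _, Real.sqrt_le_iff.mpr ⟨by norm_num, by linarith⟩⟩
    rw [Real.sq_sqrt hy, abs_mul, abs_of_nonneg (Real.sqrt_nonneg _)] at h3
    have h4 : 1 / (6 * n) ≤ √y := Real.le_sqrt_of_sq_le (by
      refine le_trans (le_of_eq ?_) h1
      rw [hy0]; field_simp; norm_num)
    rw [div_le_iff₀ (by positivity)] at h4
    calc |Q.eval y| = 1 * |Q.eval y| := (one_mul _).symm
      _ ≤ √y * (6 * n) * |Q.eval y| := mul_le_mul_of_nonneg_right h4 (abs_nonneg _)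
      _ = 6 * n * (√y * |Q.eval y|) := by ring
      _ ≤ _ := mul_le_mul_of_nonneg_left h3 (by positivity)
  have hnB : 0 ≤ n * B := by positivity
  rcases le_total y0 z with h1 | h1
  · linarith [big z h1 hz.2]
  rcases (abs_nonneg (Q.eval z)).eq_or_lt with h0 | h0
  · rw [← h0]; positivity
  have h2 := Convex.norm_image_sub_le_of_norm_hasDerivWithin_le (s := Set.Icc (0 : ℝ) y0)
    (f := fun y => Q.eval y) (f' := fun y => (derivative Q).eval y)
    (C := 16 * |Q.eval z| * n ^ 2) (fun y _ => (Q.hasDerivAt y).hasDerivWithinAt)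
    (fun y hy => markov_abs hQ h0 fun t ht =>
      hK' t ⟨hy.1.trans ht.1, by linarith [ht.2, hy.2]⟩)
    (convex_Icc _ _) ⟨hz.1, h1⟩ ⟨by positivity, le_rfl⟩
  rw [Real.norm_eq_abs, Real.norm_eq_abs, abs_of_nonneg (sub_nonneg.mpr h1)] at h2
  have h3 : 16 * |Q.eval z| * n ^ 2 * (y0 - z) ≤ 16 * |Q.eval z| * n ^ 2 * y0 :=
    mul_le_mul_of_nonneg_left (by linarith [hz.1]) (by positivity)
  have h4 : 16 * |Q.eval z| * n ^ 2 * y0 = 4 / 9 * |Q.eval z| := by
    rw [hy0]; field_simp; ring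
  have h5 := big y0 le_rfl (by linarith)
  have h6 := abs_sub_abs_le_abs_sub (Q.eval z) (Q.eval y0)
  rw [abs_sub_comm] at h6
  linarith

lemma odd_part (e : ℕ → ℝ) (t : ℝ) (N : ℕ) :
    ∑ j ∈ range (2 * N), e j * t ^ j - ∑ j ∈ range (2 * N), e j * (-t) ^ j
      = 2 * ∑ j ∈ range N, e (2 * j + 1) * t ^ (2 * j + 1) := by
  induction N with
  | zero => simp
  | succ N ih =>
    rw [mul_add, mul_one, sum_range_succ, sum_range_succ, sum_range_succ, sum_range_succ,
      sum_range_succ, mul_add, ← ih, (even_two_mul N).neg_pow, (odd_two_mul_add_one N).neg_pow]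
    ring

lemma bernstein (P : ℝ[X]) {n : ℕ} (hn : 1 ≤ n) {B : ℝ} (hB : 0 ≤ B)
    (he : ∀ j, |P.coeff j| ≤ 4 ^ n) (h : ∀ t : ℝ, |t| ≤ 1 → |P.eval t| ≤ B) :
    |P.coeff 1| ≤ 12 * n * (B + 1) := by
  set N := P.natDegree + n + 1 with hN
  have h1 := schur (Q := ∑ j ∈ range n, monomial j (P.coeff (2 * j + 1))) hn (B := B + 1)
    ((degree_sum_le _ _).trans (Finset.sup_le fun j hj => (degree_monomial_le _ _).trans (by
      exact_mod_cast (mem_range.mp hj).le))) (by linarith) (by
      intro t ht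
      have ht1 : |t| ≤ 1 := by rw [abs_of_nonneg ht.1]; linarith [ht.2]
      have h2 := odd_part P.coeff t N
      rw [← eval_eq_sum_range' (by omega), ← eval_eq_sum_range' (by omega),
        ← sum_range_add_sum_Ico _ (by omega : n ≤ N)] at h2
      have h3 : |∑ j ∈ Ico n N, P.coeff (2 * j + 1) * t ^ (2 * j + 1)| ≤ 1 := by
        refine (abs_sum_le_sum_abs _ _).trans ?_
        calc _ ≤ ∑ j ∈ Ico n N, 4 ^ n / 2 * (1 / 4 : ℝ) ^ j := by
              refine sum_le_sum fun j _ => ?_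
              rw [abs_mul, abs_pow, abs_of_nonneg ht.1]
              calc _ ≤ 4 ^ n * (1 / 2 : ℝ) ^ (2 * j + 1) :=
                    mul_le_mul (he _) (pow_le_pow_left₀ ht.1 ht.2 _) (pow_nonneg ht.1 _)
                      (by positivity)
                _ = _ := by rw [pow_succ, pow_mul]; norm_num; ring
          _ ≤ 4 ^ n / 2 * ((1 / 4 : ℝ) ^ n / (1 - 1 / 4)) := by
              rw [← mul_sum]
              exact mul_le_mul_of_nonneg_left
                (geom_sum_Ico_le_of_lt_one (by norm_num) (by norm_num)) (by positivity)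
          _ ≤ 1 := by rw [one_div, inv_pow]; field_simp; norm_num
      have h4 : t * eval (t ^ 2) (∑ j ∈ range n, monomial j (P.coeff (2 * j + 1)))
          = ∑ j ∈ range n, P.coeff (2 * j + 1) * t ^ (2 * j + 1) := by
        rw [eval_finsetSum, mul_sum]
        exact sum_congr rfl fun j _ => by rw [eval_monomial, ← pow_mul]; ring
      have h5 := abs_le.mp (h t ht1)
      have h6 := abs_le.mp (h (-t) (by rwa [abs_neg]))
      rw [h4]
      rw [abs_le] at h3 ⊢
      constructor <;> linarith [h3.1, h3.2])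
  rwa [← coeff_zero_eq_eval_zero, finsetSum_coeff,
    sum_eq_single 0 (fun j _ hj => by rw [coeff_monomial, if_neg hj])
      (fun hj => absurd (mem_range.mpr (by omega)) hj), coeff_monomial, if_pos rfl] at h1

end Pool.Agent.Lib.MP_cb7904_an
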