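import Pool.Agent.Lib.MP_cb7904_an.LGShort
import Pool.Agent.Lib.MP_cb7904_an.LGPoly

/-!
Riesz products over greedily chosen lists of frequencies.
-/

namespace Pool.Agent.Lib.MP_cb7904_an

open Finset Polynomial

variable {p : ℕ} [Fact p.Prime]

/-- Majorant for the Fourier coefficients of Riesz products. -/
noncomputable def nb (v : ZMod p → ℝ) (l : List (ZMod p)) (γ : ZMod p) : ℝ :=
  ∑ y, v y * (cc (γ * y) * (l.map fun η => 1 + cc (η * y)).prod)

/-- All signed combinations of `γ` with elements of the list have small weight. -/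
def Far (q : ZMod p → ℝ) (ε : ℝ) : List (ZMod p) → ZMod p → Prop
  | [], γ => q γ ≤ ε
  | η :: l, γ => Far q ε l γ ∧ Far q ε l (γ + η) ∧ Far q ε l (γ - η)

/-- Dissociated lists. -/
def Dis (q : ZMod p → ℝ) (ε : ℝ) : List (ZMod p) → Prop
  | [] => True
  | η :: l => Far q ε l η ∧ Dis q ε l

/-- Riesz product as a polynomial in the amplitude. -/
noncomputable def rz (σ : ZMod p → ℂ) (l : List (ZMod p)) (y : ZMod p) : ℝ[X] :=
  (l.map fun η => 1 + C (σ η * ch (η * y)).re * X).prod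

lemma nb_cons (v : ZMod p → ℝ) (η : ZMod p) (l : List (ZMod p)) (γ : ZMod p) :
    nb v (η :: l) γ = nb v l γ + (nb v l (γ + η) + nb v l (γ - η)) / 2 := by
  simp only [nb, ← sum_add_distrib, sum_div, List.map_cons, List.prod_cons]
  exact sum_congr rfl fun y _ => by rw [add_mul γ, sub_mul γ, cc_add, cc_sub]; ring

lemma nb_le {v : ZMod p → ℝ} (hv : ∀ y, 0 ≤ v y) (l : List (ZMod p)) (γ : ZMod p) :
    nb v l γ ≤ nb v l 0 := by
  refine sum_le_sum fun y _ => mul_le_mul_of_nonneg_left (mul_le_mul_of_nonneg_right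
    (by rw [zero_mul, cc_zero]; exact cc_le _) (List.prod_nonneg fun a ha => ?_)) (hv y)
  obtain ⟨η, -, rfl⟩ := List.mem_map.mp ha
  linarith [le_cc (η * y)]

lemma nb_far {v : ZMod p → ℝ} {ε : ℝ} (l : List (ZMod p)) (γ : ZMod p)
    (h : Far (hat v) ε l γ) : nb v l γ ≤ 2 ^ l.length * ε := by
  induction l generalizing γ with
  | nil => simpa [nb, Far, hat] using h
  | cons η l ih =>
    rw [nb_cons, List.length_cons, pow_succ]
    linarith [ih _ h.1, ih _ h.2.1, ih _ h.2.2]

lemma nb_dis {v : ZMod p → ℝ} (hv : ∑ y, v y = 1) {ε : ℝ} (l : List (ZMod p))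
    (h : Dis (hat v) ε l) : nb v l 0 ≤ 1 + (2 ^ l.length - 1) * ε := by
  induction l with
  | nil => simp [nb, cc_zero, hv]
  | cons η l ih =>
    have : nb v l (0 - η) = nb v l η := by simp [nb, cc_neg]
    rw [nb_cons, List.length_cons, pow_succ, this, zero_add]
    linarith [ih h.2, nb_far _ _ h.1]

/-- The bound carried through the Riesz product induction. -/
def Bd (w v : ZMod p → ℝ) (l : List (ZMod p)) (f : ZMod p → ℝ) : Prop :=
  ∀ (a : ℂ) γ, |∑ y, w y * ((a * ch (γ * y)).re * f y)| ≤ ‖a‖ * nb v l γ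

lemma bd_step {w v f g : ZMod p → ℝ} {l : List (ZMod p)} (η : ZMod p) {s : ℂ} (hs : ‖s‖ ≤ 1)
    (hf : Bd w v l f) (hg : Bd w v l g) :
    Bd w v (η :: l) fun y => f y + (s * ch (η * y)).re * g y := by
  intro a γ
  have h1 : ∑ y, w y * ((a * ch (γ * y)).re * (f y + (s * ch (η * y)).re * g y))
      = ∑ y, w y * ((a * ch (γ * y)).re * f y)
        + (∑ y, w y * ((a * s * ch ((γ + η) * y)).re * g y)
          + ∑ y, w y * ((a * (starRingEnd ℂ) s * ch ((γ - η) * y)).re * g y)) / 2 := by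
    simp only [← sum_add_distrib, sum_div]
    refine sum_congr rfl fun y _ => ?_
    rw [add_mul γ, sub_mul γ, sub_eq_add_neg (γ * y), ch_add, ch_add, ch_neg]
    simp only [Complex.mul_re, Complex.mul_im, Complex.conj_re, Complex.conj_im]
    ring
  have h0 : ∀ γ, 0 ≤ nb v l γ := fun γ => by simpa using (abs_nonneg _).trans (hf 1 γ)
  have h2 := abs_le.mp (hf a γ)
  have h3 := abs_le.mp ((hg (a * s) (γ + η)).trans (mul_le_mul_of_nonneg_right
    (show ‖a * s‖ ≤ ‖a‖ by rw [norm_mul]; exact mul_le_of_le_one_right (norm_nonneg _) hs) (h0 _)))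
  have h4 := abs_le.mp ((hg (a * (starRingEnd ℂ) s) (γ - η)).trans (mul_le_mul_of_nonneg_right
    (show _ ≤ ‖a‖ by
      rw [norm_mul, Complex.norm_conj]; exact mul_le_of_le_one_right (norm_nonneg _) hs) (h0 _)))
  rw [h1, nb_cons, abs_le]
  constructor <;> linarith [h2.1, h2.2, h3.1, h3.2, h4.1, h4.2]

lemma re_ft (w : ZMod p → ℝ) (a : ℂ) (γ : ZMod p) :
    ∑ y, w y * (a * ch (γ * y)).re = (a * ft w γ).re := by
  rw [ft, mul_sum, Complex.re_sum]
  exact sum_congr rfl fun y _ => by rw [mul_left_comm, Complex.re_ofReal_mul]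

lemma riesz {w v : ZMod p → ℝ} (hw : ∀ y, 0 ≤ w y) (hv : ∀ y, 0 ≤ v y) (hv1 : ∑ y, v y = 1)
    (hq : ∀ γ, ‖ft w γ‖ ≤ hat v γ) {φ : ZMod p → ℂ} {n : ℕ} (hn : 1 ≤ n)
    (hφ : 2 * ∑ γ, ‖φ γ‖ ≤ 4 ^ n) (hF : ∀ y, |tr φ y| ≤ 2) {ε : ℝ} (hε : 0 ≤ ε)
    {l : List (ZMod p)} (hl : Dis (hat v) ε l) (hk : 2 ^ l.length * ε ≤ 1) :
    (l.map fun η => ‖ft (fun y => w y * tr φ y) η‖).sum ≤ 60 * n := by
  set c := ft fun y => w y * tr φ y with hc
  have hσ : ∀ η, ∃ s : ℂ, ‖s‖ ≤ 1 ∧ (s * c η).re = ‖c η‖ := fun η => by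
    obtain ⟨s, h1, h2⟩ := Complex.exists_norm_eq_mul_self (c η)
    exact ⟨s, h1.le, by rw [← h2, Complex.ofReal_re]⟩
  choose σ hσ hc' using hσ
  have b0 : Bd w v [] fun _ => 1 := fun a γ => by
    simp only [mul_one, re_ft, nb, List.map_nil, List.prod_nil]
    exact (Complex.abs_re_le_norm _).trans
      (by rw [norm_mul]; exact mul_le_mul_of_nonneg_left (hq γ) (norm_nonneg _))
  have cons : ∀ η l y, rz σ (η :: l) y = rz σ l y + C (σ η * ch (η * y)).re * (X * rz σ l y) :=
    fun η l y => by simp only [rz, List.map_cons, List.prod_cons]; ring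
  have b1 : ∀ l j, Bd w v l fun y => (rz σ l y).coeff j := by
    intro l
    induction l with
    | nil =>
      intro j a γ
      cases j with
      | zero => simpa [rz] using b0 a γ
      | succ j => simpa [rz, coeff_one] using (abs_nonneg _).trans (b0 a γ)
    | cons η l ih =>
      intro j
      cases j with
      | zero => simpa [cons] using bd_step η (s := 0) (by simp) (ih 0) (ih 0)
      | succ j =>
        simpa only [cons, coeff_add, coeff_C_mul, coeff_X_mul] using
          bd_step η (hσ η) (ih (j + 1)) (ih j)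
  have b2 : ∀ t : ℝ, |t| ≤ 1 → ∀ l, (Bd w v l fun y => (rz σ l y).eval t) ∧
      ∀ y, 0 ≤ (rz σ l y).eval t := by
    intro t ht l
    induction l with
    | nil => simpa [rz] using b0
    | cons η l ih =>
      have h1 : ‖t * σ η‖ ≤ 1 := by
        rw [norm_mul, Complex.norm_real]; exact mul_le_one₀ ht (norm_nonneg _) (hσ η)
      have h2 : ∀ y, (rz σ (η :: l) y).eval t
          = (rz σ l y).eval t + (t * σ η * ch (η * y)).re * (rz σ l y).eval t := fun y => by
        rw [cons, mul_assoc, Complex.re_ofReal_mul, eval_add, eval_mul, eval_mul, eval_C, eval_X]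
        ring
      simp only [h2]
      refine ⟨bd_step η h1 ih.1 ih.1, fun y => ?_⟩
      have h3 := (abs_le.mp (Complex.abs_re_le_norm (t * σ η * ch (η * y)))).1
      rw [norm_mul, norm_ch, mul_one] at h3
      nlinarith [ih.2 y]
  have b3 : ∀ l y, (rz σ l y).coeff 0 = 1 ∧
      (rz σ l y).coeff 1 = (l.map fun η => (σ η * ch (η * y)).re).sum := by
    intro l y
    induction l with
    | nil => simp [rz, coeff_one]
    | cons η l ih =>
      rw [cons, coeff_add, coeff_add, coeff_C_mul, coeff_C_mul, coeff_X_mul_zero, coeff_X_mul, ih.1,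
        ih.2, List.map_cons, List.sum_cons]
      constructor <;> ring
  have b4 : nb v l 0 ≤ 2 := by linarith [nb_dis hv1 l hl]
  have key := bernstein (∑ y, C (w y * tr φ y) * rz σ l y) hn (B := 4) (by norm_num) (fun j => by
    simp only [finsetSum_coeff, coeff_C_mul, tr, mul_assoc, sum_mul, mul_sum]
    rw [sum_comm]
    refine (abs_sum_le_sum_abs _ _).trans (le_trans (sum_le_sum fun γ _ => (b1 l j (φ γ) γ).trans
      (mul_le_mul_of_nonneg_left ((nb_le hv l γ).trans b4) (norm_nonneg _))) ?_)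
    rw [← sum_mul]; linarith) (fun t ht => by
    have h1 := (le_abs_self _).trans ((b2 t ht l).1 1 0)
    simp only [zero_mul, ch_zero, mul_one, Complex.one_re, one_mul, norm_one] at h1
    simp only [eval_finsetSum, eval_mul, eval_C]
    refine (abs_sum_le_sum_abs _ _).trans (le_trans (sum_le_sum fun y _ =>
      show _ ≤ 2 * (w y * (rz σ l y).eval t) from ?_) (by rw [← mul_sum]; linarith))
    rw [abs_mul, abs_mul, abs_of_nonneg (hw y), abs_of_nonneg ((b2 t ht l).2 y)]
    nlinarith [mul_le_mul_of_nonneg_left (hF y) (mul_nonneg (hw y) ((b2 t ht l).2 y))])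
  have b5 : ∀ l : List (ZMod p), ∑ y, w y * tr φ y * (l.map fun η => (σ η * ch (η * y)).re).sum
      = (l.map fun η => ‖c η‖).sum := by
    intro l
    induction l with
    | nil => simp
    | cons η l ih =>
      simp only [List.map_cons, List.sum_cons, mul_add, sum_add_distrib, ih, re_ft, ← hc, hc']
  simp only [finsetSum_coeff, coeff_C_mul, (b3 l _).2, b5] at key
  linarith [le_abs_self (l.map fun η => ‖c η‖).sum]

lemma Gib.subadd {μ : ZMod p → ℝ} (hμ : Gib μ) (a b : ZMod p) {k : ℝ} (hk : 0 < k) :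
    1 - hat μ (a + b) ≤ (1 + 1 / k) * (1 - hat μ a) + (1 + k) * (1 - hat μ b) := by
  simp only [← hμ.sum_one_sub, mul_sum, ← sum_add_distrib]
  refine sum_le_sum fun h _ => ?_
  rw [mul_left_comm, mul_left_comm (1 + k), ← mul_add, add_mul a, cc_add]
  refine mul_le_mul_of_nonneg_left ?_ (hμ.nn h)
  have h1 := mul_le_mul_of_nonneg_left (ss_sq_le (a * h)) (by positivity : 0 ≤ 1 / k)
  have h2 := mul_le_mul_of_nonneg_left (ss_sq_le (b * h)) hk.le
  have h3 : 0 ≤ 1 / k * (ss (a * h) - k * ss (b * h)) ^ 2 := by positivity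
  have h4 : 1 / k * (ss (a * h) - k * ss (b * h)) ^ 2 = 1 / k * ss (a * h) ^ 2
    - 2 * (ss (a * h) * ss (b * h)) + k * ss (b * h) ^ 2 := by field_simp; ring
  nlinarith [mul_nonneg (sub_nonneg.mpr (cc_le (a * h))) (sub_nonneg.mpr (cc_le (b * h)))]

lemma not_far {μ q : ZMod p → ℝ} (hμ : Gib μ) {ε r τ : ℝ} (hr : 0 ≤ r) (hτ : 0 ≤ τ)
    (h0 : ∀ γ, ε < q γ → 1 - hat μ γ ≤ r) (l : List (ZMod p)) (hl : ∀ η ∈ l, 1 - hat μ η ≤ τ)
    (γ : ZMod p) (h : ¬Far q ε l γ) : 1 - hat μ γ ≤ (l.length + 1) * (r + l.length * τ) := by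
  induction l generalizing γ with
  | nil => simpa using h0 γ (not_le.mp h)
  | cons η l ih =>
    replace ih := ih fun ξ hξ => hl ξ (List.mem_cons_of_mem _ hξ)
    have h1 := hl η List.mem_cons_self
    have hk : (0 : ℝ) ≤ l.length := Nat.cast_nonneg _
    have key : ∀ a b, hat μ b = hat μ η → ¬Far q ε l a →
        1 - hat μ (a + b) ≤ (l.length + 1 + 1) * (r + (l.length + 1) * τ) := by
      intro a b hb ha
      have h2 := hμ.subadd a b (k := l.length + 1) (by positivity)
      have h3 := mul_le_mul_of_nonneg_left (ih a ha)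
        (by positivity : (0 : ℝ) ≤ 1 + 1 / (l.length + 1))
      rw [← mul_assoc, show (1 + 1 / (l.length + 1 : ℝ)) * (l.length + 1) = l.length + 1 + 1 by
        field_simp] at h3
      rw [hb] at h2
      nlinarith
    rw [List.length_cons]
    push_cast
    by_cases h2 : Far q ε l γ
    · by_cases h3 : Far q ε l (γ + η)
      · simpa using key (γ - η) η rfl fun h4 => h ⟨h2, h3, h4⟩
      · simpa using key (γ + η) (-η) (by simp [hat, cc_neg]) h3
    · nlinarith [ih γ h2, mul_nonneg hk hτ]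

open Classical in
lemma greedy {q m c : ZMod p → ℝ} {ε K e R t0 : ℝ} {k0 : ℕ} (hm : ∀ γ, 0 ≤ m γ)
    (hc : ∀ γ, c γ ≤ 2) (hK : 0 ≤ K) (he : 0 ≤ e) (ht : 0 ≤ t0) (ht2 : t0 ≤ 2) (hR : R < k0 * t0)
    (Hm : ∀ l : List (ZMod p), l.length ≤ k0 →
      ∑ γ, m γ * (if Far q ε l γ then 0 else 1) ≤ K * l.length + e)
    (Hr : ∀ l : List (ZMod p), Dis q ε l → l.length ≤ k0 → (l.map c).sum ≤ R) :
    ∑ γ, m γ * max (c γ - t0) 0 ≤ K * R + 2 * e := by
  have step : ∀ (l : List (ZMod p)) (t t' : ℝ), l.length ≤ k0 → t' ≤ t →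
      (∀ γ, Far q ε l γ → c γ ≤ t') →
      ∑ γ, m γ * max (c γ - t) 0 ≤ K * ((l.map c).sum - l.length * t) + e * (2 - t) →
      ∑ γ, m γ * max (c γ - t') 0 ≤ K * ((l.map c).sum - l.length * t') + e * (2 - t') := by
    intro l t t' h1 h2 h3 h4
    have h5 := mul_le_mul_of_nonneg_left (Hm l h1) (sub_nonneg.mpr h2)
    have h6 : ∑ γ, m γ * max (c γ - t') 0 ≤ ∑ γ, (m γ * max (c γ - t) 0
        + (t - t') * (m γ * if Far q ε l γ then 0 else 1)) := by
      refine sum_le_sum fun γ _ => ?_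
      rw [mul_left_comm, ← mul_add]
      refine mul_le_mul_of_nonneg_left ?_ (hm γ)
      have h7 := le_max_left (c γ - t) 0
      have h8 := le_max_right (c γ - t) 0
      split_ifs with h
      · exact max_le (by linarith [h3 γ h]) (by linarith)
      · exact max_le (by linarith) (by linarith)
    rw [sum_add_distrib, ← mul_sum] at h6
    linarith
  have main : ∀ k ≤ k0, (∃ (l : List (ZMod p)) (t : ℝ), Dis q ε l ∧ l.length = k ∧
      k * t0 ≤ (l.map c).sum ∧ t0 ≤ t ∧ (∀ γ, Far q ε l γ → c γ ≤ t) ∧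
      ∑ γ, m γ * max (c γ - t) 0 ≤ K * ((l.map c).sum - l.length * t) + e * (2 - t)) ∨
      ∑ γ, m γ * max (c γ - t0) 0 ≤ K * R + 2 * e := by
    intro k
    induction k with
    | zero =>
      exact fun _ => Or.inl ⟨[], 2, trivial, rfl, by simp, ht2, fun γ _ => hc γ, by
        simp [max_eq_right (sub_nonpos.mpr (hc _))]⟩
    | succ k ih =>
      intro hk
      rcases ih (by omega) with ⟨l, t, h1, h2, h3, h4, h5, h6⟩ | h
      swap
      · exact Or.inr h
      by_cases h7 : ∃ γ, Far q ε l γ ∧ t0 ≤ c γ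
      · obtain ⟨γ, h7, h8⟩ := h7
        obtain ⟨η, h9, h10⟩ := exists_max_image (univ.filter (Far q ε l)) c ⟨γ, by simpa⟩
        simp only [mem_filter, mem_univ, true_and] at h9 h10
        have := step l t (c η) (by omega) (h5 η h9) h10 h6
        have h11 := h8.trans (h10 γ h7)
        refine Or.inl ⟨η :: l, c η, ⟨h9, h1⟩, by simp [h2], ?_, h11, fun ξ hξ => h10 ξ hξ.1, ?_⟩ <;>
          simp only [List.map_cons, List.sum_cons, List.length_cons] <;> push_cast <;> linarith
      · have := step l t t0 (by omega) h4 (fun γ h => le_of_lt (not_le.mp fun h' => h7 ⟨γ, h, h'⟩)) h6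
        have h8 := mul_le_mul_of_nonneg_left (Hr l h1 (by omega)) hK
        have h9 : 0 ≤ K * (l.length * t0) := by positivity
        exact Or.inr (by nlinarith [mul_nonneg he ht])
  rcases main k0 le_rfl with ⟨l, t, h1, h2, h3, -⟩ | h
  · linarith [Hr l h1 h2.le]
  · exact h

end Pool.Agent.Lib.MP_cb7904_an
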