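import Pool.Agent.Lib.MP_cb7904_an.LGGibbs

/-!
The variational principle on the class of ferromagnetic weights.
-/

namespace Pool.Agent.Lib.MP_cb7904_an

open Finset

variable {p : ℕ} [Fact p.Prime]

lemma gib_unif : Gib fun _ : ZMod p => (p : ℝ)⁻¹ := by
  have hp : (p : ℝ) ≠ 0 := Nat.cast_ne_zero.mpr (NeZero.ne p)
  refine ⟨fun _ => by positivity, by simp [hp], fun _ => rfl, fun _ => le_rfl, fun φ => ?_⟩
  simp only [← sum_mul, ← mul_sum]
  exact mul_nonneg (mul_self_nonneg _) (by positivity)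

lemma gib_compact : IsCompact {ν : ZMod p → ℝ | Gib ν} := by
  refine (isCompact_Icc (a := fun _ => 0) (b := fun _ => 1)).of_isClosed_subset ?_ fun ν hν =>
    ⟨hν.nn, fun h => hν.tot ▸ single_le_sum (fun x _ => hν.nn x) (mem_univ h)⟩
  have : {ν : ZMod p → ℝ | Gib ν} = (⋂ h, {ν | 0 ≤ ν h}) ∩ {ν | ∑ h, ν h = 1} ∩
      (⋂ h, {ν | ν (-h) = ν h}) ∩ (⋂ h, {ν | ν h ≤ ν 0}) ∩ ⋂ φ : ZMod p → ℝ,
        {ν | 0 ≤ ∑ u, ∑ v, φ u * φ v * (ν (u + v) * ν (u - v))} := by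
    ext ν
    simp only [Set.mem_inter_iff, Set.mem_iInter, Set.mem_ofPred_eq]
    exact ⟨fun h => ⟨⟨⟨⟨h.nn, h.tot⟩, h.ev⟩, h.mx⟩, h.ps⟩,
      fun h => ⟨h.1.1.1.1, h.1.1.1.2, h.1.1.2, h.1.2, h.2⟩⟩
  rw [this]
  refine ((((isClosed_iInter fun h => isClosed_le ?_ ?_).inter (isClosed_eq ?_ ?_)).inter
    (isClosed_iInter fun h => isClosed_eq ?_ ?_)).inter
    (isClosed_iInter fun h => isClosed_le ?_ ?_)).inter
    (isClosed_iInter fun h => isClosed_le ?_ ?_) <;> fun_prop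

lemma deriv_nonpos {g : ℝ → ℝ} {d : ℝ} (hg : HasDerivAt g d 0) (h : ∀ t, 0 ≤ t → g t ≤ g 0) :
    d ≤ 0 :=
  le_of_tendsto hg.tendsto_slope_zero_right (eventually_nhdsWithin_of_forall fun t ht => by
    have := h t (le_of_lt ht)
    rw [zero_add, smul_eq_mul]
    exact mul_nonpos_of_nonneg_of_nonpos (inv_nonneg.mpr (le_of_lt ht)) (by linarith))

lemma exists_opt (h2 : (2 : ZMod p) ≠ 0) (m : ZMod p → ℝ) (hm : ∀ γ, 0 ≤ m γ) {M κ₁ κ₂ ρ : ℝ}
    (hM : ∑ γ, m γ ≤ M) (h1 : 0 < κ₁) (hk : 0 < κ₂) (hρ : 0 < ρ) (hρ1 : ρ ≤ 1) (S : ℕ) :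
    ∃ ν, Gib ν ∧ Real.log p + Real.log (ν 0) ≤ M * Real.log (2 / ρ) / κ₁ + M / κ₂ ∧
      (∀ η, ∑ γ, m γ / (1 - hat ν γ + ρ) * cov ν γ η ≤ κ₁ * (1 - hat ν η)) ∧
      ∀ μ, Gib μ → (∀ γ, hat ν γ ≤ hat μ γ) →
        ∑ γ, m γ * (hat μ γ ^ S - hat ν γ ^ S) ≤ κ₂ * (Real.log (μ 0) - Real.log (ν 0)) := by
  set A : (ZMod p → ℝ) → ℝ := fun ν => ∑ γ, m γ * Real.log (1 - hat ν γ + ρ) with hA
  set B : (ZMod p → ℝ) → ℝ := fun ν => ∑ γ, m γ * hat ν γ ^ S with hB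
  have hpos : ∀ {ν : ZMod p → ℝ}, Gib ν → ∀ γ, ρ ≤ 1 - hat ν γ + ρ := fun hν γ => by
    linarith [hν.hat_le γ]
  have hc : ∀ γ : ZMod p, Continuous fun ν => hat ν γ := fun γ => by unfold hat; fun_prop
  obtain ⟨ν, hν, hmax⟩ := gib_compact.exists_isMaxOn ⟨_, gib_unif⟩
    (f := fun ν => B ν / κ₂ - A ν / κ₁ - Real.log (ν 0)) (by
      refine ((Continuous.continuousOn (by rw [hB]; fun_prop)).sub
        ((continuousOn_finsetSum _ fun γ _ => continuousOn_const.mul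
          (ContinuousOn.log (Continuous.continuousOn (by fun_prop)) fun ν hν =>
            (hρ.trans_le (hpos hν γ)).ne')).div_const _)).sub
        ((continuous_apply 0).continuousOn.log fun ν hν => hν.pos.ne'))
  have hx : ∀ μ, Gib μ → B μ / κ₂ - A μ / κ₁ - Real.log (μ 0)
      ≤ B ν / κ₂ - A ν / κ₁ - Real.log (ν 0) := fun μ hμ => hmax hμ
  replace hν : Gib ν := hν
  refine ⟨ν, hν, ?_, fun η => ?_, fun μ hμ hle => ?_⟩
  · have h3 := hx _ gib_unif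
    rw [Real.log_inv] at h3
    have h4 : 0 ≤ B (fun _ => (p : ℝ)⁻¹) / κ₂ := div_nonneg
      (sum_nonneg fun γ _ => mul_nonneg (hm γ) (pow_nonneg (gib_unif.hat_nn h2 γ) _)) hk.le
    have h5 : B ν / κ₂ ≤ M / κ₂ := div_le_div_of_nonneg_right (le_trans (sum_le_sum fun γ _ =>
      mul_le_of_le_one_right (hm γ) (pow_le_one₀ (hν.hat_nn h2 γ) (hν.hat_le γ))) hM) hk.le
    have h6 : (A (fun _ => (p : ℝ)⁻¹) - A ν) / κ₁ ≤ M * Real.log (2 / ρ) / κ₁ := by
      refine div_le_div_of_nonneg_right (le_trans ?_ (mul_le_mul_of_nonneg_right hM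
        (Real.log_nonneg ((one_le_div hρ).mpr (by linarith))))) h1.le
      rw [hA, sum_mul, ← sum_sub_distrib]
      refine sum_le_sum fun γ _ => ?_
      rw [← mul_sub, Real.log_div two_ne_zero hρ.ne']
      exact mul_le_mul_of_nonneg_left (sub_le_sub (Real.log_le_log
        (hρ.trans_le (hpos gib_unif γ)) (by linarith [gib_unif.hat_nn h2 γ]))
        (Real.log_le_log hρ (hpos hν γ))) (hm γ)
    rw [sub_div] at h6
    linarith
  · have d1 : HasDerivAt (fun t => A (tl ν η t))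
        (∑ γ, m γ * (-cov ν γ η / (1 - hat ν γ + ρ))) 0 := by
      refine HasDerivAt.fun_sum fun γ _ => HasDerivAt.const_mul _ ?_
      have := (((hν.deriv_hat η γ 0).const_sub 1).add_const ρ).log (by
        rw [hν.tl_zero]; exact (hρ.trans_le (hpos hν γ)).ne')
      rwa [hν.tl_zero] at this
    have d2 := hν.deriv_tl η (fun h => if h = 0 then 1 else 0) 0
    simp only [mul_ite, mul_one, mul_zero, ite_mul, one_mul, zero_mul, sum_ite_eq', mem_univ,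
      if_true, cc_zero] at d2
    have d3 := deriv_nonpos ((d1.div_const κ₁).neg.sub
      (d2.log (by rw [hν.tl_zero]; exact hν.pos.ne'))) fun t ht => by
        have h3 := hx _ (hν.tilt η ht)
        have h4 : B ν / κ₂ ≤ B (tl ν η t) / κ₂ := div_le_div_of_nonneg_right
          (sum_le_sum fun γ _ => mul_le_mul_of_nonneg_left (pow_le_pow_left₀ (hν.hat_nn h2 γ)
            (hν.hat_mono h2 η γ ht) _) (hm γ)) hk.le
        simp only [Pi.sub_apply, Pi.neg_apply, hν.tl_zero]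
        linarith
    rw [hν.tl_zero, ← mul_one_sub, mul_div_cancel_left₀ _ hν.pos.ne', sub_nonpos, ← neg_div,
      div_le_iff₀' h1, ← sum_neg_distrib] at d3
    exact le_trans (le_of_eq (sum_congr rfl fun γ _ => by ring)) d3
  · have h3 := hx μ hμ
    have h4 : A μ / κ₁ ≤ A ν / κ₁ := div_le_div_of_nonneg_right (sum_le_sum fun γ _ =>
      mul_le_mul_of_nonneg_left (Real.log_le_log (hρ.trans_le (hpos hμ γ))
        (by linarith [hle γ])) (hm γ)) h1.le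
    simp only [mul_sub (m _), sum_sub_distrib]
    rw [← div_le_iff₀' hk, sub_div]
    linarith

end Pool.Agent.Lib.MP_cb7904_an
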