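import Pool.Agent.Lib.MP_cb7904_an.LGLong
import Pool.Agent.Lib.MP_cb7904_an.LGOpt

/-!
The discrete intermediate value step and the main inequality.
-/

namespace Pool.Agent.Lib.MP_cb7904_an

open Finset

variable {p : ℕ} [Fact p.Prime]

lemma tr_single (a : ℂ) (γ y : ZMod p) : tr (Pi.single γ a) y = (a * ch (γ * y)).re := by
  rw [tr, sum_eq_single γ (fun b _ hb => by simp [hb]) (by simp), Pi.single_eq_same]

lemma ker_ft {μ w : ZMod p → ℝ} {n : ℕ} {x : ZMod p}
    (h : ∀ f, (op μ)^[n] f x = ∑ y, w y * f y) (γ : ZMod p) :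
    ft w γ = ft μ γ ^ n * ch (γ * x) := by
  have h1 : ∀ a : ℂ, (a * ft w γ).re = (a * (ft μ γ ^ n * ch (γ * x))).re := fun a => by
    have := h (tr (Pi.single γ a))
    simp only [tr_single, re_ft, iter_tr] at this
    rw [← this, tr, sum_eq_single γ (fun b _ hb => by simp [hb]) (by simp), Pi.single_eq_same,
      mul_assoc]
  apply Complex.ext
  · simpa only [one_mul] using h1 1
  · simpa only [Complex.I_mul_re, neg_inj] using h1 Complex.I

lemma sum_iter {μ : ZMod p → ℝ} (h1 : ∑ h, μ h = 1) (f : ZMod p → ℝ) (n : ℕ) :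
    ∑ x, (op μ)^[n] f x = ∑ x, f x := by
  induction n with
  | zero => rfl
  | succ n ih =>
    simp only [Function.iterate_succ_apply', op]
    rw [sum_comm]
    simp only [← mul_sum]
    rw [← ih, ← one_mul (∑ x, (op μ)^[n] f x), ← h1, sum_mul]
    exact sum_congr rfl fun h _ => by rw [← Equiv.sum_comp (Equiv.addRight h) ((op μ)^[n] f)]; rfl

lemma ivt (h3 : 3 ≤ p) {g : ZMod p → ℝ} {h : ZMod p} (h0 : h ≠ 0)
    (hg : ∀ x, |g (x + h) - g x| ≤ 1) (hs : |∑ x, g x| ≤ 1) : ∃ x, |g x| ≤ 1 / 2 := by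
  by_contra hc
  simp only [not_exists, not_le] at hc
  have key : ∀ g : ZMod p → ℝ, (∀ x, |g (x + h) - g x| ≤ 1) → (∀ x, 1 / 2 < |g x|) → 0 ≤ g 0 →
      1 < ∑ x, g x := by
    intro g hg hc h1
    have h2 : ∀ n : ℕ, 1 / 2 ≤ g (n * h) := by
      intro n
      induction n with
      | zero => simpa [abs_of_nonneg h1] using (hc 0).le
      | succ n ih =>
        have a1 := abs_le.mp (hg (n * h))
        have a2 := hc (n * h + h)
        have a3 := hc (n * h)
        rw [abs_of_nonneg (by linarith)] at a3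
        rw [abs_of_nonneg (le_of_not_gt fun a4 => by rw [abs_of_neg a4] at a2; linarith)] at a2
        push_cast
        rw [add_mul, one_mul]
        exact a2.le
    have h4 := sum_le_sum fun x (_ : x ∈ univ) => show 1 / 2 ≤ g x by
      simpa [h0] using h2 (x / h).val
    have h5 : (3 : ℝ) ≤ p := by exact_mod_cast h3
    simp only [sum_const, card_univ, ZMod.card, nsmul_eq_mul] at h4
    linarith
  rcases le_total 0 (g 0) with h1 | h1
  · linarith [key g hg hc h1, abs_le.mp hs]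
  · have := key (fun x => -g x) (fun x => by rw [neg_sub_neg, abs_sub_comm]; exact hg x)
      (by simpa using hc) (by simpa using h1)
    rw [sum_neg_distrib] at this
    linarith [abs_le.mp hs]

lemma Stab.balanced {ν : ZMod p → ℝ} {φ : ZMod p → ℂ} {M κ ρ : ℝ} (H : Stab ν φ M κ ρ)
    (h3 : 3 ≤ p) (h0 : ν 0 ≤ 1 / 2) (hs : |∑ x, tr φ x| ≤ 1) {S : ℕ} (hS : S * ρ ≤ 1)
    (hb : 12 * M ^ 2 ≤ S) : ∃ x, |(op ν)^[S] (tr φ) x| ≤ 1 / 2 := by
  have hν := H.gib
  have hM := H.one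
  obtain ⟨h, h1, h2⟩ : ∃ h, h ≠ 0 ∧ tt ν φ ρ h ≤ 3 * M := by
    by_contra hc
    simp only [not_exists, not_and, not_le] at hc
    have a1 := sum_le_sum fun h (_ : h ∈ univ) => mul_le_mul_of_nonneg_left
      (show 3 * M * (1 - if h = 0 then 1 else 0) ≤ tt ν φ ρ h by
        split_ifs with a
        · simpa using H.tt_nn h
        · simpa using (hc h a).le) (hν.nn h)
    simp only [mul_left_comm (ν _), mul_sub (ν _), ← mul_sum, sum_sub_distrib, mul_one, hν.tot,
      mul_ite, mul_zero, sum_ite_eq', mem_univ, if_true, H.tt_eq] at a1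
    nlinarith [H.om_sum]
  refine ivt h3 h1 (fun x => ?_) (by rwa [sum_iter hν.tot])
  have a1 := H.defect hS h
  have a2 : |(op ν)^[S] (tr φ) (x + h) - (op ν)^[S] (tr φ) x|
      ≤ ∑ γ, (1 / (2 * M) * ‖φ γ‖ + M * (‖φ γ‖ * hat ν γ ^ S * (1 - cc (γ * h)))) := by
    simp only [iter_tr, tr, ← sum_sub_distrib, ← Complex.sub_re, hν.ft_eq]
    refine (abs_sum_le_sum_abs _ _).trans (sum_le_sum fun γ _ =>
      (Complex.abs_re_le_norm _).trans ?_)
    have b0 := pow_nonneg (hν.hat_nn H.two γ) S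
    have b1 := pow_le_one₀ (hν.hat_nn H.two γ) (hν.hat_le γ) (n := S)
    have b2 : ‖ch (γ * h) - 1‖ ^ 2 = 2 * (1 - cc (γ * h)) := by
      rw [Complex.sq_norm, Complex.normSq_apply]
      simp only [Complex.sub_re, Complex.sub_im, Complex.one_re, Complex.one_im, ← cc.eq_1,
        ← ss.eq_1]
      linarith [cc_sq (γ * h)]
    have b3 : ‖ch (γ * h) - 1‖ ≤ 1 / (2 * M) + M * (1 - cc (γ * h)) := by
      have : 1 / (2 * M) + M * (1 - cc (γ * h)) - ‖ch (γ * h) - 1‖
          = (M * ‖ch (γ * h) - 1‖ - 1) ^ 2 / (2 * M) := by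
        rw [sub_sq, mul_pow, b2]; field_simp; ring
      have b4 : 0 ≤ (M * ‖ch (γ * h) - 1‖ - 1) ^ 2 / (2 * M) := by positivity
      linarith
    rw [mul_add γ, ch_add, ← mul_sub, ← mul_sub_one, norm_mul, norm_mul, norm_mul, norm_ch, one_mul,
      ← Complex.ofReal_pow, Complex.norm_real, Real.norm_eq_abs, abs_of_nonneg b0]
    have b4 := mul_le_mul_of_nonneg_left b3 (mul_nonneg (norm_nonneg (φ γ)) b0)
    have b5 := mul_le_of_le_one_right (by positivity : 0 ≤ 1 / (2 * M) * ‖φ γ‖) b1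
    linarith
  rw [sum_add_distrib, ← mul_sum, ← mul_sum] at a2
  have a3 := mul_le_mul_of_nonneg_left H.hM (by positivity : 0 ≤ 1 / (2 * M))
  rw [show 1 / (2 * M) * M = 1 / 2 by field_simp] at a3
  have a4 : M * ∑ γ, ‖φ γ‖ * hat ν γ ^ S * (1 - cc (γ * h)) ≤ 1 / 2 := by
    refine le_of_mul_le_mul_left ?_ (show (0 : ℝ) < S by nlinarith)
    nlinarith [mul_le_mul_of_nonneg_left (a1.trans (by linarith : _ ≤ 6 * M)) (by linarith : 0 ≤ M)]
  linarith

open Classical in
lemma Stab.contra {ν : ZMod p → ℝ} {φ : ZMod p → ℂ} {M κ κ₂ ρ t0 : ℝ} (H : Stab ν φ M κ ρ)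
    (h3 : 3 ≤ p) (h0 : ν 0 ≤ 1 / 2) (hs : |∑ x, tr φ x| ≤ 1) (hF : ∀ x, tr φ x ^ 2 = 1)
    {n j S L k0 W : ℕ} (hκ : 0 ≤ κ₂)
    (st : ∀ μ, Gib μ → (∀ γ, hat ν γ ≤ hat μ γ) → ∑ γ, ‖φ γ‖ * (hat μ γ ^ (n + 2) - hat ν γ ^ (n + 2))
      ≤ κ₂ * (Real.log (μ 0) - Real.log (ν 0)))
    (c1 : (n + 2 + S) * ρ ≤ 1) (c2 : M ^ 2 ≤ (j + 2) * κ)
    (c3 : 2 * (j + 2) ^ 2 * M ^ 2 ≤ (n + 2) * κ) (c4 : 168 * κ * Real.log (1 / ρ) ≤ 1 / 4)
    (c5 : 12 * M ^ 2 ≤ S) (c6 : 1 ≤ L) (c7 : 2 * (M + 1) ≤ 4 ^ L) (c8 : 60 * L < k0 * t0)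
    (c9 : 0 ≤ t0) (c10 : t0 ≤ 2) (c11 : (0 : ℝ) < W)
    (c12 : t0 * M + κ₂ * Real.log (4 * W + 1) * (60 * L)
      + 2 * (M * ((n + 2) * ((k0 + 1) * (k0 / S + k0 * (Real.log (4 * W + 1) / W))))) < 1 / 4) :
    False := by
  have hν := H.gib
  have hM := H.one
  have hS : (0 : ℝ) < S := by nlinarith
  have hlog : 0 ≤ Real.log (4 * W + 1) := Real.log_nonneg (by linarith)
  obtain ⟨x, hx⟩ := H.balanced h3 h0 hs (by nlinarith [H.rpos, (n.cast_nonneg : (0 : ℝ) ≤ n)]) c5
  have hvar := H.smooth_var c1 c2 c3 x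
  obtain ⟨w, w0, w1, hw⟩ := iter_ker hν.nn hν.tot S x
  obtain ⟨v, v0, v1, hv⟩ := iter_ker hν.nn hν.tot S 0
  have a0 := fun γ => hν.hat_nn H.two γ
  have hq : ∀ γ, hat v γ = hat ν γ ^ S := fun γ => by
    have := congrArg Complex.re (ker_ft hv γ)
    rw [mul_zero, ch_zero, mul_one, hν.ft_eq, ← Complex.ofReal_pow, Complex.ofReal_re,
      ← one_mul (ft v γ), ← re_ft] at this
    simpa only [one_mul, hat, cc] using this
  rw [hw] at hx
  rw [hw, hw] at hvar
  set g := ∑ y, w y * tr φ y with hg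
  have hF0 : ∀ y, tr (φ - Pi.single 0 (g : ℂ)) y = tr φ y - g := fun y => by
    have := tr_single (g : ℂ) (0 : ZMod p) y
    rw [zero_mul, ch_zero, mul_one, Complex.ofReal_re] at this
    simp only [tr, sum_sub_distrib, Pi.sub_apply, sub_mul, Complex.sub_re] at this ⊢
    rw [this]
  have hb : ∀ y, |tr φ y - g| ≤ 2 := fun y => by
    linarith [abs_sub (tr φ y) g, H.bd y]
  set c := ft fun y => w y * (tr φ y - g) with hc
  set m : ZMod p → ℝ := fun γ => ‖φ γ‖ * (1 - hat ν γ ^ (n + 2)) with hm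
  have m0 : ∀ γ, 0 ≤ 1 - hat ν γ ^ (n + 2) := fun γ =>
    sub_nonneg.mpr (pow_le_one₀ (a0 γ) (hν.hat_le γ))
  have key := greedy (q := hat v) (m := m) (c := fun γ => ‖c γ‖) (ε := (1 / 2) ^ k0)
    (K := κ₂ * Real.log (4 * W + 1))
    (e := M * ((n + 2) * ((k0 + 1) * (k0 / S + k0 * (Real.log (4 * W + 1) / W)))))
    (fun γ => mul_nonneg (norm_nonneg _) (m0 γ)) (fun γ => by
      refine (norm_sum_le _ _).trans ?_
      simp only [norm_mul, norm_ch, mul_one, Complex.norm_real, Real.norm_eq_abs]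
      exact le_trans (le_of_eq (sum_congr rfl fun y _ => by rw [abs_of_nonneg (w0 y)]))
        ((le_abs_self _).trans (abs_avg w0 w1 fun y => by rw [abs_abs]; exact hb y)))
    (by positivity) (by positivity) c9 c10 c8 (fun l hl => by
      obtain ⟨μ, hμ, b1, b2, b3⟩ := hν.tilts H.two W l
      have hl' : (l.length : ℝ) ≤ k0 := by exact_mod_cast hl
      have b4 := (st μ hμ b1).trans (mul_le_mul_of_nonneg_left b3 hκ)
      set τ := (n + 2 : ℝ) * ((k0 + 1) * (k0 / S + k0 * (Real.log (4 * W + 1) / W))) with hτ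
      have b5 : ∀ γ, m γ * (if Far (hat v) ((1 / 2) ^ k0) l γ then 0 else 1)
          ≤ ‖φ γ‖ * (hat μ γ ^ (n + 2) - hat ν γ ^ (n + 2)) + ‖φ γ‖ * τ := by
        intro γ
        rw [hm, mul_assoc, ← mul_add]
        refine mul_le_mul_of_nonneg_left ?_ (norm_nonneg _)
        split_ifs with h
        · have := pow_le_pow_left₀ (a0 γ) (b1 γ) (n + 2)
          have : 0 ≤ τ := by positivity
          linarith
        have d1 := not_far hμ (r := k0 / S) (τ := Real.log (4 * W + 1) / W) (by positivity)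
          (by positivity) (fun γ h => by
            rw [le_div_iff₀ hS]
            have e1 : hat ν γ ^ S ≤ Real.exp (S * (hat ν γ - 1)) := by
              rw [Real.exp_nat_mul]
              exact pow_le_pow_left₀ (a0 γ) (by linarith [Real.add_one_le_exp (hat ν γ - 1)]) _
            have e2 : Real.exp (k0 * -1) ≤ (1 / 2) ^ k0 := by
              rw [Real.exp_nat_mul]
              refine pow_le_pow_left₀ (Real.exp_pos _).le ?_ _
              rw [Real.exp_neg, one_div]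
              exact inv_anti₀ (by norm_num) (by linarith [Real.add_one_le_exp 1])
            rw [hq] at h
            have e3 := Real.exp_le_exp.mp (e2.trans (h.le.trans e1))
            nlinarith [b1 γ]) l (fun η hη => by rw [le_div_iff₀' c11]; exact b2 η hη) γ h
        have d2 := one_add_mul_le_pow (a := hat μ γ - 1) (by linarith [hμ.hat_nn H.two γ]) (n + 2)
        have d3 : 1 - hat μ γ ≤ (k0 + 1) * (k0 / S + k0 * (Real.log (4 * W + 1) / W)) :=
          d1.trans (by gcongr)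
        have d4 := mul_le_mul_of_nonneg_left d3 (by positivity : (0 : ℝ) ≤ n + 2)
        rw [add_sub_cancel] at d2
        push_cast at d2
        linarith
      have b6 := sum_le_sum fun γ (_ : γ ∈ univ) => b5 γ
      rw [sum_add_distrib, ← sum_mul] at b6
      have b7 := mul_le_mul_of_nonneg_right H.hM (by positivity : 0 ≤ τ)
      linarith) (fun l hl hk => by
      have := riesz (φ := φ - Pi.single 0 (g : ℂ)) w0 v0 v1 (fun γ => by
          rw [ker_ft hw, hq, norm_mul, norm_ch, mul_one, hν.ft_eq, norm_pow, Complex.norm_real,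
            Real.norm_eq_abs, abs_of_nonneg (a0 γ)]) c6 (by
          have e1 := sum_le_sum fun γ (_ : γ ∈ univ) =>
            norm_sub_le (φ γ) ((Pi.single 0 (g : ℂ) : ZMod p → ℂ) γ)
          rw [sum_add_distrib, sum_eq_single (0 : ZMod p) (f := fun γ =>
            ‖(Pi.single 0 (g : ℂ) : ZMod p → ℂ) γ‖) (fun b _ hb => by simp [hb]) (by simp),
            Pi.single_eq_same, Complex.norm_real, Real.norm_eq_abs] at e1
          simp only [Pi.sub_apply]
          linarith [H.hM]) (by simpa only [hF0] using hb) (by positivity) hl (by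
          rw [one_div, inv_pow, ← div_eq_mul_inv, div_le_one (by positivity)]
          exact pow_le_pow_right₀ (by norm_num) hk)
      simpa only [hF0] using this)
  set f := (op ν)^[n + 2] (tr φ) with hf
  have e1 : ∑ y, w y * (tr φ y - g) * (tr φ y - f y) ≤ ∑ γ, m γ * (max (‖c γ‖ - t0) 0 + t0) := by
    have : ∀ y, tr φ y - f y = ∑ γ, (φ γ * (1 - hat ν γ ^ (n + 2) : ℝ) * ch (γ * y)).re := fun y => by
      simp only [hf, iter_tr, tr, ← sum_sub_distrib, ← Complex.sub_re, hν.ft_eq]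
      exact sum_congr rfl fun γ _ => by congr 1; push_cast; ring
    simp only [this, mul_sum]
    rw [sum_comm]
    refine sum_le_sum fun γ _ => ?_
    rw [re_ft, ← hc]
    refine (Complex.re_le_norm _).trans ?_
    rw [norm_mul, norm_mul, Complex.norm_real, Real.norm_eq_abs, abs_of_nonneg (m0 γ)]
    exact mul_le_mul_of_nonneg_left (by linarith [le_max_left (‖c γ‖ - t0) 0])
      (mul_nonneg (norm_nonneg _) (m0 γ))
  have e2 : ∑ γ, m γ ≤ M := le_trans (sum_le_sum fun γ _ => mul_le_of_le_one_right (norm_nonneg _)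
    (by linarith [pow_nonneg (a0 γ) (n + 2)])) H.hM
  simp only [mul_add (m _), sum_add_distrib, ← sum_mul] at e1
  set f0 := ∑ y, w y * f y with hf0
  have e3 := sum_le_sum fun y (_ : y ∈ univ) => show w y * (1 / 2 - g ^ 2 / 2 + g * f0 - f0 ^ 2 / 2)
      - f0 * (w y * tr φ y) + f0 * (w y * f y) - 1 / 2 * (w y * f y ^ 2)
      ≤ w y * (tr φ y - g) * (tr φ y - f y) by
    have := mul_nonneg (w0 y) (sq_nonneg (tr φ y - g - (f y - f0)))
    have e4 : w y * tr φ y ^ 2 = w y := by rw [hF, mul_one]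
    linarith
  simp only [sum_add_distrib, sum_sub_distrib, ← sum_mul, ← mul_sum, w1, ← hg, ← hf0] at e3
  have e4 : g ^ 2 ≤ 1 / 4 := by nlinarith [abs_le.mp hx]
  linarith [mul_le_mul_of_nonneg_right e2 c9]

lemma core (h3 : 3 ≤ p) {φ : ZMod p → ℂ} (hs : |∑ x, tr φ x| ≤ 1) (hF : ∀ x, tr φ x ^ 2 = 1)
    {M : ℝ} (hM : ∑ γ, ‖φ γ‖ ≤ M) (hM1 : 1 ≤ M) {L : ℕ} (hL : 20 ≤ L) (hQ : M + 1 ≤ 2 ^ L) :
    Real.log p ≤ Real.log 2 + 400000 * M * L ^ 2 := by
  have h2 : (2 : ZMod p) ≠ 0 := fun h =>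
    absurd (Nat.le_of_dvd two_pos ((ZMod.natCast_eq_zero_iff 2 p).mp (by exact_mod_cast h))) (by omega)
  have q0 : 20000 * L ≤ 2 ^ L := by
    clear hQ
    induction L, hL using Nat.le_induction with
    | base => norm_num
    | succ L hL ih => rw [pow_succ]; omega
  obtain ⟨Q, hQ'⟩ : ∃ Q : ℕ, Q = 2 ^ L := ⟨_, rfl⟩
  rw [← hQ'] at q0
  have q1 : (Q : ℝ) = 2 ^ L := by rw [hQ']; push_cast; rfl
  have l1 : (20 : ℝ) ≤ L := by exact_mod_cast hL
  have q2 : 20000 * (L : ℝ) ≤ Q := by exact_mod_cast q0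
  have q3 : (400000 : ℝ) ≤ Q := by linarith
  have q4 : M ≤ Q := by linarith
  have q5 : ∀ {a b : ℕ}, a ≤ b → (Q : ℝ) ^ a ≤ Q ^ b := pow_le_pow_right₀ (by linarith)
  have q6 : ∀ a : ℕ, Real.log (Q ^ a) ≤ a * L := fun a => by
    rw [Real.log_pow, q1, Real.log_pow]
    refine mul_le_mul_of_nonneg_left (mul_le_of_le_one_right (by linarith) ?_) a.cast_nonneg
    linarith [Real.log_le_sub_one_of_pos two_pos]
  have q7 : ∀ a b : ℕ, a + 1 = b → 400000 * (Q : ℝ) ^ a ≤ Q ^ b := fun a b h => by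
    rw [← h, pow_succ']; exact mul_le_mul_of_nonneg_right q3 (by positivity)
  have q8 : ∀ a : ℕ, (1 : ℝ) ≤ Q ^ a := fun a => one_le_pow₀ (by linarith)
  obtain ⟨n, hn⟩ : ∃ n, Q ^ 10 = n + 2 := Nat.exists_eq_add_of_le' (by
    exact_mod_cast (by linarith [q7 9 10 rfl, q8 9] : (2 : ℝ) ≤ Q ^ 10))
  obtain ⟨j, hj⟩ : ∃ j, Q ^ 3 = j + 2 := Nat.exists_eq_add_of_le' (by
    exact_mod_cast (by linarith [q7 2 3 rfl, q8 2] : (2 : ℝ) ≤ Q ^ 3))
  have hn' : (n + 2 : ℝ) = Q ^ 10 := by exact_mod_cast hn.symm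
  have hj' : (j + 2 : ℝ) = Q ^ 3 := by exact_mod_cast hj.symm
  obtain ⟨ν, hν, a1, a2, a3⟩ := exists_opt h2 (fun γ => ‖φ γ‖) (fun _ => norm_nonneg _) hM
    (κ₁ := 1 / (20000 * L)) (κ₂ := 1 / (20000 * L ^ 2)) (ρ := 1 / Q ^ 18) (by positivity)
    (by positivity) (by positivity) ((div_le_one (by positivity)).mpr (q8 18)) (n + 2)
  have k1 : 1 / (Q : ℝ) ≤ 1 / (20000 * L) := one_div_le_one_div_of_le (by positivity) q2
  have m2 : M ^ 2 ≤ Q ^ 2 := pow_le_pow_left₀ (by linarith) q4 2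
  have w1 : Real.log (4 * (Q ^ 18 : ℕ) + 1) ≤ 19 * L := by
    push_cast
    exact (Real.log_le_log (by positivity) (by linarith [q7 18 19 rfl, q8 18])).trans (q6 19)
  by_cases h0 : ν 0 ≤ 1 / 2
  · exfalso
    refine Stab.contra ⟨h2, hν, hM, hM1, by positivity,
      (div_le_one (by positivity)).mpr (by linarith), by positivity,
      fun x => (sq_le_one_iff_abs_le_one _).mp (hF x).le, a2⟩ h3 h0 hs hF (n := n) (j := j)
      (S := Q ^ 17) (L := L) (k0 := Q ^ 2) (W := Q ^ 18) (t0 := 1 / (16 * Q)) (by positivity) a3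
      ?_ ?_ ?_ ?_ ?_ (by omega) ?_ ?_ (by positivity)
      ((div_le_iff₀ (by positivity)).mpr (by linarith)) (by push_cast; positivity) ?_
    · rw [hn', mul_one_div, div_le_one (by positivity)]
      push_cast
      linarith [q5 (show 10 ≤ 17 by norm_num), q7 17 18 rfl, q8 17]
    · rw [hj']
      refine m2.trans (le_trans (le_of_eq ?_) (mul_le_mul_of_nonneg_left k1 (by positivity)))
      field_simp
    · rw [hj', hn']
      refine le_trans ?_ (mul_le_mul_of_nonneg_left k1 (by positivity))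
      rw [show (Q : ℝ) ^ 10 * (1 / Q) = Q ^ 9 by field_simp]
      nlinarith [q7 8 9 rfl, q8 8, mul_le_mul_of_nonneg_left m2 (by positivity : (0 : ℝ) ≤ Q ^ 6)]
    · rw [one_div_one_div]
      refine (mul_le_mul_of_nonneg_left (q6 18) (by positivity)).trans ?_
      field_simp; norm_num
    · push_cast
      linarith [q7 2 3 rfl, q5 (show 3 ≤ 17 by norm_num), q8 2]
    · rw [show (4 : ℝ) ^ L = 2 ^ L * 2 ^ L by rw [← mul_pow]; norm_num, ← q1]
      rw [← q1] at hQ
      nlinarith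
    · push_cast
      rw [show (Q : ℝ) ^ 2 * (1 / (16 * Q)) = Q / 16 by field_simp]
      linarith
    · have b1 : 1 / (16 * Q) * M ≤ 1 / 16 := by
        rw [div_mul_eq_mul_div, div_le_div_iff₀ (by positivity) (by norm_num)]; linarith
      have b2 : 1 / (20000 * L ^ 2) * Real.log (4 * (Q ^ 18 : ℕ) + 1) * (60 * L) ≤ 1 / 16 := by
        refine (mul_le_mul_of_nonneg_right (mul_le_mul_of_nonneg_left w1 (by positivity))
          (by positivity)).trans ?_
        field_simp; norm_num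
      have b3 : M * ((n + 2) * (((Q ^ 2 : ℕ) + 1) * ((Q ^ 2 : ℕ) / (Q ^ 17 : ℕ) + (Q ^ 2 : ℕ) *
          (Real.log (4 * (Q ^ 18 : ℕ) + 1) / (Q ^ 18 : ℕ))))) ≤ 1 / 32 := by
        have b4 : 0 ≤ Real.log (4 * (Q ^ 18 : ℕ) + 1) := Real.log_nonneg (by push_cast; linarith [q8 18])
        calc _ ≤ Q * ((n + 2) * ((2 * Q ^ 2) * ((Q ^ 2 : ℕ) / (Q ^ 17 : ℕ) + (Q ^ 2 : ℕ) *
            ((Q : ℝ) / (Q ^ 18 : ℕ))))) := by
              gcongr
              · push_cast; linarith [q8 2]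
              · linarith
          _ = 4 / Q ^ 2 := by rw [hn']; push_cast; field_simp; norm_num
          _ ≤ _ := by
              rw [div_le_div_iff₀ (by positivity) (by norm_num)]; linarith [q7 1 2 rfl, q8 1]
      linarith
  · have b1 := Real.log_le_log (by norm_num) (not_le.mp h0).le
    rw [one_div, Real.log_inv] at b1
    have b2 : Real.log (2 / (1 / Q ^ 18)) ≤ 19 * L := by
      rw [div_div_eq_mul_div, div_one]
      exact (Real.log_le_log (by positivity) (by linarith [q7 18 19 rfl, q8 18])).trans (q6 19)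
    rw [div_div_eq_mul_div (M * _), div_div_eq_mul_div M, div_one, div_one] at a1
    nlinarith [mul_le_mul_of_nonneg_left b2 (by positivity : 0 ≤ M * (20000 * L))]

end Pool.Agent.Lib.MP_cb7904_an
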