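import Pool.Agent.Lib.MP_cb7904_an.LGGibbs

/-!
Random walks driven by a stable weight: the gradient bound and the variance of the smooth component.
-/

namespace Pool.Agent.Lib.MP_cb7904_an

open Finset

variable {p : ℕ} [Fact p.Prime]

/-- One step of the walk with weights `μ`. -/
noncomputable def op (μ f : ZMod p → ℝ) (x : ZMod p) : ℝ := ∑ h, μ h * f (x + h)
/-- Real trigonometric sum with coefficients `φ`. -/
noncomputable def tr (φ : ZMod p → ℂ) (x : ZMod p) : ℝ := ∑ γ, (φ γ * ch (γ * x)).re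
/-- Fourier transform of a weight. -/
noncomputable def ft (μ : ZMod p → ℝ) (γ : ZMod p) : ℂ := ∑ h, μ h * ch (γ * h)

lemma op_tr (μ : ZMod p → ℝ) (φ : ZMod p → ℂ) : op μ (tr φ) = tr fun γ => φ γ * ft μ γ := by
  funext x
  simp only [op, tr, ft, mul_sum, sum_mul, Complex.re_sum]
  rw [sum_comm]
  refine sum_congr rfl fun γ _ => sum_congr rfl fun h _ => ?_
  rw [← Complex.re_ofReal_mul, mul_add, ch_add]
  congr 1; ring

lemma iter_tr (μ : ZMod p → ℝ) (φ : ZMod p → ℂ) (n : ℕ) :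
    (op μ)^[n] (tr φ) = tr fun γ => φ γ * ft μ γ ^ n := by
  induction n with
  | zero => simp
  | succ n ih => simp only [Function.iterate_succ_apply', ih, op_tr, pow_succ, mul_assoc]

lemma iter_ker {μ : ZMod p → ℝ} (h0 : ∀ h, 0 ≤ μ h) (h1 : ∑ h, μ h = 1) (n : ℕ) (x : ZMod p) :
    ∃ w : ZMod p → ℝ, (∀ y, 0 ≤ w y) ∧ ∑ y, w y = 1 ∧ ∀ f, (op μ)^[n] f x = ∑ y, w y * f y := by
  induction n with
  | zero => exact ⟨fun y => if y = x then 1 else 0, fun y => by positivity, by simp, by simp⟩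
  | succ n ih =>
    obtain ⟨w, a, b, c⟩ := ih
    have key : ∀ f : ZMod p → ℝ, ∑ z, (∑ y, w y * μ (z - y)) * f z = ∑ y, w y * op μ f y := by
      intro f
      simp only [sum_mul, op, mul_sum]
      rw [sum_comm]
      refine sum_congr rfl fun y _ => ?_
      rw [← Equiv.sum_comp (Equiv.addLeft y)]
      simp [mul_assoc]
    refine ⟨fun z => ∑ y, w y * μ (z - y), fun z => sum_nonneg fun y _ => mul_nonneg (a y) (h0 _),
      by simpa [op, h1, b] using key fun _ => 1, fun f => ?_⟩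
    rw [Function.iterate_succ_apply, c, key]

lemma abs_avg {w f : ZMod p → ℝ} (h0 : ∀ h, 0 ≤ w h) (h1 : ∑ h, w h = 1) {B : ℝ}
    (hf : ∀ x, |f x| ≤ B) : |∑ y, w y * f y| ≤ B := by
  refine (abs_sum_le_sum_abs _ _).trans ?_
  calc _ ≤ ∑ y, w y * B := sum_le_sum fun y _ => by
        rw [abs_mul, abs_of_nonneg (h0 y)]; exact mul_le_mul_of_nonneg_left (hf y) (h0 y)
    _ = B := by rw [← sum_mul, h1, one_mul]

lemma taylor {a b : ℂ} {r : ℝ} (ha : ‖a‖ ≤ r) (hb : ‖a + b‖ ≤ r) (n : ℕ) :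
    ‖(a + b) ^ (n + 2) - a ^ (n + 2) - (n + 2) * a ^ (n + 1) * b‖
      ≤ (n + 2) * (n + 1) / 2 * r ^ n * ‖b‖ ^ 2 := by
  induction n with
  | zero => rw [← norm_pow]; norm_num; exact le_of_eq (by rw [← norm_pow]; congr 1; ring)
  | succ n ih =>
    have h1 : (a + b) ^ (n + 1 + 2) - a ^ (n + 1 + 2) - ((n + 1 : ℕ) + 2) * a ^ (n + 1 + 1) * b
        = (a + b) * ((a + b) ^ (n + 2) - a ^ (n + 2) - (n + 2) * a ^ (n + 1) * b)
          + (n + 2 : ℕ) * (a ^ (n + 1) * b ^ 2) := by push_cast; ring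
    have hr := (norm_nonneg _).trans ha
    rw [h1]
    refine (norm_add_le _ _).trans ?_
    rw [norm_mul, norm_mul, norm_mul, norm_pow, norm_pow, Complex.norm_natCast]
    refine (add_le_add (mul_le_mul hb ih (norm_nonneg _) hr) (mul_le_mul_of_nonneg_left
      (mul_le_mul_of_nonneg_right (pow_le_pow_left₀ (norm_nonneg _) ha _) (sq_nonneg _))
      (Nat.cast_nonneg _))).trans (le_of_eq ?_)
    push_cast; ring

lemma decay {v : ℝ} (h1 : v ≤ 1) (n : ℕ) : n * v * (1 - v) ^ n ≤ 1 := by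
  have h2 : (1 - v) ^ n ≤ Real.exp (-(n * v)) := by
    rw [← mul_neg, Real.exp_nat_mul]
    exact pow_le_pow_left₀ (by linarith) (by linarith [Real.add_one_le_exp (-v)]) _
  have h3 := Real.add_one_le_exp (n * v)
  rw [Real.exp_neg] at h2
  calc _ ≤ Real.exp (n * v) * (Real.exp (n * v))⁻¹ :=
        mul_le_mul (by linarith) h2 (pow_nonneg (by linarith) _) (by positivity)
    _ = 1 := mul_inv_cancel₀ (Real.exp_pos _).ne'

lemma telescope {μ : ZMod p → ℝ} (hμ : Gib μ) (f : ZMod p → ℝ) (v : ℕ → ℝ) (n : ℕ)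
    (h : ∀ j < n, ∀ x, op μ (fun y => (op μ)^[j] f y ^ 2) x ≤ (op μ)^[j + 1] f x ^ 2 + v j)
    (x : ZMod p) :
    (op μ)^[n] (fun y => f y ^ 2) x ≤ (op μ)^[n] f x ^ 2 + ∑ j ∈ range n, v j := by
  induction n generalizing x with
  | zero => simp
  | succ n ih =>
    have h1 := h n (by omega) x
    have h2 : op μ ((op μ)^[n] fun y => f y ^ 2) x
        ≤ ∑ h, μ h * ((op μ)^[n] f (x + h) ^ 2 + ∑ j ∈ range n, v j) :=
      sum_le_sum fun y _ => mul_le_mul_of_nonneg_left (ih (fun j hj => h j (by omega)) _) (hμ.nn y)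
    simp only [mul_add, sum_add_distrib, ← sum_mul, hμ.tot] at h2
    rw [Function.iterate_succ_apply', sum_range_succ]
    rw [op] at h1
    linarith

lemma average (W : ZMod p → ℂ) {B : ℝ} (π : ZMod p → ℝ) (β : ZMod p → ZMod p)
    (h0 : ∀ γ, 0 ≤ π γ) (h1 : ∑ γ, π γ ≤ 1) (h : ∀ η, (∑ h, W h * ch (η * h)).re ≤ B) (k : ℕ)
    (η : ZMod p) :
    (∑ h, W h * (1 + ∑ γ, π γ * (ch (β γ * h) - 1)) ^ k * ch (η * h)).re ≤ B := by
  induction k generalizing η with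
  | zero => simpa using h η
  | succ k ih =>
    set z : ZMod p → ℂ := fun h => 1 + ∑ γ, π γ * (ch (β γ * h) - 1) with hz
    have h2 : ∑ h, W h * z h ^ (k + 1) * ch (η * h)
        = (1 - ∑ γ, π γ : ℝ) * ∑ h, W h * z h ^ k * ch (η * h)
          + ∑ γ, π γ * ∑ h, W h * z h ^ k * ch ((η + β γ) * h) := by
      simp only [mul_sum]
      rw [sum_comm, ← sum_add_distrib]
      refine sum_congr rfl fun h _ => ?_
      have h3 : ∀ γ, (π γ : ℂ) * (W h * z h ^ k * ch ((η + β γ) * h))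
          = W h * z h ^ k * ch (η * h) * (π γ * (ch (β γ * h) - 1) + π γ) := fun γ => by
        rw [add_mul, ch_add]; ring
      simp only [h3, ← mul_sum, sum_add_distrib]
      rw [pow_succ]
      push_cast
      ring
    rw [h2, Complex.add_re, Complex.re_ofReal_mul, Complex.re_sum _ fun γ => (π γ : ℂ) * _]
    simp only [Complex.re_ofReal_mul]
    have h4 := mul_le_mul_of_nonneg_left (ih η) (sub_nonneg.mpr h1)
    have h5 := sum_le_sum fun γ (_ : γ ∈ univ) => mul_le_mul_of_nonneg_left (ih (η + β γ)) (h0 γ)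
    rw [← sum_mul] at h5
    linarith

lemma Gib.odd {ν : ZMod p → ℝ} (hν : Gib ν) {f : ZMod p → ℝ} (hf : ∀ x, f (-x) = -f x) :
    ∑ h, ν h * f h = 0 := by
  have := Equiv.sum_comp (Equiv.neg (ZMod p)) fun h => ν h * f h
  simp only [Equiv.neg_apply, hν.ev, mul_neg, hf, sum_neg_distrib] at this
  linarith

lemma Gib.ft_drift {ν : ZMod p → ℝ} (hν : Gib ν) (η γ : ZMod p) (θ : ℝ) :
    ft (fun h => ν h * (1 + θ * ss (η * h))) γ = hat ν γ + (θ * dd ν γ η : ℝ) * Complex.I := by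
  have h1 := hν.odd (f := fun h => ss (η * h) * cc (γ * h)) fun x => by
    simp only [mul_neg, ss_neg, cc_neg, neg_mul]
  have h2 := hν.sum_ss γ
  apply Complex.ext
  · simp only [ft, Complex.re_sum, Complex.re_ofReal_mul]
    have h3 : ∀ h, ν h * (1 + θ * ss (η * h)) * (ch (γ * h)).re
        = ν h * cc (γ * h) + θ * (ν h * (ss (η * h) * cc (γ * h))) := fun h => by rw [cc]; ring
    simp only [h3, sum_add_distrib, ← mul_sum, h1]
    simp [hat]
  · simp only [ft, Complex.im_sum, Complex.im_ofReal_mul]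
    have h3 : ∀ h, ν h * (1 + θ * ss (η * h)) * (ch (γ * h)).im
        = ν h * ss (γ * h) + θ * (ν h * (ss (γ * h) * ss (η * h))) := fun h => by
      rw [ss, ss]; ring
    simp only [h3, sum_add_distrib, ← mul_sum, h2]
    simp [dd]

lemma Gib.ft_eq {ν : ZMod p → ℝ} (hν : Gib ν) (γ : ZMod p) : ft ν γ = hat ν γ := by
  simpa using hν.ft_drift 0 γ 0

lemma Gib.dd_sq {ν : ZMod p → ℝ} (hν : Gib ν) (γ η : ZMod p) :
    dd ν γ η ^ 2 ≤ 2 * (1 - hat ν γ) := by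
  have h1 : ∑ h, ν h * (ss (γ * h) * ss (η * h) - dd ν γ η) ^ 2
      = ∑ h, ν h * (ss (γ * h) * ss (η * h)) ^ 2 - dd ν γ η ^ 2 := by
    simp only [sub_sq, mul_add, mul_sub, sum_add_distrib, sum_sub_distrib, ← mul_assoc, ← sum_mul,
      hν.tot]
    simp only [mul_assoc, mul_comm _ (2 : ℝ), ← mul_sum]
    rw [dd]; ring
  have h2 : 0 ≤ ∑ h, ν h * (ss (γ * h) * ss (η * h) - dd ν γ η) ^ 2 :=
    sum_nonneg fun h _ => mul_nonneg (hν.nn h) (sq_nonneg _)
  have h3 : ∑ h, ν h * (ss (γ * h) * ss (η * h)) ^ 2 ≤ ∑ h, 2 * (ν h * (1 - cc (γ * h))) :=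
    sum_le_sum fun h _ => by
      rw [mul_left_comm, mul_pow]
      refine mul_le_mul_of_nonneg_left ((mul_le_of_le_one_right (sq_nonneg _) ?_).trans
        (ss_sq_le _)) (hν.nn h)
      nlinarith [cc_sq (η * h), sq_nonneg (cc (η * h))]
  rw [← mul_sum, hν.sum_one_sub] at h3
  linarith

/-- A weight that is stable under infinitesimal tilts, for a bounded trigonometric sum. -/
structure Stab (ν : ZMod p → ℝ) (φ : ZMod p → ℂ) (M κ ρ : ℝ) : Prop where
  two : (2 : ZMod p) ≠ 0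
  gib : Gib ν
  hM : ∑ γ, ‖φ γ‖ ≤ M
  one : 1 ≤ M
  kpos : 0 < κ
  kle : κ ≤ 1
  rpos : 0 < ρ
  bd : ∀ x, |tr φ x| ≤ 1
  st : ∀ η, ∑ γ, ‖φ γ‖ / (1 - hat ν γ + ρ) * cov ν γ η ≤ κ * (1 - hat ν η)

/-- The weighted cosine defect. -/
noncomputable def tt (ν : ZMod p → ℝ) (φ : ZMod p → ℂ) (ρ : ℝ) (h : ZMod p) : ℝ :=
  ∑ γ, ‖φ γ‖ / (1 - hat ν γ + ρ) * (1 - cc (γ * h))

namespace Stab

variable {ν : ZMod p → ℝ} {φ : ZMod p → ℂ} {M κ ρ : ℝ}

lemma den (H : Stab ν φ M κ ρ) (γ : ZMod p) : 0 < 1 - hat ν γ + ρ := by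
  linarith [H.gib.hat_le γ, H.rpos]

lemma om_nn (H : Stab ν φ M κ ρ) (γ : ZMod p) : 0 ≤ ‖φ γ‖ / (1 - hat ν γ + ρ) :=
  div_nonneg (norm_nonneg _) (H.den γ).le

lemma om_sum (H : Stab ν φ M κ ρ) : ∑ γ, ‖φ γ‖ / (1 - hat ν γ + ρ) * (1 - hat ν γ) ≤ M := by
  refine le_trans (sum_le_sum fun γ _ => ?_) H.hM
  rw [div_mul_eq_mul_div, div_le_iff₀ (H.den γ)]
  exact mul_le_mul_of_nonneg_left (by linarith [H.rpos]) (norm_nonneg _)

lemma tt_nn (H : Stab ν φ M κ ρ) (h : ZMod p) : 0 ≤ tt ν φ ρ h :=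
  sum_nonneg fun γ _ => mul_nonneg (H.om_nn γ) (sub_nonneg.mpr (cc_le _))

lemma tt_eq (H : Stab ν φ M κ ρ) :
    ∑ h, ν h * tt ν φ ρ h = ∑ γ, ‖φ γ‖ / (1 - hat ν γ + ρ) * (1 - hat ν γ) := by
  simp only [tt, mul_sum, ← H.gib.sum_one_sub]
  rw [sum_comm]
  exact sum_congr rfl fun γ _ => sum_congr rfl fun h _ => by ring

lemma tt_sq (H : Stab ν φ M κ ρ) : ∑ h, ν h * tt ν φ ρ h ^ 2 ≤ 2 * M ^ 2 := by
  set w : ZMod p → ℝ := fun γ => ‖φ γ‖ / (1 - hat ν γ + ρ) with hw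
  have h1 : ∀ γ η, ∑ h, ν h * ((1 - cc (γ * h)) * (1 - cc (η * h)))
      = cov ν γ η + (1 - hat ν γ) * (1 - hat ν η) := by
    intro γ η
    simp only [mul_sub, sub_mul, sum_sub_distrib, mul_one, one_mul, H.gib.tot, cov, hat]
    ring
  have h2 : ∑ h, ν h * tt ν φ ρ h ^ 2 = ∑ η, w η * ∑ γ, w γ * cov ν γ η
      + (∑ γ, w γ * (1 - hat ν γ)) ^ 2 := by
    have h3 : ∀ h, ν h * tt ν φ ρ h ^ 2 = ∑ η, ∑ γ,
        w η * w γ * (ν h * ((1 - cc (γ * h)) * (1 - cc (η * h)))) := fun h => by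
      rw [tt, sq, sum_mul_sum, mul_sum]
      refine sum_congr rfl fun η _ => ?_
      rw [mul_sum]
      exact sum_congr rfl fun γ _ => by ring
    rw [sq, sum_mul_sum, ← sum_add_distrib]
    simp only [h3]
    rw [sum_comm]
    refine sum_congr rfl fun η _ => ?_
    rw [sum_comm, mul_sum, ← sum_add_distrib]
    exact sum_congr rfl fun γ _ => by rw [← mul_sum, h1]; ring
  have h3 : ∑ η, w η * ∑ γ, w γ * cov ν γ η ≤ ∑ η, w η * (1 - hat ν η) :=
    sum_le_sum fun η _ => mul_le_mul_of_nonneg_left ((H.st η).trans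
      (mul_le_of_le_one_left (sub_nonneg.mpr (H.gib.hat_le η)) H.kle)) (H.om_nn η)
  have h4 := H.om_sum
  have h5 : 0 ≤ ∑ γ, w γ * (1 - hat ν γ) :=
    sum_nonneg fun γ _ => mul_nonneg (H.om_nn γ) (sub_nonneg.mpr (H.gib.hat_le γ))
  nlinarith [H.one]

lemma defect (H : Stab ν φ M κ ρ) {s : ℕ} (hs : s * ρ ≤ 1) (h : ZMod p) :
    s * ∑ γ, ‖φ γ‖ * hat ν γ ^ s * (1 - cc (γ * h)) ≤ 2 * tt ν φ ρ h := by
  rw [tt, mul_sum, mul_sum]
  refine sum_le_sum fun γ _ => ?_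
  rw [← mul_assoc, ← mul_assoc 2]
  refine mul_le_mul_of_nonneg_right ?_ (sub_nonneg.mpr (cc_le _))
  rw [← mul_div_assoc, le_div_iff₀ (H.den γ)]
  have h1 := decay (v := 1 - hat ν γ) (by linarith [H.gib.hat_nn H.two γ]) s
  rw [sub_sub_cancel] at h1
  have h2 : s * ρ * hat ν γ ^ s ≤ 1 := mul_le_one₀ hs (pow_nonneg (H.gib.hat_nn H.two γ) _)
    (pow_le_one₀ (H.gib.hat_nn H.two γ) (H.gib.hat_le γ))
  nlinarith [norm_nonneg (φ γ)]

lemma direction (H : Stab ν φ M κ ρ) {n : ℕ} (hs : (n + 1) * ρ ≤ 1) {θ : ℝ} (h0 : 0 ≤ θ)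
    (h1 : θ ≤ 1 / 2) (x η : ZMod p) :
    θ * ∑ γ, -(hat ν γ ^ (n + 1) * (φ γ * ch (γ * x)).im) * dd ν γ η
      ≤ 2 / (n + 2) + 6 * θ ^ 2 * κ * (1 - hat ν η) := by
  have hν := H.gib
  have b1 : ∀ μ : ZMod p → ℝ, (∀ h, 0 ≤ μ h) → ∑ h, μ h = 1 →
      |tr (fun γ => φ γ * ft μ γ ^ (n + 2)) x| ≤ 1 := fun μ a b => by
    obtain ⟨w, c, d, e⟩ := iter_ker a b (n + 2) x
    rw [← iter_tr, e]
    exact abs_avg c d H.bd
  have b2 := b1 ν hν.nn hν.tot
  have b3 := b1 (fun h => ν h * (1 + θ * ss (η * h))) (fun h => mul_nonneg (hν.nn h) (by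
      nlinarith [cc_sq (η * h), sq_nonneg (cc (η * h)), sq_nonneg (ss (η * h) + 1)])) (by
    simp only [mul_add, mul_one, sum_add_distrib, hν.tot, mul_left_comm _ θ, ← mul_sum, hν.sum_ss]
    simp)
  simp only [hν.ft_drift, hν.ft_eq, tr] at b2 b3
  have key : ∀ γ, (n + 2) * (θ * (-(hat ν γ ^ (n + 1) * (φ γ * ch (γ * x)).im) * dd ν γ η))
      ≤ (φ γ * (hat ν γ + (θ * dd ν γ η : ℝ) * Complex.I) ^ (n + 2) * ch (γ * x)).re
        - (φ γ * (hat ν γ : ℂ) ^ (n + 2) * ch (γ * x)).re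
        + (n + 2) * (6 * θ ^ 2 * (‖φ γ‖ / (1 - hat ν γ + ρ) * cov ν γ η)) := by
    intro γ
    have a0 := hν.hat_nn H.two γ
    have a1 := hν.hat_le γ
    have a2 := hν.dd_sq γ η
    have a3 := taylor (a := hat ν γ) (b := (θ * dd ν γ η : ℝ) * Complex.I)
      (r := 1 - (1 - hat ν γ) / 4)
      (by rw [Complex.norm_real, Real.norm_eq_abs, abs_of_nonneg a0]; linarith) (by
        rw [Complex.norm_add_mul_I]
        refine Real.sqrt_le_iff.mpr ⟨by linarith, ?_⟩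
        have : θ ^ 2 * dd ν γ η ^ 2 ≤ 1 / 4 * dd ν γ η ^ 2 :=
          mul_le_mul_of_nonneg_right (by nlinarith) (sq_nonneg _)
        nlinarith) n
    set E := (hat ν γ + (θ * dd ν γ η : ℝ) * Complex.I) ^ (n + 2) - (hat ν γ : ℂ) ^ (n + 2)
      - (n + 2) * (hat ν γ : ℂ) ^ (n + 1) * ((θ * dd ν γ η : ℝ) * Complex.I) with hE
    have a4 : (φ γ * (hat ν γ + (θ * dd ν γ η : ℝ) * Complex.I) ^ (n + 2) * ch (γ * x))
        = φ γ * (hat ν γ : ℂ) ^ (n + 2) * ch (γ * x) + φ γ * ch (γ * x) * E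
          + ((n + 2) * hat ν γ ^ (n + 1) * (θ * dd ν γ η) : ℝ) * (φ γ * ch (γ * x) * Complex.I) := by
      rw [hE]; push_cast; ring
    have a5 := (abs_le.mp (Complex.abs_re_le_norm (φ γ * ch (γ * x) * E))).1
    rw [norm_mul, norm_mul, norm_ch, mul_one] at a5
    rw [norm_mul, Complex.norm_I, mul_one, Complex.norm_real, Real.norm_eq_abs, sq_abs] at a3
    have a6 : (n + 1) * (1 - (1 - hat ν γ) / 4) ^ n ≤ 6 / (1 - hat ν γ + ρ) := by
      rw [le_div_iff₀ (H.den γ)]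
      have c1 := decay (v := (1 - hat ν γ) / 4) (by linarith) n
      have c2 : 0 ≤ (1 - (1 - hat ν γ) / 4) ^ n := pow_nonneg (by linarith) _
      have c3 : (1 - (1 - hat ν γ) / 4) ^ n ≤ 1 := pow_le_one₀ (by linarith) (by linarith)
      nlinarith [mul_le_one₀ hs c2 c3, mul_le_one₀ (show 1 - hat ν γ ≤ 1 by linarith) c2 c3]
    have a7 : ‖E‖ ≤ (n + 2) * (6 * θ ^ 2 * (1 / (1 - hat ν γ + ρ) * cov ν γ η)) := by
      refine a3.trans ?_
      calc _ = (n + 2) / 2 * θ ^ 2 * ((n + 1) * (1 - (1 - hat ν γ) / 4) ^ n * dd ν γ η ^ 2) := by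
            ring
        _ ≤ (n + 2) / 2 * θ ^ 2 * (6 / (1 - hat ν γ + ρ) * (2 * cov ν γ η)) :=
            mul_le_mul_of_nonneg_left (mul_le_mul a6 (hν.ginibre H.two γ η) (sq_nonneg _)
              (div_nonneg (by norm_num) (H.den γ).le)) (by positivity)
        _ = _ := by ring
    have a8 := mul_le_mul_of_nonneg_left a7 (norm_nonneg (φ γ))
    rw [a4, Complex.add_re, Complex.add_re, Complex.re_ofReal_mul, Complex.mul_I_re]
    have a9 : ‖φ γ‖ * ((n + 2) * (6 * θ ^ 2 * (1 / (1 - hat ν γ + ρ) * cov ν γ η)))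
      = (n + 2) * (6 * θ ^ 2 * (‖φ γ‖ / (1 - hat ν γ + ρ) * cov ν γ η)) := by ring
    linarith
  have h3 := sum_le_sum fun γ (_ : γ ∈ univ) => key γ
  simp only [sum_add_distrib, sum_sub_distrib, ← mul_sum] at h3
  have h4 := mul_le_mul_of_nonneg_left (H.st η) (by positivity : (0 : ℝ) ≤ (n + 2) * (6 * θ ^ 2))
  refine le_of_mul_le_mul_left ?_ (by positivity : (0 : ℝ) < n + 2)
  rw [mul_add, mul_div_cancel₀ _ (by positivity)]
  linarith [abs_le.mp b2, abs_le.mp b3]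

lemma gradient (H : Stab ν φ M κ ρ) {n j : ℕ} (hs : (n + 1) * ρ ≤ 1) (hk : M ^ 2 ≤ (j + 2) * κ)
    (hn : 2 * (j + 2) ^ 2 * M ^ 2 ≤ (n + 1) * κ) (x : ZMod p) :
    ∑ h, ν h * (∑ γ, -(hat ν γ ^ (n + 1) * (φ γ * ch (γ * x)).im) * ss (γ * h)) ^ 2
      ≤ 80 * κ / (n + 1) := by
  have hν := H.gib
  have hM := H.one
  have hκ := H.kpos
  have hM0 : 0 < M := by linarith
  set α : ZMod p → ℝ := fun γ => -(hat ν γ ^ (n + 1) * (φ γ * ch (γ * x)).im) with hα
  set G : ZMod p → ℝ := fun h => ∑ γ, α γ * ss (γ * h) with hG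
  set k : ℝ := j + 2 with hk'
  set s : ℝ := n + 1 with hs'
  have hk0 : 2 ≤ k := by rw [hk']; linarith [(Nat.cast_nonneg j : (0 : ℝ) ≤ j)]
  have hs0 : 0 < s := by positivity
  set θ : ℝ := M / (6 * κ * k) with hθ
  have hθ0 : 0 < θ := by positivity
  have ha : ∀ γ, |α γ| ≤ ‖φ γ‖ * hat ν γ ^ (n + 1) := fun γ => by
    have := Complex.abs_im_le_norm (φ γ * ch (γ * x))
    rw [norm_mul, norm_ch, mul_one] at this
    have h0 := pow_nonneg (hν.hat_nn H.two γ) (n + 1)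
    rw [hα, abs_neg, abs_mul, abs_of_nonneg h0, mul_comm]
    exact mul_le_mul_of_nonneg_right this h0
  have hπ : ∑ γ, |α γ| / M ≤ 1 := by
    rw [← sum_div, div_le_one hM0]
    exact le_trans (sum_le_sum fun γ _ => (ha γ).trans (mul_le_of_le_one_right (norm_nonneg _)
      (pow_le_one₀ (hν.hat_nn H.two γ) (hν.hat_le γ)))) H.hM
  have hre : ∀ (h : ZMod p) (z : ℂ), ((ν h * (6 * θ ^ 2 * κ - θ * G h * Complex.I) : ℂ) * z).re
      = ν h * (6 * θ ^ 2 * κ * z.re + θ * G h * z.im) := fun h z => by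
    simp [← Complex.ofReal_pow]; ring
  have av := average (fun h => ν h * (6 * θ ^ 2 * κ - θ * G h * Complex.I))
    (B := 2 / (n + 2) + 6 * θ ^ 2 * κ) (fun γ => |α γ| / M) (fun γ => if 0 ≤ α γ then γ else -γ)
    (fun γ => by positivity) hπ (fun η => by
      have h1 := H.direction hs hθ0.le (by
        rw [hθ, div_le_div_iff₀ (by positivity) (by norm_num)]; nlinarith) x η
      have h2 : ∑ γ, α γ * dd ν γ η = ∑ h, ν h * (G h * ss (η * h)) := by
        simp only [dd, hG, mul_sum, sum_mul]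
        rw [sum_comm]
        exact sum_congr rfl fun h _ => sum_congr rfl fun γ _ => by ring
      rw [h2] at h1
      simp only [Complex.re_sum, hre, mul_add, sum_add_distrib, mul_left_comm (ν _), mul_assoc θ,
        ← mul_sum]
      simp only [hat, cc, ss, mul_left_comm (ν _)] at h1
      linarith) (j + 2) 0
  set A : ZMod p → ℝ := fun h => ∑ γ, |α γ| / M * (1 - cc (γ * h)) with hA
  have hA0 : ∀ h, 0 ≤ A h := fun h =>
    sum_nonneg fun γ _ => mul_nonneg (by positivity) (sub_nonneg.mpr (cc_le _))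
  have hA1 : ∀ h, A h ≤ 2 / (s * M) * tt ν φ ρ h := fun h => by
    have h1 := H.defect (s := n + 1) (by push_cast; exact hs) h
    push_cast at h1
    have h2 : M * A h ≤ ∑ γ, ‖φ γ‖ * hat ν γ ^ (n + 1) * (1 - cc (γ * h)) := by
      rw [hA, mul_sum]
      refine sum_le_sum fun γ _ => ?_
      rw [← mul_assoc, mul_div_cancel₀ _ hM0.ne']
      exact mul_le_mul_of_nonneg_right (ha γ) (sub_nonneg.mpr (cc_le _))
    rw [div_mul_eq_mul_div, le_div_iff₀ (by positivity)]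
    nlinarith [mul_le_mul_of_nonneg_left h2 hs0.le]
  have e1 : ∑ h, ν h * A h ≤ 2 / s := by
    refine (sum_le_sum fun h _ => mul_le_mul_of_nonneg_left (hA1 h) (hν.nn h)).trans ?_
    simp only [mul_left_comm (ν _), ← mul_sum]
    rw [H.tt_eq]
    exact (mul_le_mul_of_nonneg_left H.om_sum (by positivity)).trans (le_of_eq (by field_simp))
  have e2 : ∑ h, ν h * A h ^ 2 ≤ 8 / s ^ 2 := by
    refine (sum_le_sum fun h _ => mul_le_mul_of_nonneg_left
      (pow_le_pow_left₀ (hA0 h) (hA1 h) 2) (hν.nn h)).trans ?_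
    simp only [mul_pow, mul_left_comm (ν _), ← mul_sum]
    exact (mul_le_mul_of_nonneg_left H.tt_sq (by positivity)).trans
      (le_of_eq (by field_simp; norm_num))
  have pt : ∀ h, ν h * (6 * θ ^ 2 * κ + 1 / (24 * κ) * G h ^ 2 - 6 * θ ^ 2 * κ * k * A h
      - (3 * θ ^ 2 * κ * k ^ 2 + θ * k ^ 3 * M) * A h ^ 2)
      ≤ ((ν h * (6 * θ ^ 2 * κ - θ * G h * Complex.I) : ℂ) * (1 + ∑ γ, (|α γ| / M : ℝ) *
        (ch ((if 0 ≤ α γ then γ else -γ) * h) - 1)) ^ (j + 2) * ch (0 * h)).re := by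
    intro h
    rw [zero_mul, ch_zero, mul_one, hre]
    refine mul_le_mul_of_nonneg_left ?_ (hν.nn h)
    set b : ℂ := ∑ γ, (|α γ| / M : ℝ) * (ch ((if 0 ≤ α γ then γ else -γ) * h) - 1) with hb
    have b1 : b.re = -A h := by
      rw [hb, Complex.re_sum, hA, ← sum_neg_distrib]
      refine sum_congr rfl fun γ _ => ?_
      rw [Complex.re_ofReal_mul, Complex.sub_re, Complex.one_re, ← cc]
      split_ifs
      · ring
      · rw [neg_mul, cc_neg]; ring
    have b2 : b.im = G h / M := by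
      rw [hb, Complex.im_sum, hG, sum_div]
      refine sum_congr rfl fun γ _ => ?_
      rw [Complex.im_ofReal_mul, Complex.sub_im, Complex.one_im, ← ss]
      split_ifs with hh
      · rw [abs_of_nonneg hh]; ring
      · rw [neg_mul, ss_neg, abs_of_neg (not_le.mp hh)]; ring
    have b3 : ‖1 + b‖ ≤ 1 := by
      have c1 : 1 + b = (1 - ∑ γ, |α γ| / M : ℝ)
          + ∑ γ, (|α γ| / M : ℝ) * ch ((if 0 ≤ α γ then γ else -γ) * h) := by
        simp only [hb, mul_sub, sum_sub_distrib, mul_one]; push_cast; ring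
      rw [c1]
      refine (norm_add_le _ _).trans ?_
      have c2 := norm_sum_le univ fun γ =>
        ((|α γ| / M : ℝ) : ℂ) * ch ((if 0 ≤ α γ then γ else -γ) * h)
      simp only [norm_mul, norm_ch, mul_one, Complex.norm_real, Real.norm_eq_abs, abs_div, abs_abs,
        abs_of_pos hM0] at c2
      rw [Complex.norm_real, Real.norm_eq_abs, abs_of_nonneg (sub_nonneg.mpr hπ)]
      linarith
    have b4 := taylor (a := 1) (r := 1) (by simp) b3 j
    simp only [one_pow, mul_one] at b4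
    set E := (1 + b) ^ (j + 2) - 1 - (j + 2) * b with hE
    have b5 : (1 + b) ^ (j + 2) = 1 + (k : ℝ) * b + E := by rw [hE, hk']; push_cast; ring
    have b6 : ‖b‖ ^ 2 = A h ^ 2 + G h ^ 2 / M ^ 2 := by
      rw [Complex.sq_norm, Complex.normSq_apply, b1, b2]; ring
    have b7 : ‖b‖ ^ 2 ≤ 2 * A h := by
      have := pow_le_one₀ (norm_nonneg _) b3 (n := 2)
      rw [Complex.sq_norm, Complex.normSq_apply] at this ⊢
      simp only [Complex.add_re, Complex.add_im, Complex.one_re, Complex.one_im] at this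
      rw [b1] at this ⊢
      linarith
    have b8 : ‖E‖ ≤ k ^ 2 / 2 * ‖b‖ ^ 2 :=
      b4.trans (mul_le_mul_of_nonneg_right (by rw [hk']; nlinarith) (sq_nonneg _))
    have b9 := (abs_le.mp (Complex.abs_re_le_norm E)).1
    have b10 : E.im ^ 2 ≤ (k ^ 2 * A h) ^ 2 := sq_le_sq' (by
      nlinarith [(abs_le.mp (Complex.abs_im_le_norm E)).1])
      (by nlinarith [(abs_le.mp (Complex.abs_im_le_norm E)).2])
    rw [b5]
    simp only [Complex.add_re, Complex.add_im, Complex.one_re, Complex.one_im,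
      Complex.re_ofReal_mul, Complex.im_ofReal_mul, b1, b2]
    have c1 : -(k ^ 2 / 2 * (A h ^ 2 + G h ^ 2 / M ^ 2)) ≤ E.re := by rw [← b6]; linarith
    have c2 := mul_le_mul_of_nonneg_left c1 (by positivity : 0 ≤ 6 * θ ^ 2 * κ)
    have c3 : -(k / M / 4 * G h ^ 2 + M / k * E.im ^ 2) ≤ G h * E.im := by
      have : k / M / 4 * G h ^ 2 + M / k * E.im ^ 2 + G h * E.im
          = M / k * (k / M / 2 * G h + E.im) ^ 2 := by field_simp; ring
      have c4 : 0 ≤ M / k * (k / M / 2 * G h + E.im) ^ 2 := by positivity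
      linarith
    have c4 := mul_le_mul_of_nonneg_left c3 hθ0.le
    have c5 := mul_le_mul_of_nonneg_left b10 (by positivity : 0 ≤ θ * (M / k))
    have c6 : θ * (M / k) * (k ^ 2 * A h) ^ 2 = θ * k ^ 3 * M * A h ^ 2 := by field_simp
    have c7 : 1 / (24 * κ) * G h ^ 2 = θ * G h * (k * (G h / M))
        - 6 * θ ^ 2 * κ * (k ^ 2 / 2 * (G h ^ 2 / M ^ 2)) - θ * (k / M / 4 * G h ^ 2) := by
      rw [hθ]; field_simp; ring
    linarith
  have fin := (sum_le_sum fun h (_ : h ∈ univ) => pt h).trans (Complex.re_sum _ _ ▸ av)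
  simp only [mul_sub (ν _), mul_add (ν _), sum_add_distrib, sum_sub_distrib, mul_left_comm (ν _),
    ← mul_sum, ← sum_mul, hν.tot] at fin
  have f1 := mul_le_mul_of_nonneg_left e1 (by positivity : 0 ≤ 6 * θ ^ 2 * κ * k)
  have f2 := mul_le_mul_of_nonneg_left e2 (by positivity : 0 ≤ 3 * θ ^ 2 * κ * k ^ 2 + θ * k ^ 3 * M)
  have f3 : 6 * θ ^ 2 * κ * k * (2 / s) ≤ 1 / (3 * s) := by
    rw [show 6 * θ ^ 2 * κ * k * (2 / s) = M ^ 2 / (k * κ) / (3 * s) by rw [hθ]; field_simp; ring]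
    exact div_le_div_of_nonneg_right ((div_le_one (by positivity)).mpr hk) (by positivity)
  have f4 : (3 * θ ^ 2 * κ * k ^ 2 + θ * k ^ 3 * M) * (8 / s ^ 2) ≤ 1 / s := by
    rw [show (3 * θ ^ 2 * κ * k ^ 2 + θ * k ^ 3 * M) * (8 / s ^ 2)
      = (2 / 3 * M ^ 2 + 4 / 3 * k ^ 2 * M ^ 2) / (s * κ) / s by rw [hθ]; field_simp; ring]
    refine div_le_div_of_nonneg_right ((div_le_one (by positivity)).mpr ?_) hs0.le
    nlinarith [mul_le_mul_of_nonneg_right (show 1 ≤ k ^ 2 by nlinarith) (sq_nonneg M)]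
  have f5 : (2 : ℝ) / (n + 2) ≤ 2 / s :=
    div_le_div_of_nonneg_left (by norm_num) hs0 (by rw [hs']; linarith)
  have f6 : 1 / (24 * κ) * (80 * κ / s) = 2 / s + 1 / (3 * s) + 1 / s := by field_simp; ring
  refine le_of_mul_le_mul_left ?_ (by positivity : 0 < 1 / (24 * κ))
  linarith

lemma one_step (H : Stab ν φ M κ ρ) {n j : ℕ} (hs : (n + 1) * ρ ≤ 1) (hk : M ^ 2 ≤ (j + 2) * κ)
    (hn : 2 * (j + 2) ^ 2 * M ^ 2 ≤ (n + 1) * κ) (x : ZMod p) :
    op ν (fun y => (op ν)^[n + 1] (tr φ) y ^ 2) x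
      ≤ (op ν)^[n + 1 + 1] (tr φ) x ^ 2 + 168 * κ / (n + 1) := by
  have hν := H.gib
  have hκ := H.kpos
  rw [Function.iterate_succ_apply' _ (n + 1)]
  set f := (op ν)^[n + 1] (tr φ) with hf
  have h1 := H.gradient hs hk hn x
  have h2 : ∀ h, (f (x + h) - f x) ^ 2
      ≤ 2 * (∑ γ, -(hat ν γ ^ (n + 1) * (φ γ * ch (γ * x)).im) * ss (γ * h)) ^ 2
        + 8 / (n + 1) ^ 2 * tt ν φ ρ h ^ 2 := by
    intro h
    have a1 : f (x + h) - f x = ∑ γ, -(hat ν γ ^ (n + 1) * (φ γ * ch (γ * x)).im) * ss (γ * h)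
        - ∑ γ, hat ν γ ^ (n + 1) * (φ γ * ch (γ * x)).re * (1 - cc (γ * h)) := by
      simp only [hf, iter_tr, tr, hν.ft_eq, ← sum_sub_distrib]
      refine sum_congr rfl fun γ _ => ?_
      rw [mul_add, ch_add, ← Complex.ofReal_pow, cc, ss]
      simp only [Complex.mul_re, Complex.mul_im, Complex.ofReal_re, Complex.ofReal_im]
      ring
    have a2 : |∑ γ, hat ν γ ^ (n + 1) * (φ γ * ch (γ * x)).re * (1 - cc (γ * h))|
        ≤ 2 / (n + 1) * tt ν φ ρ h := by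
      have a3 := H.defect (s := n + 1) (by exact_mod_cast hs) h
      push_cast at a3
      rw [div_mul_eq_mul_div, le_div_iff₀' (by positivity)]
      refine le_trans (mul_le_mul_of_nonneg_left ((abs_sum_le_sum_abs _ _).trans
        (sum_le_sum fun γ _ => ?_)) (by positivity)) a3
      have a4 := Complex.abs_re_le_norm (φ γ * ch (γ * x))
      rw [norm_mul, norm_ch, mul_one] at a4
      have a5 := pow_nonneg (hν.hat_nn H.two γ) (n + 1)
      rw [abs_mul, abs_mul, abs_of_nonneg a5, abs_of_nonneg (sub_nonneg.mpr (cc_le _)),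
        mul_comm ‖φ γ‖]
      exact mul_le_mul_of_nonneg_right (mul_le_mul_of_nonneg_left a4 a5) (sub_nonneg.mpr (cc_le _))
    have a3 := pow_le_pow_left₀ (abs_nonneg _) a2 2
    rw [sq_abs, mul_pow, div_pow] at a3
    rw [a1]
    have a4 : (8 : ℝ) / (n + 1) ^ 2 = 2 * (2 ^ 2 / (n + 1) ^ 2) := by ring
    rw [a4]
    nlinarith [sq_nonneg (∑ γ, -(hat ν γ ^ (n + 1) * (φ γ * ch (γ * x)).im) * ss (γ * h)
        + ∑ γ, hat ν γ ^ (n + 1) * (φ γ * ch (γ * x)).re * (1 - cc (γ * h)))]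
  have h3 := sum_le_sum fun h (_ : h ∈ univ) => mul_le_mul_of_nonneg_left (h2 h) (hν.nn h)
  simp only [sub_sq, mul_sub (ν _), mul_add (ν _), sum_add_distrib, sum_sub_distrib,
    mul_left_comm (ν _), mul_right_comm 2 _ (f x), ← mul_sum, ← sum_mul, hν.tot] at h3
  have h4 := mul_le_mul_of_nonneg_left H.tt_sq (by positivity : (0 : ℝ) ≤ 8 / (n + 1) ^ 2)
  have h5 : (8 : ℝ) / (n + 1) ^ 2 * (2 * M ^ 2) ≤ 8 * κ / (n + 1) := by
    rw [div_mul_eq_mul_div, div_le_div_iff₀ (by positivity) (by positivity)]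
    have a1 : 2 * M ^ 2 ≤ (n + 1) * κ := le_trans (mul_le_mul_of_nonneg_right
      (by nlinarith [(Nat.cast_nonneg j : (0 : ℝ) ≤ j)]) (sq_nonneg M)) hn
    nlinarith [mul_le_mul_of_nonneg_right a1 (by positivity : (0 : ℝ) ≤ n + 1)]
  have h6 : 168 * κ / (n + 1) = 2 * (80 * κ / (n + 1)) + 8 * κ / (n + 1) := by ring
  rw [op, op]
  nlinarith [sq_nonneg (∑ h, ν h * f (x + h) - f x)]

lemma smooth_var (H : Stab ν φ M κ ρ) {n j S : ℕ} (hs : (n + 2 + S) * ρ ≤ 1)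
    (hk : M ^ 2 ≤ (j + 2) * κ) (hn : 2 * (j + 2) ^ 2 * M ^ 2 ≤ (n + 2) * κ) (x : ZMod p) :
    (op ν)^[S] (fun y => (op ν)^[n + 2] (tr φ) y ^ 2) x
      ≤ (op ν)^[S] ((op ν)^[n + 2] (tr φ)) x ^ 2 + 168 * κ * Real.log (1 / ρ) := by
  have hκ := H.kpos
  have hρ := H.rpos
  refine (telescope H.gib _ (fun i => 168 * κ / (n + 2 + i)) S (fun i hi y => ?_) x).trans ?_
  · have hi' : (i : ℝ) ≤ S := by exact_mod_cast hi.le
    have hi0 : (0 : ℝ) ≤ i := Nat.cast_nonneg i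
    have := H.one_step (n := i + (n + 1)) (j := j) (by push_cast; nlinarith) hk
      (by push_cast; nlinarith) y
    simp only [← Function.iterate_add_apply]
    rw [show i + 1 + (n + 2) = i + (n + 1) + 1 + 1 by ring,
      show (n + 2 + i : ℝ) = (i + (n + 1) : ℕ) + 1 by push_cast; ring]
    exact this
  have h1 : ∀ S : ℕ, ∑ i ∈ range S, (1 : ℝ) / (n + 2 + i) ≤ Real.log (n + 1 + S) := by
    intro S
    induction S with
    | zero => simpa using Real.log_nonneg (by linarith [(Nat.cast_nonneg n : (0 : ℝ) ≤ n)])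
    | succ S ih =>
      have := Real.log_le_sub_one_of_pos (by positivity : (0 : ℝ) < (n + 1 + S) / (n + 2 + S))
      rw [Real.log_div (by positivity) (by positivity),
        show (n + 1 + S : ℝ) / (n + 2 + S) - 1 = -(1 / (n + 2 + S)) by field_simp; ring] at this
      rw [sum_range_succ, show (n + 1 + (S + 1 : ℕ) : ℝ) = n + 2 + S by push_cast; ring]
      linarith
  have h2 : Real.log (n + 1 + S) ≤ Real.log (1 / ρ) :=
    Real.log_le_log (by positivity) (by rw [le_div_iff₀ hρ]; nlinarith)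
  simp only [div_eq_mul_one_div (168 * κ), ← mul_sum]
  linarith [mul_le_mul_of_nonneg_left ((h1 S).trans h2) (by positivity : 0 ≤ 168 * κ)]

end Stab

end Pool.Agent.Lib.MP_cb7904_an
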