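import Pool.Agent.Lib.MP_cb7904_an.LGMain

/-!
For a prime `p` and a set `A` of `(p - 1) / 2` residues, the sum of the absolute values of the
Fourier coefficients of the indicator of `A` is at least `c * log p / (log log p) ^ 2`.
-/

namespace Pool.Agent.Results.MP_cb7904_an.NearLog

open Finset Pool.Agent.Lib.MP_cb7904_an

theorem result :
    ∃ c : ℝ, 0 < c ∧ ∃ p₀ : ℕ, ∀ (p : ℕ) [Fact p.Prime], p₀ ≤ p → ∀ A : Finset (ZMod p),
      A.card = (p - 1) / 2 →
        c * Real.log p / Real.log (Real.log p) ^ 2 ≤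
          ∑ r : ZMod p, ‖(1 / p : ℂ) * ∑ x ∈ A,
            Complex.exp (-(2 * Real.pi * Complex.I * (r.val * x.val) / p))‖ := by
  refine ⟨1 / 3000000000, by norm_num, 27, fun p hp h27 A hA => ?_⟩
  have hp0 : (27 : ℝ) ≤ p := by exact_mod_cast h27
  have hc : (p : ℂ) ≠ 0 := Nat.cast_ne_zero.mpr (by omega)
  have h1 : ∀ r x : ZMod p, Complex.exp (-(2 * Real.pi * Complex.I * (r.val * x.val) / p))
      = ch (-(r * x)) := fun r x => by
    have := ZMod.stdAddChar_coe (N := p) (-(r.val * x.val : ℕ))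
    push_cast at this
    rw [ZMod.natCast_zmod_val, ZMod.natCast_zmod_val] at this
    rw [ch, this]
    congr 1; ring
  simp only [h1]
  set a : ZMod p → ℂ := fun r => (1 / p : ℂ) * ∑ x ∈ A, ch (-(r * x)) with ha
  set X := ∑ r, ‖a r‖ with hX
  have hcard : 2 * (A.card : ℝ) + 1 = p := by
    have := hp.out.eq_two_or_odd
    exact_mod_cast (by omega : 2 * A.card + 1 = p)
  have h2 : ∀ y, tr (fun r => 2 * a r - (Pi.single 0 1 : ZMod p → ℂ) r) y
      = 2 * (if y ∈ A then 1 else 0) - 1 := fun y => by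
    have b1 := tr_single 1 (0 : ZMod p) y
    rw [zero_mul, ch_zero, mul_one, Complex.one_re] at b1
    have b2 : ∑ r, a r * ch (r * y) = if y ∈ A then 1 else 0 := by
      simp only [ha, mul_assoc, sum_mul, ← mul_sum, ← ch_add]
      rw [sum_comm]
      have b3 : ∀ x, ∑ r : ZMod p, ch (-(r * x) + r * y) = if y = x then (p : ℂ) else 0 := fun x => by
        have := AddChar.sum_mulShift (y - x) (ZMod.isPrimitive_stdAddChar p)
        simp only [sub_eq_zero, ZMod.card, Nat.cast_ite, Nat.cast_zero] at this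
        rw [← this]
        exact sum_congr rfl fun r _ => by rw [ch]; congr 1; ring
      simp only [b3, sum_ite_eq]
      split_ifs <;> simp [hc]
    simp only [tr, sub_mul, Complex.sub_re, sum_sub_distrib] at b1 ⊢
    rw [b1, ← Complex.re_sum]
    simp only [mul_assoc, ← mul_sum, b2]
    split_ifs <;> simp
  have h3 : 1 ≤ 3 * X := by
    have b1 : ‖a 0‖ ≤ X := single_le_sum (f := fun r => ‖a r‖) (fun _ _ => norm_nonneg _) (mem_univ _)
    simp only [ha, zero_mul, neg_zero, ch_zero, sum_const, nsmul_eq_mul, mul_one, norm_mul,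
      norm_div, norm_one, Complex.norm_natCast] at b1
    rw [one_div, inv_mul_le_iff₀ (by linarith)] at b1
    nlinarith
  have e1 := Real.exp_one_lt_d9
  have l1 : 3 ≤ Real.log p := by
    rw [Real.le_log_iff_exp_le (by linarith), show (3 : ℝ) = (3 : ℕ) * 1 by norm_num,
      Real.exp_nat_mul]
    exact (pow_le_pow_left₀ (Real.exp_pos 1).le (by linarith : Real.exp 1 ≤ 3) 3).trans (by linarith)
  have l2 : 1 ≤ Real.log (Real.log p) := by
    rw [Real.le_log_iff_exp_le (by linarith)]; linarith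
  set t := Real.log (Real.log p) with ht
  rw [div_le_iff₀ (by positivity)]
  rcases le_total (Real.log p) (2 * X + 1) with h4 | h4
  · nlinarith [mul_le_mul_of_nonneg_left (one_le_pow₀ l2 (n := 2)) (by linarith : 0 ≤ X)]
  have h5 := core (φ := fun r => 2 * a r - (Pi.single 0 1 : ZMod p → ℂ) r) (by omega) (by
    simp only [h2, sum_sub_distrib, ← mul_sum, sum_boole, filter_mem_eq_inter, univ_inter, sum_const,
      card_univ, ZMod.card, nsmul_eq_mul, mul_one]
    rw [← hcard]; norm_num) (fun x => by rw [h2]; split_ifs <;> norm_num) (M := 2 * X + 1) (by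
    refine (sum_le_sum fun r _ => norm_sub_le _ _).trans ?_
    rw [sum_add_distrib, sum_eq_single (0 : ZMod p) (f := fun r =>
      ‖(Pi.single 0 1 : ZMod p → ℂ) r‖) (fun b _ hb => by simp [hb]) (by simp)]
    simp [← mul_sum, hX]) (by linarith) (L := ⌈2 * t⌉₊ + 20) (by omega) (by
    have b1 : Real.log p ≤ 2 ^ ⌈2 * t⌉₊ := by
      rw [← Real.log_le_log_iff (by linarith) (by positivity), Real.log_pow, ← ht]
      nlinarith [Nat.le_ceil (2 * t), Real.log_two_gt_d9]
    rw [pow_add]; linarith)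
  have h6 : ((⌈2 * t⌉₊ + 20 : ℕ) : ℝ) ≤ 23 * t := by
    push_cast; linarith [Nat.ceil_lt_add_one (by linarith : 0 ≤ 2 * t)]
  have h7 := mul_le_mul (by linarith : 400000 * (2 * X + 1) ≤ 2000000 * X)
    (pow_le_pow_left₀ (Nat.cast_nonneg _) h6 2) (by positivity) (by linarith)
  nlinarith [Real.log_two_lt_d9, mul_nonneg (by linarith : 0 ≤ X) (sq_nonneg t)]

end Pool.Agent.Results.MP_cb7904_an.NearLog
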